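import Mathlib

set_option autoImplicit false

/-!
# ACL-CorA: circuits of fixed depth, numerical part (Mathlib only)
-/

namespace Pool.Agent.ACL

open Filter

theorem corA (γ : ℝ) (hγ : 0 < γ) (hγ1 : γ < 1) (D : ℕ) : ∀ᶠ n : ℕ in atTop, ∃ t : ℕ, 1 ≤ t ∧
    (16 * (t : ℝ)) ^ (D + 3) ≤ (n : ℝ) ^ (1 - γ / 2) ∧
    ∀ s : ℕ, (s : ℝ) ≤ Real.exp ((n : ℝ) ^ ((1 - γ) / (D + 3))) →
      ((D : ℝ) * s + 1) * (1 / 2) ^ t ≤ Real.exp (-((n : ℝ) ^ ((1 - γ) / (D + 3)))) := by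
  have hD : (0 : ℝ) < (D : ℝ) + 3 := by positivity
  obtain ⟨a, ha⟩ : ∃ a : ℝ, a = (1 - γ) / (D + 3) := ⟨_, rfl⟩
  obtain ⟨a', ha'⟩ : ∃ a' : ℝ, a' = (1 - γ / 2) / (D + 3) := ⟨_, rfl⟩
  have ha0 : 0 < a := by rw [ha]; exact div_pos (by linarith) hD
  have hδ : 0 < a' - a := by
    have e : a' - a = (γ / 2) / (D + 3) := by
      rw [ha, ha']
      field_simp
      ring
    rw [e]
    positivity
  have hlD : 0 ≤ Real.log ((D : ℝ) + 1) := Real.log_nonneg (by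
    have : (0 : ℝ) ≤ D := Nat.cast_nonneg D
    linarith)
  have e1 : ∀ᶠ n : ℕ in atTop, 80 + 32 * Real.log ((D : ℝ) + 1) ≤ (n : ℝ) ^ (a' - a) :=
    ((tendsto_rpow_atTop hδ).comp tendsto_natCast_atTop_atTop).eventually_ge_atTop _
  filter_upwards [e1, eventually_ge_atTop 1] with n h1 h2
  have hn : (0 : ℝ) < n := by exact_mod_cast h2
  have hn1 : (1 : ℝ) ≤ n := by exact_mod_cast h2
  rw [← ha]
  obtain ⟨y, hy⟩ : ∃ y : ℝ, y = (n : ℝ) ^ a := ⟨_, rfl⟩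
  obtain ⟨x, hx⟩ : ∃ x : ℝ, x = (n : ℝ) ^ a' := ⟨_, rfl⟩
  have hy1 : 1 ≤ y := by rw [hy]; exact Real.one_le_rpow hn1 ha0.le
  have hxy : x = y * (n : ℝ) ^ (a' - a) := by
    rw [hx, hy, ← Real.rpow_add hn]
    congr 1
    ring
  have hx2 : 64 * y + 32 * Real.log ((D : ℝ) + 1) + 16 ≤ x := by
    rw [hxy]
    have h3 := mul_le_mul_of_nonneg_left h1 (show 0 ≤ y by linarith)
    nlinarith
  rw [← hy]
  have hfl : x / 16 < (⌊x / 16⌋₊ : ℝ) + 1 := Nat.lt_floor_add_one _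
  have hfl2 : (⌊x / 16⌋₊ : ℝ) ≤ x / 16 := Nat.floor_le (by linarith)
  refine ⟨⌊x / 16⌋₊, ?_, ?_, ?_⟩
  · rw [Nat.one_le_floor_iff]
    linarith
  · have h3 : 16 * (⌊x / 16⌋₊ : ℝ) ≤ x := by linarith
    have h4 : x ^ (D + 3) = (n : ℝ) ^ (1 - γ / 2) := by
      rw [hx, ← Real.rpow_natCast, ← Real.rpow_mul hn.le]
      congr 1
      rw [ha']
      push_cast
      field_simp
    rw [← h4]
    exact pow_le_pow_left₀ (by positivity) h3 _
  · intro s hs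
    obtain ⟨t, ht⟩ : ∃ t : ℕ, t = ⌊x / 16⌋₊ := ⟨_, rfl⟩
    rw [← ht] at hfl ⊢
    have hlog : (1 : ℝ) / 2 ≤ Real.log 2 := by
      have := Real.log_two_gt_d9
      linarith
    have hkey : Real.log ((D : ℝ) + 1) + 2 * y ≤ t * Real.log 2 := by
      have h3 : (t : ℝ) * (1 / 2) ≤ t * Real.log 2 :=
        mul_le_mul_of_nonneg_left hlog (Nat.cast_nonneg t)
      linarith
    have hS : 1 ≤ Real.exp y := Real.one_le_exp (by linarith)
    have h4 : (D : ℝ) * s + 1 ≤ ((D : ℝ) + 1) * Real.exp y := by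
      have h5 := mul_le_mul_of_nonneg_left hs (Nat.cast_nonneg (α := ℝ) D)
      linarith
    have h5 : ((1 : ℝ) / 2) ^ t = Real.exp (-(t * Real.log 2)) := by
      rw [Real.exp_neg, Real.exp_nat_mul, Real.exp_log (by norm_num), one_div, inv_pow]
    have h6 : (D : ℝ) + 1 = Real.exp (Real.log ((D : ℝ) + 1)) :=
      (Real.exp_log (by positivity)).symm
    calc ((D : ℝ) * s + 1) * (1 / 2) ^ t ≤ ((D : ℝ) + 1) * Real.exp y * (1 / 2) ^ t :=
          mul_le_mul_of_nonneg_right h4 (by positivity)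
      _ = Real.exp (Real.log ((D : ℝ) + 1) + y + -(t * Real.log 2)) := by
          rw [Real.exp_add, Real.exp_add, ← h6, h5]
      _ ≤ Real.exp (-y) := Real.exp_le_exp.mpr (by linarith)

end Pool.Agent.ACL
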