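import Mathlib

set_option autoImplicit false

/-!
# ACL-CorB: polynomial size and depth up to (1 - γ) ln n / ln ln n, numerical part (Mathlib only)

Proof: `t = ⌈B ln n⌉₊` with `B = (2 c + 2)/log 2 + 2`, everything by taking logarithms.
-/

namespace Pool.Agent.ACL

open Filter

theorem corB (γ c : ℝ) (hγ : 0 < γ) (hγ1 : γ < 1) (hc : 0 < c) : ∀ᶠ n : ℕ in atTop, ∃ t : ℕ,
    1 ≤ t ∧ ∀ D : ℕ, (D : ℝ) ≤ (1 - γ) * Real.log n / Real.log (Real.log n) →
    (16 * (t : ℝ)) ^ (D + 3) ≤ (n : ℝ) ^ (1 - γ / 2) ∧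
    ∀ s : ℕ, (s : ℝ) ≤ (n : ℝ) ^ c → ((D : ℝ) * s + 1) * (1 / 2) ^ t ≤ (n : ℝ) ^ (-c) := by
  have hl2 : 0 < Real.log 2 := Real.log_pos (by norm_num)
  obtain ⟨B, hB⟩ : ∃ B : ℝ, B = (2 * c + 2) / Real.log 2 + 2 := ⟨_, rfl⟩
  have hB2 : 2 < B := by
    rw [hB]
    have : 0 < (2 * c + 2) / Real.log 2 := by positivity
    linarith
  have hBl : B * Real.log 2 = 2 * c + 2 + 2 * Real.log 2 := by
    rw [hB]
    field_simp
  obtain ⟨K, hK⟩ : ∃ K : ℝ, K = Real.log (32 * B) := ⟨_, rfl⟩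
  have hK0 : 0 ≤ K := by
    rw [hK]
    exact Real.log_nonneg (by linarith)
  have hlog : Tendsto (fun n : ℕ => Real.log (n : ℝ)) atTop atTop :=
    Real.tendsto_log_atTop.comp tendsto_natCast_atTop_atTop
  have hlog2 : Tendsto (fun n : ℕ => Real.log (Real.log (n : ℝ))) atTop atTop :=
    Real.tendsto_log_atTop.comp hlog
  have h1 : ∀ᶠ n : ℕ in atTop, Real.log (Real.log (n : ℝ)) ≤ γ / 24 * Real.log n := by
    have h := (Real.isLittleO_log_id_atTop.bound (show 0 < γ / 24 by positivity))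
    have h' := hlog.eventually h
    filter_upwards [h', hlog.eventually_ge_atTop 1] with n hn hn1
    have e1 : ‖Real.log (Real.log (n : ℝ))‖ = |Real.log (Real.log (n : ℝ))| := rfl
    have e2 : ‖id (Real.log (n : ℝ))‖ = Real.log n := by
      rw [id, Real.norm_eq_abs, abs_of_nonneg (by linarith)]
    rw [e1, e2] at hn
    exact (le_abs_self _).trans hn
  filter_upwards [h1, hlog.eventually_ge_atTop (max 1 (24 * K / γ)),
    hlog2.eventually_ge_atTop (max 1 (8 * K / γ)), eventually_ge_atTop 2] with n a1 a2 a3 a4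
  obtain ⟨L, hL⟩ : ∃ L : ℝ, L = Real.log n := ⟨_, rfl⟩
  obtain ⟨M, hM⟩ : ∃ M : ℝ, M = Real.log (Real.log n) := ⟨_, rfl⟩
  rw [← hM, ← hL] at a1
  rw [← hL] at a2
  rw [← hM] at a3
  have hL1 : 1 ≤ L := (le_max_left _ _).trans a2
  have hLK : 24 * K / γ ≤ L := (le_max_right _ _).trans a2
  have hM1 : 1 ≤ M := (le_max_left _ _).trans a3
  have hMK : 8 * K / γ ≤ M := (le_max_right _ _).trans a3
  rw [div_le_iff₀ hγ] at hLK hMK
  have hn0 : (0 : ℝ) < n := by
    have : (2 : ℝ) ≤ n := by exact_mod_cast a4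
    linarith
  have hn2 : (2 : ℝ) ≤ n := by exact_mod_cast a4
  have hBL : 1 ≤ B * L := by nlinarith
  refine ⟨⌈B * L⌉₊, ?_, ?_⟩
  · exact Nat.one_le_ceil_iff.mpr (by linarith)
  obtain ⟨t, ht⟩ : ∃ t : ℕ, t = ⌈B * L⌉₊ := ⟨_, rfl⟩
  rw [← ht]
  have ht1 : B * L ≤ t := by
    rw [ht]
    exact Nat.le_ceil _
  have ht2 : (t : ℝ) ≤ 2 * (B * L) := by
    rw [ht]
    have := Nat.ceil_lt_add_one (show 0 ≤ B * L by linarith)
    linarith
  have ht0 : (0 : ℝ) < t := by linarith
  intro D hD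
  rw [← hM, ← hL] at hD
  have hDM : (D : ℝ) * M ≤ (1 - γ) * L := by
    rw [le_div_iff₀ (by linarith)] at hD
    exact hD
  have hD0 : (0 : ℝ) ≤ D := Nat.cast_nonneg D
  have hDL : (D : ℝ) ≤ L := by
    have : (D : ℝ) * 1 ≤ D * M := mul_le_mul_of_nonneg_left hM1 hD0
    nlinarith
  refine ⟨?_, ?_⟩
  · have e1 : (16 * (t : ℝ)) ^ (D + 3) = Real.exp (((D : ℝ) + 3) * Real.log (16 * t)) := by
      have h15 : (D : ℝ) + 3 = ((D + 3 : ℕ) : ℝ) := by
        push_cast
        ring
      rw [h15, Real.exp_nat_mul, Real.exp_log (by positivity)]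
    have e2 : (n : ℝ) ^ (1 - γ / 2) = Real.exp (L * (1 - γ / 2)) := by
      rw [Real.rpow_def_of_pos hn0, hL]
    rw [e1, e2]
    apply Real.exp_le_exp.mpr
    have e3 : Real.log (16 * (t : ℝ)) ≤ M + K := by
      have h5 : Real.log (16 * (t : ℝ)) ≤ Real.log (32 * B * L) := by
        apply Real.log_le_log (by positivity)
        nlinarith
      have h6 : Real.log (32 * B * L) = K + M := by
        rw [Real.log_mul (by positivity) (by positivity), hK, hM, hL]
      linarith
    have e4 : ((D : ℝ) + 3) * Real.log (16 * t) ≤ ((D : ℝ) + 3) * (M + K) :=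
      mul_le_mul_of_nonneg_left e3 (by linarith)
    have e5 : (D : ℝ) * K ≤ γ / 8 * L := by
      have h7 : (D : ℝ) * K * 8 ≤ D * (M * γ) := by
        have := mul_le_mul_of_nonneg_left hMK hD0
        linarith
      have h8 : (D : ℝ) * (M * γ) ≤ (1 - γ) * L * γ := by
        have := mul_le_mul_of_nonneg_right hDM hγ.le
        linarith
      have h9 : (1 - γ) * L * γ ≤ L * γ := by
        have : 0 ≤ γ * L * γ := by positivity
        nlinarith
      linarith
    nlinarith
  · intro s hs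
    have f1 : (n : ℝ) ^ c = Real.exp (L * c) := by
      rw [Real.rpow_def_of_pos hn0, hL]
    have f2 : (n : ℝ) ^ (-c) = Real.exp (L * (-c)) := by
      rw [Real.rpow_def_of_pos hn0, hL]
    have f3 : ((1 : ℝ) / 2) ^ t = Real.exp (-(t * Real.log 2)) := by
      rw [Real.exp_neg, mul_comm, Real.exp_mul, Real.exp_log (by norm_num), Real.rpow_natCast, one_div, inv_pow]
    have f4 : ((1 : ℝ) / 2) ^ t ≤ Real.exp (-(L * (2 * c + 2 + 2 * Real.log 2))) := by
      rw [f3]
      apply Real.exp_le_exp.mpr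
      have := mul_le_mul_of_nonneg_right ht1 hl2.le
      have h10 : B * L * Real.log 2 = L * (2 * c + 2 + 2 * Real.log 2) := by
        rw [← hBl]
        ring
      linarith
    have hLn : L ≤ n := by
      rw [hL]
      exact (Real.log_le_sub_one_of_pos hn0).trans (by linarith)
    have f5 : (D : ℝ) * s + 1 ≤ 2 * Real.exp (L * (c + 1)) := by
      have g1 : (D : ℝ) * s ≤ n * (n : ℝ) ^ c := by
        apply mul_le_mul (hDL.trans hLn) hs (Nat.cast_nonneg s) hn0.le
      have g2 : (n : ℝ) * (n : ℝ) ^ c = Real.exp (L * (c + 1)) := by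
        rw [f1, mul_add, mul_one, Real.exp_add, mul_comm, hL, Real.exp_log hn0]
      have g3 : (1 : ℝ) ≤ Real.exp (L * (c + 1)) := Real.one_le_exp (by positivity)
      linarith
    have f6 : (2 : ℝ) ≤ Real.exp L := by
      rw [hL, Real.exp_log hn0]
      exact hn2
    rw [f2]
    calc ((D : ℝ) * s + 1) * (1 / 2) ^ t
        ≤ (2 * Real.exp (L * (c + 1))) * Real.exp (-(L * (2 * c + 2 + 2 * Real.log 2))) := by
          apply mul_le_mul f5 f4 (by positivity) (by positivity)
      _ ≤ (Real.exp L * Real.exp (L * (c + 1))) * Real.exp (-(L * (2 * c + 2 + 2 * Real.log 2))) := by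
          apply mul_le_mul_of_nonneg_right _ (Real.exp_pos _).le
          exact mul_le_mul_of_nonneg_right f6 (Real.exp_pos _).le
      _ = Real.exp (L * (-c) + -(2 * Real.log 2 * L)) := by
          rw [← Real.exp_add, ← Real.exp_add]
          congr 1
          ring
      _ ≤ Real.exp (L * (-c)) := by
          apply Real.exp_le_exp.mpr
          have : 0 ≤ 2 * Real.log 2 * L := by positivity
          linarith

end Pool.Agent.ACL
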