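import Pool.Agent.ACL.CoreA

set_option autoImplicit false

/-!
# ACL-Core: many pairs of inputs with close outputs
-/

namespace Pool.Agent.ACL

open Finset

section

variable {V : Type} [Fintype V] [DecidableEq V] {n t : ℕ}

open Classical in
theorem core (f : (V → Bool) → Fin n → Bool) (S : (V → Bool) → Prop) {π δ r θ β y : ℝ}
    (hπ0 : 0 ≤ π) (hπ1 : π ≤ 1)
    (hbad : Ex (rw1 π) (fun τ => if ∀ v, HasDT t (fun x => f (ap τ x) v) then 0 else 1) ≤ δ)
    (hr0 : 0 ≤ r) (hr1 : r ≤ 1) (hθ : 0 < θ) (hβ : 0 ≤ β) (h : ℕ) :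
    (max ((Ex half fun x => if S x then (1 : ℝ) else 0) - δ - (n * t / θ * r) ^ h) 0) ^ 2 ≤
      ((2 * Fintype.card V + 1 : ℕ) : ℝ) ^ h *
        (Ex half fun X => Ex (bern (π * r / 2)) fun Λ =>
          if S X ∧ S (fl X Λ) ∧ (ds (f X) (f (fl X Λ)) : ℝ) ≤ y then 1 else 0) +
      ((2 * Fintype.card V + 1 : ℕ) : ℝ) ^ h *
        Real.exp (-(β * y / θ) + r * Real.exp β * (n * t / θ)) := by
  set K : ℝ := ((2 * Fintype.card V + 1 : ℕ) : ℝ) ^ h with hK
  set er : ℝ := Real.exp (-(β * y / θ) + r * Real.exp β * (n * t / θ)) with her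
  set ξ : ℝ := (n * t / θ * r) ^ h with hξ
  have hK0 : 0 ≤ K := by positivity
  have her0 : 0 ≤ er := (Real.exp_pos _).le
  have hξ0 : 0 ≤ ξ := by positivity
  set Φ : (V → Bool) → (V → Bool) → ℝ := fun X Y =>
    if S X ∧ S Y ∧ (ds (f X) (f Y) : ℝ) ≤ y then 1 else 0 with hΦ
  have hΦ0 : ∀ X Y, 0 ≤ Φ X Y := fun X Y => by
    rw [hΦ]
    simp only
    split_ifs
    · exact zero_le_one
    · exact le_rfl
  set μ : Rst V → ℝ := fun τ => Ex half fun x => if S (ap τ x) then (1 : ℝ) else 0 with hμ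
  set bad : Rst V → ℝ := fun τ => if ∀ v, HasDT t (fun x => f (ap τ x) v) then 0 else 1 with hbd
  set g : Rst V → ℝ := fun τ => if ∀ v, HasDT t (fun x => f (ap τ x) v) then max (μ τ - ξ) 0 else 0 with hg
  set P : Rst V → ℝ := fun τ => Ex (bern r) fun R => Ex half fun x => Ex half fun x' =>
    Φ (ap τ x) (ap τ (rsm R x x')) with hP
  have hw0 := rw1_nonneg hπ0 hπ1
  have hμ1 : ∀ τ, μ τ ≤ 1 := by
    intro τ
    have h1 := Ex_mono (V := V) half_nonneg (Φ := fun x => if S (ap τ x) then (1 : ℝ) else 0)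
      (Ψ := fun _ => (1 : ℝ)) (fun x => by
        split_ifs
        · exact le_rfl
        · exact zero_le_one)
    rw [Ex_const half_sum] at h1
    exact h1
  have hg0 : ∀ τ, 0 ≤ g τ := fun τ => by
    rw [hg]
    simp only
    split_ifs
    · exact le_max_right _ _
    · exact le_rfl
  have hP0 : ∀ τ, 0 ≤ P τ := fun τ =>
    Ex_nonneg (bern_nonneg hr0 hr1) fun R => Ex_nonneg half_nonneg fun x => Ex_nonneg half_nonneg fun x' =>
      hΦ0 _ _
  have hA : ∀ τ, μ τ - ξ - bad τ ≤ g τ := by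
    intro τ
    by_cases hτ : ∀ v, HasDT t (fun x => f (ap τ x) v)
    · have e1 : bad τ = 0 := if_pos hτ
      have e2 : g τ = max (μ τ - ξ) 0 := if_pos hτ
      rw [e1, e2, sub_zero]
      exact le_max_left _ _
    · have e1 : bad τ = 1 := if_neg hτ
      have e2 : g τ = 0 := if_neg hτ
      rw [e1, e2]
      have := hμ1 τ
      linarith
  have hB : (Ex half fun x => if S x then (1 : ℝ) else 0) - δ - ξ ≤ Ex (rw1 π) g := by
    have h1 := Ex_mono hw0 hA
    have h2 : Ex (rw1 π) (fun τ => μ τ - ξ - bad τ) =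
        (Ex half fun x => if S x then (1 : ℝ) else 0) - ξ - Ex (rw1 π) bad := by
      rw [Ex_sub (rw1 π) (fun τ => μ τ - ξ) bad, Ex_sub (rw1 π) μ (fun _ => ξ), Ex_const (rw1_sum π)]
      congr 2
      exact Ex_ap π (fun x => if S x then (1 : ℝ) else 0)
    rw [h2] at h1
    linarith
  have hC : (max ((Ex half fun x => if S x then (1 : ℝ) else 0) - δ - ξ) 0) ^ 2 ≤ (Ex (rw1 π) g) ^ 2 :=
    pow_le_pow_left₀ (le_max_right _ _) (max_le hB (Ex_nonneg hw0 hg0)) 2
  have hD := Ex_sq hw0 (rw1_sum π) g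
  have hE : ∀ τ, g τ ^ 2 ≤ K * P τ + K * er := by
    intro τ
    by_cases hτ : ∀ v, HasDT t (fun x => f (ap τ x) v)
    · have e2 : g τ = max (μ τ - ξ) 0 := if_pos hτ
      rw [e2]
      choose T hT1 hT2 using hτ
      have h1 := core_tree (y := y) T hT1 (fun x => S (ap τ x)) hr0 hr1 hθ hβ h
      have e3 : ∀ x, (fun v => (T v).ev x) = f (ap τ x) := fun x => funext fun v => hT2 v x
      simp only [e3] at h1
      exact h1
    · have e2 : g τ = 0 := if_neg hτ
      rw [e2, zero_pow two_ne_zero]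
      exact add_nonneg (mul_nonneg hK0 (hP0 τ)) (mul_nonneg hK0 her0)
  have hF : Ex (rw1 π) (fun τ => g τ ^ 2) ≤ K * Ex (rw1 π) P + K * er := by
    have h1 := Ex_mono hw0 hE
    rw [Ex_add (rw1 π) (fun τ => K * P τ) (fun _ => K * er), Ex_mul, Ex_const (rw1_sum π)] at h1
    exact h1
  have hG : Ex (rw1 π) P = Ex half fun X => Ex (bern (π * r / 2)) fun Λ => Φ X (fl X Λ) := Ex_flip π r Φ
  rw [hG] at hF
  exact le_trans hC (le_trans hD hF)

end

end Pool.Agent.ACL
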