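import Pool.Agent.ACL.ExC

set_option autoImplicit false

/-!
# ACL-Pig: pairs with the same key
-/

namespace Pool.Agent.ACL

open Finset

section

variable {V : Type} [Fintype V] [DecidableEq V]

private theorem pig_step (h : ℕ) :
    ((univ : Finset (Rst V)).filter fun ρ => (sup ρ).card ≤ h + 1).card ≤
      (2 * Fintype.card V + 1) * ((univ : Finset (Rst V)).filter fun ρ => (sup ρ).card ≤ h).card := by
  classical
  obtain ⟨F, hF⟩ : ∃ F : Option (V × Bool) × Rst V → Rst V, F = fun p =>
    match p.1 with
    | none => p.2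
    | some q => Function.update p.2 q.1 (some q.2) := ⟨_, rfl⟩
  have hsub : ((univ : Finset (Rst V)).filter fun ρ => (sup ρ).card ≤ h + 1) ⊆
      ((univ : Finset (Option (V × Bool))) ×ˢ
        ((univ : Finset (Rst V)).filter fun ρ => (sup ρ).card ≤ h)).image F := by
    intro σ hσ
    have h1 := (mem_filter.1 hσ).2
    rw [mem_image]
    by_cases he : sup σ = ∅
    · refine ⟨(none, σ), ?_, by rw [hF]⟩
      rw [mem_product, mem_filter]
      refine ⟨mem_univ _, mem_univ _, ?_⟩
      show (sup σ).card ≤ h
      rw [he, card_empty]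
      exact Nat.zero_le _
    · obtain ⟨v, hv⟩ := Finset.nonempty_of_ne_empty he
      have hv2 : σ v ≠ none := by
        unfold sup at hv
        exact (mem_filter.1 hv).2
      obtain ⟨b, hb⟩ := Option.ne_none_iff_exists'.1 hv2
      refine ⟨(some (v, b), Function.update σ v none), ?_, ?_⟩
      · rw [mem_product, mem_filter]
        refine ⟨mem_univ _, mem_univ _, ?_⟩
        show (sup (Function.update σ v none)).card ≤ h
        have h2 : sup (Function.update σ v none) ⊆ (sup σ).erase v := by
          intro w hw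
          unfold sup at hw ⊢
          rw [mem_filter] at hw
          rw [mem_erase, mem_filter]
          have hwv : w ≠ v := by
            intro hwv
            apply hw.2
            rw [hwv, Function.update_self]
          refine ⟨hwv, mem_univ _, ?_⟩
          have h3 := hw.2
          rwa [Function.update_of_ne hwv] at h3
        have h3 := card_le_card h2
        rw [card_erase_of_mem hv] at h3
        omega
      · rw [hF]
        show Function.update (Function.update σ v none) v (some b) = σ
        rw [Function.update_idem, ← hb, Function.update_eq_self]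
  refine (card_le_card hsub).trans (card_image_le.trans (le_of_eq ?_))
  rw [card_product, card_univ, Fintype.card_option, Fintype.card_prod, Fintype.card_bool]
  ring

theorem key_card (h : ℕ) :
    ((univ : Finset (Rst V)).filter fun ρ => (sup ρ).card ≤ h).card ≤ (2 * Fintype.card V + 1) ^ h := by
  induction h with
  | zero =>
    rw [pow_zero, card_le_one]
    intro ρ hρ σ hσ
    have h0 : ∀ τ : Rst V, τ ∈ (univ : Finset (Rst V)).filter (fun ρ => (sup ρ).card ≤ 0) →
        τ = fun _ => none := by
      intro τ hτ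
      have h1 := (mem_filter.1 hτ).2
      have h2 : sup τ = ∅ := card_eq_zero.1 (Nat.le_zero.1 h1)
      funext v
      by_contra hv
      have h3 : v ∈ sup τ := by
        unfold sup
        exact mem_filter.2 ⟨mem_univ _, hv⟩
      rw [h2] at h3
      exact notMem_empty _ h3
    rw [h0 ρ hρ, h0 σ hσ]
  | succ h ih =>
    refine (pig_step h).trans ?_
    rw [pow_succ']
    exact Nat.mul_le_mul_left _ ih

private theorem pig_sq {V : Type} [Fintype V] [DecidableEq V] (I : (V → Bool) → ℝ) :
    (Ex half I) ^ 2 = Ex half fun c => Ex half fun c' => I c * I c' := by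
  have h1 : ∀ c, (Ex half fun c' => I c * I c') = Ex half I * I c := by
    intro c
    rw [Ex_mul, mul_comm]
  have h2 : (Ex half fun c => Ex half fun c' => I c * I c') = Ex half fun c => Ex half I * I c :=
    congrArg (Ex half) (funext h1)
  rw [h2, Ex_mul, pow_two]

open Classical in
private theorem pig_fix {V : Type} [Fintype V] [DecidableEq V] (S : (V → Bool) → Prop) {Y : Type}
    (key : (V → Bool) → Y) (g : (V → Bool) → (V → Bool)) (Y0 : Finset Y) (hY : ∀ x, key x ∈ Y0)
    (K : ℕ) (hK : Y0.card ≤ K) :
    (Ex half fun c => if S (g c) then (1 : ℝ) else 0) ^ 2 ≤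
      K * Ex half fun c => Ex half fun c' =>
        if S (g c) ∧ S (g c') ∧ key (g c) = key (g c') then (1 : ℝ) else 0 := by
  obtain ⟨q, hq⟩ : ∃ q : Y → (V → Bool) → ℝ, q = fun y c =>
    if S (g c) ∧ key (g c) = y then (1 : ℝ) else 0 := ⟨_, rfl⟩
  have hq1 : ∀ y c, S (g c) ∧ key (g c) = y → q y c = 1 := by
    intro y c h
    rw [hq]
    exact if_pos h
  have hq0 : ∀ y c, ¬ (S (g c) ∧ key (g c) = y) → q y c = 0 := by
    intro y c h
    rw [hq]
    exact if_neg h
  have h1 : ∀ c, (if S (g c) then (1 : ℝ) else 0) = ∑ y ∈ Y0, q y c := by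
    intro c
    by_cases hS : S (g c)
    · rw [if_pos hS, sum_eq_single (key (g c))]
      · rw [hq1 _ _ ⟨hS, rfl⟩]
      · intro y _ hy
        exact hq0 _ _ fun h2 => hy h2.2.symm
      · intro h2
        exact absurd (hY _) h2
    · rw [if_neg hS]
      exact (sum_eq_zero fun y _ => hq0 _ _ fun h2 => hS h2.1).symm
  have h2 : (Ex half fun c => if S (g c) then (1 : ℝ) else 0) = ∑ y ∈ Y0, Ex half (q y) := by
    rw [← Ex_sum]
    exact congrArg (Ex half) (funext h1)
  rw [h2]
  refine sq_sum_le_card_mul_sum_sq.trans ?_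
  have h3 : ∑ y ∈ Y0, Ex half (q y) ^ 2 = Ex half fun c => Ex half fun c' =>
        if S (g c) ∧ S (g c') ∧ key (g c) = key (g c') then (1 : ℝ) else 0 := by
    have h4 : ∀ y ∈ Y0, Ex half (q y) ^ 2 = Ex half fun c => Ex half fun c' => q y c * q y c' :=
      fun y _ => pig_sq (q y)
    rw [sum_congr rfl h4, ← Ex_sum]
    refine congrArg (Ex half) (funext fun c => ?_)
    rw [← Ex_sum]
    refine congrArg (Ex half) (funext fun c' => ?_)
    by_cases hc : S (g c) ∧ S (g c') ∧ key (g c) = key (g c')
    · rw [if_pos hc, sum_eq_single (key (g c))]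
      · rw [hq1 _ _ ⟨hc.1, rfl⟩, hq1 _ _ ⟨hc.2.1, hc.2.2.symm⟩, mul_one]
      · intro y _ hy
        have h5 : ¬ (S (g c) ∧ key (g c) = y) := fun h5 => hy h5.2.symm
        rw [hq0 _ _ h5, zero_mul]
      · intro h5
        exact absurd (hY _) h5
    · rw [if_neg hc]
      refine sum_eq_zero fun y _ => ?_
      by_cases h5 : S (g c) ∧ key (g c) = y
      · have h6 : ¬ (S (g c') ∧ key (g c') = y) := fun h6 =>
          hc ⟨h5.1, h6.1, h5.2.trans h6.2.symm⟩
        rw [hq0 _ _ h6, mul_zero]
      · rw [hq0 _ _ h5, zero_mul]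
  rw [h3]
  refine mul_le_mul_of_nonneg_right (by exact_mod_cast hK) ?_
  refine Ex_nonneg half_nonneg fun c => Ex_nonneg half_nonneg fun c' => ?_
  split_ifs
  · exact zero_le_one
  · exact le_rfl

open Classical in
theorem pair_lower (R : V → Bool) (S : (V → Bool) → Prop) {Y : Type} (key : (V → Bool) → Y)
    (K : ℕ) (hK : (univ.image key).card ≤ K) :
    (Ex half fun x => if S x then (1 : ℝ) else 0) ^ 2 ≤
      K * Ex half fun x => Ex half fun x' =>
        if S x ∧ S (rsm R x x') ∧ key x = key (rsm R x x') then 1 else 0 := by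
  have h1 := Ex_rsm R (fun x => if S x then (1 : ℝ) else 0)
  rw [← h1, Ex_pair R (fun x y => if S x ∧ S y ∧ key x = key y then (1 : ℝ) else 0)]
  refine (Ex_sq half_nonneg half_sum _).trans ?_
  rw [← Ex_mul]
  refine Ex_mono half_nonneg fun b => ?_
  exact pig_fix S key (fun c => rsm R b c) (univ.image key)
    (fun x => mem_image_of_mem key (mem_univ x)) K hK

end

end Pool.Agent.ACL
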