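import Pool.Agent.ACL.DtA

set_option autoImplicit false

/-!
# ACL-Qry: the number of queries (double counting of the pairs (tree, queried variable))
-/

namespace Pool.Agent.ACL

open Finset

section

variable {V : Type} [Fintype V] [DecidableEq V] {n t : ℕ}

theorem qn_sum (T : Fin n → DT V) (hT : ∀ v, (T v).dp ≤ t) (x : V → Bool) :
    ∑ i, qn T x i ≤ n * t := by
  calc ∑ i, qn T x i = ∑ i, ∑ v, (if i ∈ (T v).qs x then 1 else 0) := by
        refine sum_congr rfl (fun i _ => ?_)
        unfold qn
        rw [card_filter]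
    _ = ∑ v, ∑ i, (if i ∈ (T v).qs x then 1 else 0) := sum_comm
    _ ≤ ∑ _v : Fin n, t := by
        refine sum_le_sum (fun v _ => ?_)
        rw [← card_filter]
        calc (univ.filter fun i => i ∈ (T v).qs x).card ≤ ((T v).qs x).toFinset.card := by
              refine card_le_card (fun i hi => ?_)
              rw [List.mem_toFinset]
              exact (mem_filter.1 hi).2
          _ ≤ ((T v).qs x).length := List.toFinset_card_le _
          _ ≤ (T v).dp := qs_length _ _
          _ ≤ t := hT v
    _ = n * t := by simp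

theorem hv_card (T : Fin n → DT V) (hT : ∀ v, (T v).dp ≤ t) {θ : ℝ} (hθ : 0 < θ) (x : V → Bool) :
    ((hv T θ x).card : ℝ) ≤ n * t / θ := by
  rw [le_div_iff₀ hθ]
  calc ((hv T θ x).card : ℝ) * θ = ∑ _i ∈ hv T θ x, θ := by simp
    _ ≤ ∑ i ∈ hv T θ x, (qn T x i : ℝ) := by
        refine sum_le_sum (fun i hi => ?_)
        unfold hv at hi
        exact ((mem_filter.1 hi).2).le
    _ ≤ ∑ i, (qn T x i : ℝ) :=
        sum_le_sum_of_subset_of_nonneg (subset_univ _) (fun i _ _ => Nat.cast_nonneg _)
    _ ≤ n * t := by exact_mod_cast qn_sum T hT x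

theorem ds_le (T : Fin n → DT V) (x x' : V → Bool) :
    ds (fun v => (T v).ev x) (fun v => (T v).ev x') ≤
      ∑ i ∈ univ.filter (fun i => x i ≠ x' i), qn T x i := by
  have hsub : (univ.filter fun v : Fin n => (T v).ev x ≠ (T v).ev x') ⊆
      (univ.filter (fun i => x i ≠ x' i)).biUnion
        (fun i => univ.filter fun v : Fin n => i ∈ (T v).qs x) := by
    intro v hv
    rw [mem_filter] at hv
    by_contra hcon
    refine hv.2 (qs_agree (T v) x x' (fun i hi => ?_))
    by_contra hne
    refine hcon ?_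
    rw [mem_biUnion]
    exact ⟨i, mem_filter.2 ⟨mem_univ _, hne⟩, mem_filter.2 ⟨mem_univ _, hi⟩⟩
  unfold ds
  exact (card_le_card hsub).trans card_biUnion_le

end

end Pool.Agent.ACL
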