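import Pool.Agent.ACL.ExA

set_option autoImplicit false

/-!
# ACL-TlA: tail of a weighted sum over a random set
-/

namespace Pool.Agent.ACL

open Finset

private theorem tla_factor {r β w : ℝ} (h0 : 0 ≤ r) (hw0 : 0 ≤ w) (hw1 : w ≤ 1) :
    r * Real.exp (β * w) + (1 - r) ≤ Real.exp (r * Real.exp β * w) := by
  have h1 := convexOn_exp.2 (Set.mem_univ (0 : ℝ)) (Set.mem_univ β) (sub_nonneg.2 hw1) hw0
    (by ring : (1 - w) + w = 1)
  simp only [smul_eq_mul, mul_zero, zero_add, Real.exp_zero, mul_one] at h1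
  have h2 : Real.exp (β * w) ≤ 1 - w + w * Real.exp β := by
    rw [mul_comm β w]
    exact h1
  have h3 : r * Real.exp (β * w) ≤ r * (1 - w + w * Real.exp β) := mul_le_mul_of_nonneg_left h2 h0
  have h4 := Real.add_one_le_exp (r * Real.exp β * w)
  have h5 : 0 ≤ r * w := mul_nonneg h0 hw0
  nlinarith

section

variable {V : Type} [Fintype V] [DecidableEq V]

open Classical in
theorem tailr {r : ℝ} (h0 : 0 ≤ r) (h1 : r ≤ 1) (β y W : ℝ) (hβ : 0 ≤ β) (w : V → ℝ)
    (hw0 : ∀ i, 0 ≤ w i) (hw1 : ∀ i, w i ≤ 1) (hW : ∑ i, w i ≤ W) :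
    Ex (bern r) (fun R => if y < ∑ i, (if R i = true then w i else 0) then 1 else 0) ≤
      Real.exp (-(β * y) + r * Real.exp β * W) := by
  have hb : ∀ b, 0 ≤ bern r b := bern_nonneg h0 h1
  have hstep : ∀ R : V → Bool, (if y < ∑ i, (if R i = true then w i else 0) then (1 : ℝ) else 0) ≤
      Real.exp (-(β * y)) * ∏ i, Real.exp (β * (if R i = true then w i else 0)) := by
    intro R
    rw [← Real.exp_sum, ← Real.exp_add, ← Finset.mul_sum]
    split_ifs with h
    · rw [← Real.exp_zero]
      apply Real.exp_le_exp.2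
      have := mul_le_mul_of_nonneg_left h.le hβ
      linarith
    · exact (Real.exp_pos _).le
  refine (Ex_mono hb hstep).trans ?_
  rw [Ex_mul]
  have hprod : Ex (bern r) (fun R : V → Bool => ∏ i, Real.exp (β * (if R i = true then w i else 0))) =
      ∏ i, (r * Real.exp (β * w i) + (1 - r)) := by
    unfold Ex
    have e1 : ∀ R : V → Bool, (∏ i, bern r (R i)) *
        ∏ i, Real.exp (β * (if R i = true then w i else 0)) =
        ∏ i, (bern r (R i) * Real.exp (β * (if R i = true then w i else 0))) := fun R =>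
      (Finset.prod_mul_distrib).symm
    rw [Finset.sum_congr rfl fun R _ => e1 R]
    have e2 := Finset.prod_univ_sum (R := ℝ) (ι := V) (fun _ => (Finset.univ : Finset Bool))
      (fun i b => bern r b * Real.exp (β * (if b = true then w i else 0)))
    rw [Fintype.piFinset_univ] at e2
    rw [← e2]
    refine Finset.prod_congr rfl fun i _ => ?_
    rw [Fintype.sum_bool]
    simp [bern]
  rw [hprod, Real.exp_add]
  refine mul_le_mul_of_nonneg_left ?_ (Real.exp_pos _).le
  calc ∏ i, (r * Real.exp (β * w i) + (1 - r)) ≤ ∏ i, Real.exp (r * Real.exp β * w i) := by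
        refine Finset.prod_le_prod (fun i _ => ?_) fun i _ => tla_factor h0 (hw0 i) (hw1 i)
        have := mul_nonneg h0 (Real.exp_pos (β * w i)).le
        linarith
    _ = Real.exp (r * Real.exp β * ∑ i, w i) := by
        rw [← Real.exp_sum, ← Finset.mul_sum]
    _ ≤ Real.exp (r * Real.exp β * W) := by
        apply Real.exp_le_exp.2
        exact mul_le_mul_of_nonneg_left hW (mul_nonneg h0 (Real.exp_pos _).le)

end

end Pool.Agent.ACL
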