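import Pool.Agent.ACL.HvA
import Pool.Agent.ACL.TlA
import Pool.Agent.ACL.Pig
import Pool.Agent.ACL.Qry

set_option autoImplicit false

/-!
# ACL-CoreA: many pairs of inputs with close outputs, for shallow decision trees
-/

namespace Pool.Agent.ACL

open Finset

section

variable {V : Type} [Fintype V] [DecidableEq V] {n t : ℕ}

/-- few heavy variables are selected -/
private def SmF (T : Fin n → DT V) (θ : ℝ) (h : ℕ) (R x : V → Bool) : Prop :=
  ((hv T θ x).filter fun i => R i = true).card < h

open Classical in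
/-- the key -/
private noncomputable def keyF (T : Fin n → DT V) (θ : ℝ) (h : ℕ) (R x : V → Bool) : Rst V :=
  fun i => if i ∈ hv T θ x ∧ R i = true ∧ SmF T θ h R x then some (x i) else none

/-- the weights of the light variables -/
private noncomputable def wF (T : Fin n → DT V) (θ : ℝ) (x : V → Bool) (i : V) : ℝ :=
  if i ∈ hv T θ x then 0 else qn T x i / θ

private theorem mem_hv' {T : Fin n → DT V} {θ : ℝ} {x : V → Bool} {i : V} :
    i ∈ hv T θ x ↔ θ < qn T x i := by
  classical
  unfold hv
  simp

private theorem key_some {T : Fin n → DT V} {θ : ℝ} {h : ℕ} {R x : V → Bool} {i : V}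
    (hk : keyF T θ h R x i ≠ none) : keyF T θ h R x i = some (x i) := by
  unfold keyF at hk ⊢
  split_ifs at hk ⊢ with h1
  · rfl
  · exact absurd rfl hk

private theorem key_img (T : Fin n → DT V) (θ : ℝ) (h : ℕ) (R : V → Bool) {d : DecidableEq (Rst V)} :
    (@Finset.image (V → Bool) (Rst V) d (keyF T θ h R) univ).card ≤ (2 * Fintype.card V + 1) ^ h := by
  classical
  refine le_trans (Finset.card_le_card ?_) (key_card (V := V) h)
  intro ρ hρ
  obtain ⟨x, _, rfl⟩ := mem_image.1 hρ
  rw [mem_filter]
  refine ⟨mem_univ _, ?_⟩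
  by_cases hs : SmF T θ h R x
  · have hsub : sup (keyF T θ h R x) ⊆ (hv T θ x).filter fun i => R i = true := by
      intro i hi
      unfold sup at hi
      rw [mem_filter] at hi
      have h2 := hi.2
      unfold keyF at h2
      rw [mem_filter]
      split_ifs at h2 with h1
      · exact ⟨h1.1, h1.2.1⟩
      · exact absurd rfl h2
    exact (Finset.card_le_card hsub).trans (le_of_lt hs)
  · have hsub : sup (keyF T θ h R x) = ∅ := by
      unfold sup
      rw [filter_eq_empty_iff]
      intro i _
      unfold keyF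
      rw [if_neg (fun h1 => hs h1.2.2)]
      exact fun h1 => h1 rfl
    rw [hsub, card_empty]
    exact Nat.zero_le _

private theorem wF_nonneg {T : Fin n → DT V} {θ : ℝ} (hθ : 0 < θ) (x : V → Bool) (i : V) :
    0 ≤ wF T θ x i := by
  unfold wF
  split_ifs
  · exact le_rfl
  · positivity

private theorem wF_le_one {T : Fin n → DT V} {θ : ℝ} (hθ : 0 < θ) (x : V → Bool) (i : V) :
    wF T θ x i ≤ 1 := by
  unfold wF
  split_ifs with h1
  · exact zero_le_one
  · rw [mem_hv', not_lt] at h1
    rw [div_le_one hθ]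
    exact h1

private theorem wF_sum {T : Fin n → DT V} (hT : ∀ v, (T v).dp ≤ t) {θ : ℝ} (hθ : 0 < θ)
    (x : V → Bool) : ∑ i, wF T θ x i ≤ n * t / θ := by
  have h1 : ∑ i, wF T θ x i ≤ ∑ i, (qn T x i : ℝ) / θ := by
    refine Finset.sum_le_sum fun i _ => ?_
    unfold wF
    split_ifs
    · positivity
    · exact le_rfl
  refine h1.trans ?_
  rw [← Finset.sum_div]
  refine div_le_div_of_nonneg_right ?_ hθ.le
  have h2 := qn_sum T hT x
  exact_mod_cast h2

/-- pairs with the same key which are far apart -/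
private theorem far_pair {T : Fin n → DT V} {θ y : ℝ} (hθ : 0 < θ) {h : ℕ} {R x x' : V → Bool}
    (hs : SmF T θ h R x) (hk : keyF T θ h R x = keyF T θ h R (rsm R x x'))
    (hd : ¬ (ds (fun v => (T v).ev x) (fun v => (T v).ev (rsm R x x')) : ℝ) ≤ y) :
    y / θ < ∑ i, (if R i = true then wF T θ x i else 0) := by
  classical
  rw [not_le] at hd
  rw [div_lt_iff₀ hθ]
  refine hd.trans_le ?_
  have h1 := ds_le T x (rsm R x x')
  have h2 : (ds (fun v => (T v).ev x) (fun v => (T v).ev (rsm R x x')) : ℝ) ≤
      ∑ i ∈ univ.filter (fun i => x i ≠ rsm R x x' i), (qn T x i : ℝ) := by exact_mod_cast h1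
  refine h2.trans ?_
  rw [Finset.sum_mul, Finset.sum_filter]
  refine Finset.sum_le_sum fun i _ => ?_
  by_cases hi : x i ≠ rsm R x x' i
  · rw [if_pos hi]
    have hR : R i = true := by
      by_contra hR
      apply hi
      unfold rsm
      rw [if_neg hR]
    have hni : i ∉ hv T θ x := by
      intro hi1
      have h3 : keyF T θ h R x i = some (x i) := by
        unfold keyF
        rw [if_pos ⟨hi1, hR, hs⟩]
      have h4 := key_some (T := T) (θ := θ) (h := h) (R := R) (x := rsm R x x') (i := i) (by
        rw [← hk, h3]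
        exact Option.some_ne_none _)
      rw [← hk, h3] at h4
      exact hi (Option.some_injective _ h4)
    rw [if_pos hR]
    unfold wF
    rw [if_neg hni, div_mul_cancel₀ _ hθ.ne']
  · rw [if_neg hi]
    refine mul_nonneg ?_ hθ.le
    split_ifs
    · exact wF_nonneg hθ x i
    · exact le_rfl

open Classical in
theorem core_tree (T : Fin n → DT V) (hT : ∀ v, (T v).dp ≤ t) (S : (V → Bool) → Prop)
    {r θ β y : ℝ} (hr0 : 0 ≤ r) (hr1 : r ≤ 1) (hθ : 0 < θ) (hβ : 0 ≤ β) (h : ℕ) :
    (max ((Ex half fun x => if S x then (1 : ℝ) else 0) - (n * t / θ * r) ^ h) 0) ^ 2 ≤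
      ((2 * Fintype.card V + 1 : ℕ) : ℝ) ^ h *
        (Ex (bern r) fun R => Ex half fun x => Ex half fun x' =>
          if S x ∧ S (rsm R x x') ∧
            (ds (fun v => (T v).ev x) (fun v => (T v).ev (rsm R x x')) : ℝ) ≤ y then 1 else 0) +
      ((2 * Fintype.card V + 1 : ℕ) : ℝ) ^ h *
        Real.exp (-(β * y / θ) + r * Real.exp β * (n * t / θ)) := by
  have hK0 : (0 : ℝ) ≤ ((2 * Fintype.card V + 1 : ℕ) : ℝ) ^ h := by positivity
  have hb0 : ∀ b, 0 ≤ bern r b := bern_nonneg hr0 hr1
  obtain ⟨S', hS'⟩ : ∃ S' : (V → Bool) → (V → Bool) → Prop, ∀ R x, S' R x ↔ S x ∧ SmF T θ h R x :=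
    ⟨_, fun _ _ => Iff.rfl⟩
  -- step 1: for fixed `R`
  have h1 : ∀ R : V → Bool, (Ex half fun x => if S' R x then (1 : ℝ) else 0) ^ 2 ≤
      ((2 * Fintype.card V + 1 : ℕ) : ℝ) ^ h * ((Ex half fun x => Ex half fun x' =>
        if S x ∧ S (rsm R x x') ∧
          (ds (fun v => (T v).ev x) (fun v => (T v).ev (rsm R x x')) : ℝ) ≤ y then 1 else 0) +
        Ex half fun x => if y / θ < ∑ i, (if R i = true then wF T θ x i else 0) then (1 : ℝ) else 0) := by
    intro R
    have h2 := pair_lower R (S' R) (keyF T θ h R)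
      ((2 * Fintype.card V + 1) ^ h) (key_img T θ h R)
    refine h2.trans ?_
    rw [Nat.cast_pow]
    refine mul_le_mul_of_nonneg_left ?_ hK0
    rw [← Ex_add]
    refine Ex_mono half_nonneg fun x => ?_
    have h3 : (if y / θ < ∑ i, (if R i = true then wF T θ x i else 0) then (1 : ℝ) else 0) =
        Ex (V := V) half fun _ =>
          (if y / θ < ∑ i, (if R i = true then wF T θ x i else 0) then (1 : ℝ) else 0) :=
      (Ex_const half_sum _).symm
    rw [h3, ← Ex_add]
    refine Ex_mono half_nonneg fun x' => ?_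
    by_cases hc : S' R x ∧ S' R (rsm R x x') ∧ keyF T θ h R x = keyF T θ h R (rsm R x x')
    · rw [if_pos hc]
      obtain ⟨c1', c3', c5⟩ := hc
      obtain ⟨c1, c2⟩ := (hS' R x).1 c1'
      obtain ⟨c3, _⟩ := (hS' R _).1 c3'
      by_cases hd : (ds (fun v => (T v).ev x) (fun v => (T v).ev (rsm R x x')) : ℝ) ≤ y
      · rw [if_pos (show S x ∧ S (rsm R x x') ∧ _ from ⟨c1, c3, hd⟩)]
        split_ifs <;> norm_num
      · have h4 := far_pair hθ c2 c5 hd
        rw [if_pos h4]
        split_ifs <;> norm_num
    · rw [if_neg hc]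
      split_ifs <;> norm_num
  -- step 2: the lower bound
  have h5 : (Ex half fun x => if S x then (1 : ℝ) else 0) - (n * t / θ * r) ^ h ≤
      Ex (bern r) fun R => Ex half fun x => if S' R x then (1 : ℝ) else 0 := by
    have h6 : (Ex half fun x => if S x then (1 : ℝ) else 0) =
        Ex (V := V) (bern r) fun _ => Ex half fun x => if S x then (1 : ℝ) else 0 :=
      (Ex_const (bern_sum r) _).symm
    have h7 : (Ex (bern r) fun R => Ex half fun x =>
        if h ≤ ((hv T θ x).filter fun i => R i = true).card then (1 : ℝ) else 0) ≤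
        (n * t / θ * r) ^ h := by
      rw [Ex_swap]
      have h8 : (Ex half fun x => Ex (bern r) fun R =>
          if h ≤ ((hv T θ x).filter fun i => R i = true).card then (1 : ℝ) else 0) ≤
          Ex (V := V) half fun _ => (n * t / θ * r) ^ h := by
        refine Ex_mono half_nonneg fun x => ?_
        refine (heavy hr0 hr1 (hv T θ x) h).trans ?_
        exact pow_le_pow_left₀ (by positivity)
          (mul_le_mul_of_nonneg_right (hv_card T hT hθ x) hr0) h
      rwa [Ex_const half_sum] at h8
    have h9 : (Ex half fun x => if S x then (1 : ℝ) else 0) -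
        (Ex (bern r) fun R => Ex half fun x =>
          if h ≤ ((hv T θ x).filter fun i => R i = true).card then (1 : ℝ) else 0) ≤
        Ex (bern r) fun R => Ex half fun x => if S' R x then (1 : ℝ) else 0 := by
      rw [h6, ← Ex_sub]
      refine Ex_mono hb0 fun R => ?_
      rw [← Ex_sub]
      refine Ex_mono half_nonneg fun x => ?_
      by_cases hs : SmF T θ h R x
      · have hs' : ¬ h ≤ ((hv T θ x).filter fun i => R i = true).card := not_le.2 hs
        rw [if_neg hs', sub_zero]
        by_cases hS : S x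
        · rw [if_pos hS, if_pos ((hS' R x).2 ⟨hS, hs⟩)]
        · rw [if_neg hS]
          split_ifs <;> norm_num
      · have hs' : h ≤ ((hv T θ x).filter fun i => R i = true).card := not_lt.1 hs
        rw [if_pos hs', if_neg (fun h1 => hs ((hS' R x).1 h1).2)]
        split_ifs <;> norm_num
    linarith
  -- step 3: the tail
  have h10 : (Ex (bern r) fun R => Ex half fun x =>
      if y / θ < ∑ i, (if R i = true then wF T θ x i else 0) then (1 : ℝ) else 0) ≤
      Real.exp (-(β * y / θ) + r * Real.exp β * (n * t / θ)) := by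
    rw [Ex_swap]
    have h11 : (Ex half fun x => Ex (bern r) fun R =>
        if y / θ < ∑ i, (if R i = true then wF T θ x i else 0) then (1 : ℝ) else 0) ≤
        Ex (V := V) half fun _ => Real.exp (-(β * (y / θ)) + r * Real.exp β * (n * t / θ)) := by
      refine Ex_mono half_nonneg fun x => ?_
      exact tailr hr0 hr1 β (y / θ) (n * t / θ) hβ (wF T θ x) (wF_nonneg hθ x) (wF_le_one hθ x)
        (wF_sum hT hθ x)
    rw [Ex_const half_sum, ← mul_div_assoc] at h11
    exact h11
  -- assembly
  have h12 : 0 ≤ Ex (bern r) fun R => Ex half fun x => if S' R x then (1 : ℝ) else 0 :=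
    Ex_nonneg hb0 fun R => Ex_nonneg half_nonneg fun x => by split_ifs <;> norm_num
  have h13 : (max ((Ex half fun x => if S x then (1 : ℝ) else 0) - (n * t / θ * r) ^ h) 0) ^ 2 ≤
      (Ex (bern r) fun R => Ex half fun x => if S' R x then (1 : ℝ) else 0) ^ 2 :=
    pow_le_pow_left₀ (le_max_right _ _) (max_le h5 h12) 2
  refine h13.trans ((Ex_sq hb0 (bern_sum r) _).trans ((Ex_mono hb0 h1).trans ?_))
  rw [Ex_mul, Ex_add, mul_add]
  exact add_le_add le_rfl (mul_le_mul_of_nonneg_left h10 hK0)

end

end Pool.Agent.ACL
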