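import Pool.Agent.ACL.Stmt

set_option autoImplicit false

/-!
# ACL: restrictions, decision trees, disjunctive normal forms, averages (definitions)
-/

namespace Pool.Agent.ACL

open Finset

/-! ## Averages over product spaces -/

/-- mean value of `Φ` over the families `a : V → α` of independent elements with the weights `u` -/
noncomputable def Ex {V α : Type} [Fintype V] [DecidableEq V] [Fintype α] (u : α → ℝ)
    (Φ : (V → α) → ℝ) : ℝ := ∑ a : V → α, (∏ i, u (a i)) * Φ a

/-- weights of a fair bit -/
noncomputable def half : Bool → ℝ := fun _ => 1 / 2

/-- weights of a bit which is `true` with probability `r` -/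
def bern (r : ℝ) (b : Bool) : ℝ := if b then r else 1 - r

/-! ## Restrictions -/

/-- partial assignments; `none` = free variable -/
abbrev Rst (V : Type) := V → Option Bool

/-- weights of a random restriction: free with probability `p` -/
noncomputable def rw1 (p : ℝ) : Option Bool → ℝ
  | none => p
  | some _ => (1 - p) / 2

/-- the assignment `x` modified by the restriction `ρ` -/
def ap {V : Type} (ρ : Rst V) (x : V → Bool) : V → Bool := fun i => (ρ i).getD (x i)

/-- first `ρ`, then `σ` on the free variables -/
def cmp {V : Type} (ρ σ : Rst V) : Rst V := fun i => (ρ i).or (σ i)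

/-! ## Decision trees -/

/-- decision trees -/
inductive DT (V : Type)
  | leaf (b : Bool) : DT V
  | node (v : V) (l r : DT V) : DT V

/-- value; `l` is the branch for `false`, `r` the branch for `true` -/
def DT.ev {V : Type} : DT V → (V → Bool) → Bool
  | .leaf b, _ => b
  | .node v l r, x => if x v then r.ev x else l.ev x

/-- depth -/
def DT.dp {V : Type} : DT V → ℕ
  | .leaf _ => 0
  | .node _ l r => max l.dp r.dp + 1

/-- the queried variables -/
def DT.qs {V : Type} : DT V → (V → Bool) → List V
  | .leaf _, _ => []
  | .node v l r, x => v :: (if x v then r.qs x else l.qs x)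

/-- `f` is computed by a decision tree of depth at most `t` -/
def HasDT {V : Type} (t : ℕ) (f : (V → Bool) → Bool) : Prop :=
  ∃ T : DT V, T.dp ≤ t ∧ ∀ x, T.ev x = f x

/-! ## Disjunctive normal forms; a term is a partial assignment -/

/-- `x` satisfies the term `T` -/
def Sat {V : Type} (T : Rst V) (x : V → Bool) : Prop := ∀ v b, T v = some b → x v = b

/-- `x` satisfies one of the terms -/
def Dnf {V : Type} (F : List (Rst V)) (x : V → Bool) : Prop := ∃ T ∈ F, Sat T x

/-- the variables of a term -/
def sup {V : Type} [Fintype V] [DecidableEq V] (T : Rst V) : Finset V := univ.filter fun v => T v ≠ none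

/-- the restriction `ρ` makes the term false -/
def Fls {V : Type} (T ρ : Rst V) : Prop := ∃ v b, T v = some b ∧ ρ v = some (!b)

/-- the variables of the term which are free in `ρ` -/
def Kf {V : Type} [Fintype V] [DecidableEq V] (T ρ : Rst V) : Finset V :=
  univ.filter fun v => T v ≠ none ∧ ρ v = none

/-- fix the variables in `K`: those in `P` are `true` -/
def fill {V : Type} [DecidableEq V] (ρ : Rst V) (K P : Finset V) : Rst V :=
  fun v => if v ∈ K then some (decide (v ∈ P)) else ρ v

/-- free the variables in `K` -/
def star {V : Type} [DecidableEq V] (ρ : Rst V) (K : Finset V) : Rst V :=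
  fun v => if v ∈ K then none else ρ v

open Classical in
/-- the depth of the canonical decision tree of the formula `F` under the restriction `ρ` -/
noncomputable def cd {V : Type} [Fintype V] [DecidableEq V] : List (Rst V) → Rst V → ℕ
  | [], _ => 0
  | T :: F, ρ => if Fls T ρ then cd F ρ else if Kf T ρ = ∅ then 0 else
      (Kf T ρ).card + (Kf T ρ).powerset.sup fun P => cd F (fill ρ (Kf T ρ) P)

/-- closed under fixing free variables -/
def Up {V : Type} (A : Rst V → Prop) : Prop :=
  ∀ ρ ρ' : Rst V, A ρ → (∀ v b, ρ v = some b → ρ' v = some b) → A ρ'

/-! ## Heavy variables, distance -/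

/-- the number of the trees which query the variable `i` on the input `x` -/
def qn {V : Type} [DecidableEq V] {n : ℕ} (T : Fin n → DT V) (x : V → Bool) (i : V) : ℕ :=
  (univ.filter fun v => i ∈ (T v).qs x).card

open Classical in
/-- variables queried by more than `θ` trees -/
noncomputable def hv {V : Type} [Fintype V] [DecidableEq V] {n : ℕ} (T : Fin n → DT V) (θ : ℝ)
    (x : V → Bool) : Finset V := univ.filter fun i => θ < qn T x i

/-- the number of different output bits -/
def ds {n : ℕ} (a b : Fin n → Bool) : ℕ := (univ.filter fun v => a v ≠ b v).card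

/-- change the bits in `Λ` -/
def fl {V : Type} (X Λ : V → Bool) : V → Bool := fun i => xor (X i) (Λ i)

/-- resample the bits in `R` -/
def rsm {V : Type} (R x x' : V → Bool) : V → Bool := fun i => if R i then x' i else x i

end Pool.Agent.ACL
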