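import Pool.Agent.ACL.NoiD

set_option autoImplicit false

/-!
# ACL-Grf: success in terms of sequences of pairs

Stable sets and symmetric differences.
-/

namespace Pool.Agent.ACL

open Finset Pool.Agent.INS

theorem sel_inj {n M : ℕ} {z : Fin M → Pr n × Pr n} (hz : Inj2 z) (x : Fin M → Bool) :
    Function.Injective (sel z x) := by
  intro i j hij
  have h1 : ((i, x i) : Fin M × Bool) = (j, x j) := hz hij
  exact congrArg Prod.fst h1

theorem finds_ok {n M k : ℕ} (F : SimpleGraph (Fin n) → Finset (Fin n)) {ω : Om n M}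
    (hω : Function.Injective ω) (h : Finds F k (gO ω)) :
    OK (fun ω : Om n M => F (gO ω)) ((n : ℝ) / k) ω := by
  refine ⟨hω, fun i hi => ?_, h.2⟩
  obtain ⟨h1, h2⟩ := (mem_filter.1 hi).2
  exact h.1 _ h1 _ h2 (Or.inl ⟨i, rfl⟩)

theorem sd_ds {n : ℕ} (a b : Fin n → Bool) :
    sd (univ.filter fun v => a v = true) (univ.filter fun v => b v = true) = ds a b := by
  unfold sd ds
  rw [← card_union_of_disjoint]
  · congr 1
    ext v
    rw [mem_union, mem_sdiff, mem_sdiff, mem_filter, mem_filter, mem_filter]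
    cases a v <;> cases b v <;> simp
  · rw [disjoint_left]
    intro v h1 h2
    exact (mem_sdiff.1 h2).2 (mem_sdiff.1 h1).1

end Pool.Agent.ACL
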