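import Pool.Agent.ACL.Defs

set_option autoImplicit false

/-!
# ACL-ExA: elementary properties of the averages
-/

namespace Pool.Agent.ACL

open Finset

section

variable {V W α β : Type} [Fintype V] [DecidableEq V] [Fintype W] [DecidableEq W] [Fintype α]
  [Fintype β]

private theorem sum_w (u : α → ℝ) : ∑ a : V → α, ∏ i, u (a i) = (∑ a, u a) ^ Fintype.card V := by
  classical
  have h := Finset.prod_univ_sum (fun _ : V => (Finset.univ : Finset α)) (fun _ a => u a)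
  rw [Fintype.piFinset_univ] at h
  rw [← h, Finset.prod_const, Finset.card_univ]

private theorem w_nonneg {u : α → ℝ} (hu : ∀ a, 0 ≤ u a) (a : V → α) : 0 ≤ ∏ i, u (a i) :=
  Finset.prod_nonneg fun i _ => hu (a i)

theorem Ex_const {u : α → ℝ} (hu : ∑ a, u a = 1) (c : ℝ) : Ex (V := V) u (fun _ => c) = c := by
  unfold Ex
  rw [← Finset.sum_mul, sum_w, hu, one_pow, one_mul]

theorem Ex_nonneg {u : α → ℝ} (hu : ∀ a, 0 ≤ u a) {Φ : (V → α) → ℝ} (h : ∀ a, 0 ≤ Φ a) :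
    0 ≤ Ex u Φ :=
  Finset.sum_nonneg fun a _ => mul_nonneg (w_nonneg hu a) (h a)

theorem Ex_mono {u : α → ℝ} (hu : ∀ a, 0 ≤ u a) {Φ Ψ : (V → α) → ℝ} (h : ∀ a, Φ a ≤ Ψ a) :
    Ex u Φ ≤ Ex u Ψ :=
  Finset.sum_le_sum fun a _ => mul_le_mul_of_nonneg_left (h a) (w_nonneg hu a)

theorem Ex_mul (u : α → ℝ) (c : ℝ) (Φ : (V → α) → ℝ) : Ex u (fun a => c * Φ a) = c * Ex u Φ := by
  unfold Ex
  rw [Finset.mul_sum]
  exact Finset.sum_congr rfl fun a _ => by ring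

theorem Ex_add (u : α → ℝ) (Φ Ψ : (V → α) → ℝ) : Ex u (fun a => Φ a + Ψ a) = Ex u Φ + Ex u Ψ := by
  unfold Ex
  rw [← Finset.sum_add_distrib]
  exact Finset.sum_congr rfl fun a _ => by ring

theorem Ex_sub (u : α → ℝ) (Φ Ψ : (V → α) → ℝ) : Ex u (fun a => Φ a - Ψ a) = Ex u Φ - Ex u Ψ := by
  unfold Ex
  rw [← Finset.sum_sub_distrib]
  exact Finset.sum_congr rfl fun a _ => by ring

theorem Ex_sum {ι : Type*} (s : Finset ι) (u : α → ℝ) (Φ : ι → (V → α) → ℝ) :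
    Ex u (fun a => ∑ j ∈ s, Φ j a) = ∑ j ∈ s, Ex u (Φ j) := by
  unfold Ex
  rw [Finset.sum_comm]
  exact Finset.sum_congr rfl fun a _ => Finset.mul_sum _ _ _

theorem Ex_swap (u : α → ℝ) (v : β → ℝ) (Φ : (V → α) → (W → β) → ℝ) :
    Ex u (fun a => Ex v fun b => Φ a b) = Ex v fun b => Ex u fun a => Φ a b := by
  unfold Ex
  simp only [Finset.mul_sum]
  rw [Finset.sum_comm]
  exact Finset.sum_congr rfl fun b _ => Finset.sum_congr rfl fun a _ => by ring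

/-- Cauchy-Schwarz, as below -/
private theorem cs_aux {u : α → ℝ} (hu : ∀ a, 0 ≤ u a) (Φ Ψ : (V → α) → ℝ) :
    (Ex u fun a => Φ a * Ψ a) ^ 2 ≤ (Ex u fun a => Φ a ^ 2) * Ex u fun a => Ψ a ^ 2 := by
  have h := Finset.sum_mul_sq_le_sq_mul_sq (Finset.univ : Finset (V → α))
    (fun a => Real.sqrt (∏ i, u (a i)) * Φ a) (fun a => Real.sqrt (∏ i, u (a i)) * Ψ a)
  have e : ∀ a : V → α, Real.sqrt (∏ i, u (a i)) ^ 2 = ∏ i, u (a i) := fun a =>
    Real.sq_sqrt (w_nonneg hu a)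
  have e1 : ∑ a : V → α, Real.sqrt (∏ i, u (a i)) * Φ a * (Real.sqrt (∏ i, u (a i)) * Ψ a) =
      Ex u fun a => Φ a * Ψ a :=
    Finset.sum_congr rfl fun a _ => by linear_combination (Φ a * Ψ a) * e a
  have e2 : ∑ a : V → α, (Real.sqrt (∏ i, u (a i)) * Φ a) ^ 2 = Ex u fun a => Φ a ^ 2 :=
    Finset.sum_congr rfl fun a _ => by linear_combination (Φ a ^ 2) * e a
  have e3 : ∑ a : V → α, (Real.sqrt (∏ i, u (a i)) * Ψ a) ^ 2 = Ex u fun a => Ψ a ^ 2 :=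
    Finset.sum_congr rfl fun a _ => by linear_combination (Ψ a ^ 2) * e a
  rw [e1, e2, e3] at h
  exact h

/-- Jensen -/
theorem Ex_sq {u : α → ℝ} (hu : ∀ a, 0 ≤ u a) (h1 : ∑ a, u a = 1) (Φ : (V → α) → ℝ) :
    (Ex u Φ) ^ 2 ≤ Ex u fun a => Φ a ^ 2 := by
  have h := cs_aux hu Φ (fun _ => 1)
  simp only [mul_one, one_pow] at h
  rw [Ex_const h1, mul_one] at h
  exact h

/-- Cauchy-Schwarz -/
theorem Ex_cs {u : α → ℝ} (hu : ∀ a, 0 ≤ u a) (Φ Ψ : (V → α) → ℝ) :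
    (Ex u fun a => Φ a * Ψ a) ^ 2 ≤ (Ex u fun a => Φ a ^ 2) * Ex u fun a => Ψ a ^ 2 :=
  cs_aux hu Φ Ψ

end

theorem half_nonneg (b : Bool) : 0 ≤ half b := by
  unfold half
  norm_num

theorem half_sum : ∑ b, half b = 1 := by
  rw [Fintype.sum_bool]
  unfold half
  norm_num

theorem bern_nonneg {r : ℝ} (h0 : 0 ≤ r) (h1 : r ≤ 1) (b : Bool) : 0 ≤ bern r b := by
  cases b
  · change 0 ≤ (if (false : Bool) = true then r else 1 - r)
    simp [h1]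
  · change 0 ≤ (if (true : Bool) = true then r else 1 - r)
    simp [h0]

theorem bern_sum (r : ℝ) : ∑ b, bern r b = 1 := by
  rw [Fintype.sum_bool]
  unfold bern
  simp

theorem rw1_nonneg {p : ℝ} (h0 : 0 ≤ p) (h1 : p ≤ 1) (b : Option Bool) : 0 ≤ rw1 p b := by
  cases b with
  | none => exact h0
  | some b =>
    change 0 ≤ (1 - p) / 2
    linarith

theorem rw1_sum (p : ℝ) : ∑ b, rw1 p b = 1 := by
  rw [Fintype.sum_option, Fintype.sum_bool]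
  change p + ((1 - p) / 2 + (1 - p) / 2) = 1
  ring

end Pool.Agent.ACL
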