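import Pool.Agent.ACL.NoiD
import Pool.Agent.ACL.ExA

set_option autoImplicit false

/-!
# ACL-InjC: the samples are different with constant probability
-/

namespace Pool.Agent.ACL

open Finset Pool.Agent.INS

private theorem one_sub_ge {y : ℝ} (h0 : 0 ≤ y) (h1 : y ≤ 1 / 2) : Real.exp (-(2 * y)) ≤ 1 - y := by
  have h2 : 1 + 2 * y ≤ Real.exp (2 * y) := by linarith [Real.add_one_le_exp (2 * y)]
  have h3 : Real.exp (-(2 * y)) * Real.exp (2 * y) = 1 := by
    rw [← Real.exp_add, neg_add_cancel, Real.exp_zero]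
  have h4 : 1 ≤ (1 - y) * Real.exp (2 * y) := by
    have h5 : (1 - y) * (1 + 2 * y) ≤ (1 - y) * Real.exp (2 * y) :=
      mul_le_mul_of_nonneg_left h2 (by linarith)
    nlinarith
  exact le_of_mul_le_mul_right (h3.le.trans h4) (Real.exp_pos _)

private def e2 (n M : ℕ) : (Fin M → Pr n × Pr n) ≃ (Fin M × Bool → Pr n) where
  toFun z := fun p => if p.2 then (z p.1).2 else (z p.1).1
  invFun w := fun i => (w (i, false), w (i, true))
  left_inv z := by
    funext i
    simp
  right_inv w := by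
    funext ⟨i, b⟩
    cases b <;> simp

open Classical in
private theorem card_inj2 (n M : ℕ) :
    (univ.filter fun z : Fin M → Pr n × Pr n => Inj2 z).card = (NN n).descFactorial (2 * M) := by
  have h1 : Fintype.card {z : Fin M → Pr n × Pr n // Inj2 z} =
      Fintype.card {w : Fin M × Bool → Pr n // Function.Injective w} :=
    Fintype.card_congr ((e2 n M).subtypeEquiv fun z => Iff.rfl)
  rw [Fintype.card_congr (Equiv.subtypeInjectiveEquivEmbedding _ _), Fintype.card_embedding_eq] at h1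
  rw [← Fintype.card_subtype, h1, Fintype.card_prod, Fintype.card_fin, Fintype.card_bool, mul_comm]

open Classical in
theorem inj2_lower {n M : ℕ} (h : 4 * M ≤ NN n) (h0 : 0 < NN n) :
    Real.exp (-(8 * (M : ℝ) ^ 2 / NN n)) ≤
      Ex (uni (Pr n × Pr n)) fun z : Fin M → Pr n × Pr n => if Inj2 z then 1 else 0 := by
  have hN : (0 : ℝ) < (NN n : ℝ) := by exact_mod_cast h0
  have h4 : 4 * (M : ℝ) ≤ (NN n : ℝ) := by exact_mod_cast h
  have e1 : Ex (uni (Pr n × Pr n)) (fun z : Fin M → Pr n × Pr n => if Inj2 z then 1 else 0) =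
      (1 / ((NN n : ℝ) * NN n)) ^ M * ((NN n).descFactorial (2 * M) : ℕ) := by
    unfold Ex uni
    rw [← card_inj2]
    simp only [mul_ite, mul_one, mul_zero]
    rw [← Finset.sum_filter, Finset.sum_const, nsmul_eq_mul, Finset.prod_const, Finset.card_univ,
      Fintype.card_fin, Fintype.card_prod]
    push_cast
    ring
  rw [e1]
  have h5 : ((NN n : ℝ) - 2 * M) ^ (2 * M) ≤ ((NN n).descFactorial (2 * M) : ℕ) := by
    have h6 := Nat.pow_sub_le_descFactorial (NN n) (2 * M)
    have h7 : (((NN n + 1 - 2 * M) ^ (2 * M) : ℕ) : ℝ) ≤ ((NN n).descFactorial (2 * M) : ℕ) := by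
      exact_mod_cast h6
    refine le_trans ?_ h7
    rw [Nat.cast_pow, Nat.cast_sub (by omega)]
    push_cast
    refine pow_le_pow_left₀ (by linarith) (by linarith) _
  have h6 : (1 / ((NN n : ℝ) * NN n)) ^ M * ((NN n : ℝ) - 2 * M) ^ (2 * M) =
      (1 - 2 * M / NN n) ^ (2 * M) := by
    rw [pow_mul, pow_mul, ← mul_pow]
    congr 1
    field_simp
  have h7 : Real.exp (-(8 * (M : ℝ) ^ 2 / NN n)) ≤ (1 - 2 * M / NN n) ^ (2 * M) := by
    have h8 : Real.exp (-(2 * (2 * M / NN n))) ≤ 1 - 2 * M / NN n := by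
      refine one_sub_ge (by positivity) ?_
      rw [div_le_iff₀ hN]
      linarith
    have h9 := pow_le_pow_left₀ (Real.exp_pos _).le h8 (2 * M)
    rw [← Real.exp_nat_mul] at h9
    refine le_trans (le_of_eq ?_) h9
    congr 1
    push_cast
    ring
  calc Real.exp (-(8 * (M : ℝ) ^ 2 / NN n)) ≤ (1 - 2 * M / NN n) ^ (2 * M) := h7
    _ = (1 / ((NN n : ℝ) * NN n)) ^ M * ((NN n : ℝ) - 2 * M) ^ (2 * M) := h6.symm
    _ ≤ _ := mul_le_mul_of_nonneg_left h5 (by positivity)

end Pool.Agent.ACL
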