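import Pool.Agent.ACL.Defs

set_option autoImplicit false

/-!
# ACL-DtA: elementary properties of decision trees
-/

namespace Pool.Agent.ACL

section

variable {V : Type}

theorem hasDT_mono {t t' : ℕ} (h : t ≤ t') {f : (V → Bool) → Bool} (hf : HasDT t f) : HasDT t' f := by
  obtain ⟨T, h1, h2⟩ := hf
  exact ⟨T, h1.trans h, h2⟩

theorem hasDT_const (b : Bool) : HasDT 0 (fun _ : V → Bool => b) :=
  ⟨DT.leaf b, le_rfl, fun _ => rfl⟩

theorem hasDT_lit (v : V) (b : Bool) : HasDT 1 (fun x : V → Bool => x v == b) := by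
  refine ⟨DT.node v (DT.leaf (false == b)) (DT.leaf (true == b)), le_rfl, fun x => ?_⟩
  show (if x v then (true == b) else (false == b)) = (x v == b)
  cases x v <;> rfl

/-- negation of the leaves -/
private def ng : DT V → DT V
  | .leaf b => .leaf (!b)
  | .node v l r => .node v (ng l) (ng r)

private theorem ng_dp (T : DT V) : (ng T).dp = T.dp := by
  induction T with
  | leaf b => rfl
  | node v l r hl hr =>
    show max (ng l).dp (ng r).dp + 1 = max l.dp r.dp + 1
    rw [hl, hr]

private theorem ng_ev (T : DT V) (x : V → Bool) : (ng T).ev x = !(T.ev x) := by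
  induction T with
  | leaf b => rfl
  | node v l r hl hr =>
    show (if x v then (ng r).ev x else (ng l).ev x) = !(if x v then r.ev x else l.ev x)
    cases x v
    · simpa using hl
    · simpa using hr

theorem hasDT_not {t : ℕ} {f : (V → Bool) → Bool} (hf : HasDT t f) : HasDT t (fun x => !(f x)) := by
  obtain ⟨T, h1, h2⟩ := hf
  refine ⟨ng T, by rw [ng_dp]; exact h1, fun x => ?_⟩
  rw [ng_ev, h2]

/-- restriction of a tree -/
private def rs (ρ : Rst V) : DT V → DT V
  | .leaf b => .leaf b
  | .node v l r =>
    match ρ v with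
    | none => .node v (rs ρ l) (rs ρ r)
    | some true => rs ρ r
    | some false => rs ρ l

private theorem rs_dp (ρ : Rst V) (T : DT V) : (rs ρ T).dp ≤ T.dp := by
  induction T with
  | leaf b => exact le_rfl
  | node v l r hl hr =>
    have h0 : (DT.node v l r).dp = max l.dp r.dp + 1 := rfl
    rw [h0]
    unfold rs
    split
    · have h1 : (DT.node v (rs ρ l) (rs ρ r)).dp = max (rs ρ l).dp (rs ρ r).dp + 1 := rfl
      rw [h1]
      omega
    · omega
    · omega

private theorem rs_ev (ρ : Rst V) (T : DT V) (x : V → Bool) : (rs ρ T).ev x = T.ev (ap ρ x) := by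
  induction T with
  | leaf b => rfl
  | node v l r hl hr =>
    have h0 : (DT.node v l r).ev (ap ρ x) =
        if ap ρ x v then r.ev (ap ρ x) else l.ev (ap ρ x) := rfl
    rw [h0]
    have h2 : ap ρ x v = (ρ v).getD (x v) := rfl
    unfold rs
    split
    · rename_i h
      have h1 : (DT.node v (rs ρ l) (rs ρ r)).ev x = if x v then (rs ρ r).ev x else (rs ρ l).ev x := rfl
      rw [h1, h2, h, hl, hr]
      rfl
    · rename_i h
      rw [h2, h, hr]
      rfl
    · rename_i h
      rw [h2, h, hl]
      rfl

theorem hasDT_ap {t : ℕ} {f : (V → Bool) → Bool} (hf : HasDT t f) (ρ : Rst V) :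
    HasDT t (fun x => f (ap ρ x)) := by
  obtain ⟨T, h1, h2⟩ := hf
  exact ⟨rs ρ T, (rs_dp ρ T).trans h1, fun x => by rw [rs_ev, h2]⟩

theorem qs_length (T : DT V) (x : V → Bool) : (T.qs x).length ≤ T.dp := by
  induction T with
  | leaf b => exact le_rfl
  | node v l r hl hr =>
    have h0 : (DT.node v l r).dp = max l.dp r.dp + 1 := rfl
    have h1 : (DT.node v l r).qs x = v :: (if x v then r.qs x else l.qs x) := rfl
    rw [h0, h1, List.length_cons]
    split_ifs
    · omega
    · omega

theorem qs_agree (T : DT V) (x x' : V → Bool) (h : ∀ i ∈ T.qs x, x i = x' i) : T.ev x = T.ev x' := by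
  induction T with
  | leaf b => rfl
  | node v l r hl hr =>
    have h1 : (DT.node v l r).qs x = v :: (if x v then r.qs x else l.qs x) := rfl
    rw [h1] at h
    have h2 : x v = x' v := h v List.mem_cons_self
    show (if x v then r.ev x else l.ev x) = if x' v then r.ev x' else l.ev x'
    rw [← h2]
    by_cases hv : x v = true
    · rw [if_pos hv, if_pos hv]
      refine hr fun i hi => h i (List.mem_cons_of_mem _ ?_)
      rw [if_pos hv]
      exact hi
    · rw [if_neg hv, if_neg hv]
      refine hl fun i hi => h i (List.mem_cons_of_mem _ ?_)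
      rw [if_neg hv]
      exact hi

theorem ap_cmp (ρ σ : Rst V) (x : V → Bool) : ap (cmp ρ σ) x = ap ρ (ap σ x) := by
  funext i
  show ((ρ i).or (σ i)).getD (x i) = (ρ i).getD ((σ i).getD (x i))
  cases ρ i <;> rfl

end

end Pool.Agent.ACL
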