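import Pool.Agent.ACL.NoiD
import Pool.Agent.ACL.DtA

set_option autoImplicit false

/-!
# ACL-InpA: the adjacency matrix as a function of the bits

The value is a constant or a literal.
-/

namespace Pool.Agent.ACL

open Finset Pool.Agent.INS

theorem adj_dt {n M : ℕ} {z : Fin M → Pr n × Pr n} (hz : Inj2 z) (e : Fin n × Fin n) :
    HasDT 1 (fun x => adj (gO (sel z x)) e) := by
  classical
  obtain ⟨u, v⟩ := e
  obtain ⟨zz, hzz⟩ : ∃ zz : Fin M × Bool → Pr n, zz = fun p => if p.2 then (z p.1).2 else (z p.1).1 :=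
    ⟨_, rfl⟩
  have hinj : Function.Injective zz := by
    rw [hzz]
    exact hz
  have hsel : ∀ (x : Fin M → Bool) (i : Fin M), sel z x i = zz (i, x i) := by
    intro x i
    rw [hzz]
    rfl
  have hadj : ∀ x : Fin M → Bool, adj (gO (sel z x)) (u, v) = true ↔
      ∃ i, (zz (i, x i)).1 = (u, v) ∨ (zz (i, x i)).1 = (v, u) := by
    intro x
    unfold adj
    rw [decide_eq_true_iff]
    show ((∃ i, (sel z x i).1 = (u, v)) ∨ ∃ i, (sel z x i).1 = (v, u)) ↔ _
    simp only [hsel]
    rw [exists_or]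
  by_cases hex : ∃ p : Fin M × Bool, (zz p).1 = (u, v) ∨ (zz p).1 = (v, u)
  · obtain ⟨⟨i₀, b₀⟩, h0⟩ := hex
    have huniq : ∀ p : Fin M × Bool, ((zz p).1 = (u, v) ∨ (zz p).1 = (v, u)) → p = (i₀, b₀) := by
      intro p hp
      apply hinj
      apply Subtype.ext
      have h1 := (zz p).2
      have h2 := (zz (i₀, b₀)).2
      rcases hp with hp | hp <;> rcases h0 with h0 | h0 <;> rw [hp] at h1 <;> rw [h0] at h2
      · rw [hp, h0]
      · exact absurd h1 (lt_asymm h2)
      · exact absurd h1 (lt_asymm h2)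
      · rw [hp, h0]
    have hf : (fun x => adj (gO (sel z x)) (u, v)) = fun x : Fin M → Bool => x i₀ == b₀ := by
      funext x
      rw [Bool.eq_iff_iff, hadj, beq_iff_eq]
      constructor
      · rintro ⟨i, hi⟩
        have h1 := huniq _ hi
        rw [Prod.mk.injEq] at h1
        rw [← h1.1]
        exact h1.2
      · intro h1
        refine ⟨i₀, ?_⟩
        rw [h1]
        exact h0
    rw [hf]
    exact hasDT_lit i₀ b₀
  · have hf : (fun x => adj (gO (sel z x)) (u, v)) = fun _ : Fin M → Bool => false := by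
      funext x
      rw [Bool.eq_false_iff]
      intro h1
      obtain ⟨i, hi⟩ := (hadj x).1 h1
      exact hex ⟨_, hi⟩
    rw [hf]
    exact hasDT_mono (Nat.zero_le 1) (hasDT_const false)

end Pool.Agent.ACL
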