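import Pool.Agent.ACL.NoiA

set_option autoImplicit false

/-!
# ACL-NoiB: independent changes

The sets of changed samples are sorted by their number of elements; the bound for the moves gives an
exponential series.
-/

namespace Pool.Agent.ACL

open Finset Pool.Agent.INS

private theorem nb_w {V α : Type} [Fintype V] [DecidableEq V] [Fintype α] (u : α → ℝ) :
    ∑ a : V → α, ∏ i, u (a i) = (∑ a, u a) ^ Fintype.card V := by
  classical
  have h := Finset.prod_univ_sum (fun _ : V => (Finset.univ : Finset α)) (fun _ a => u a)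
  rw [Fintype.piFinset_univ] at h
  rw [← h, Finset.prod_const, Finset.card_univ]

private theorem nb_one {V α : Type} [Fintype V] [DecidableEq V] [Fintype α] (Φ : (V → α) → ℝ)
    (h : ∀ a, Φ a ≤ 1) : Ex (uni α) Φ ≤ 1 := by
  have hu : ∀ a : α, 0 ≤ uni α a := fun a => by
    unfold uni
    positivity
  have h1 : Ex (uni α) Φ ≤ Ex (V := V) (uni α) (fun _ => 1) := Ex_mono hu h
  have h2 : Ex (V := V) (uni α) (fun _ => 1) = (∑ a, uni α a) ^ Fintype.card V := by
    unfold Ex
    simp only [mul_one]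
    exact nb_w _
  have h3 : ∑ a, uni α a ≤ 1 := by
    unfold uni
    rw [Finset.sum_const, Finset.card_univ, nsmul_eq_mul]
    by_cases h4 : (Fintype.card α : ℝ) = 0
    · rw [h4, zero_mul]
      exact zero_le_one
    · rw [mul_one_div_cancel h4]
  rw [h2] at h1
  exact h1.trans (pow_le_one₀ (Finset.sum_nonneg fun a _ => hu a) h3)

private theorem nb_bern {M : ℕ} (η : ℝ) (Λ : Fin M → Bool) : ∏ i, bern η (Λ i) =
    η ^ (univ.filter fun i => Λ i = true).card *
      (1 - η) ^ (M - (univ.filter fun i => Λ i = true).card) := by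
  unfold bern
  rw [Finset.prod_ite, Finset.prod_const, Finset.prod_const, Finset.filter_not,
    Finset.card_sdiff_of_subset (Finset.filter_subset _ _), Finset.card_univ, Fintype.card_fin]

private theorem nb_term {M d : ℕ} {c η S : ℝ} (hη0 : 0 ≤ η) (hη1 : η ≤ 1) (hd : d ≤ M)
    (hS : S ≤ Real.exp (-(c * d)) * ((M : ℝ) ^ d / d.factorial)) :
    η ^ d * (1 - η) ^ (M - d) * S ≤
      Real.exp (-(η * M)) * ((η * M * Real.exp (η - c)) ^ d / d.factorial) := by
  have h0 : 0 ≤ 1 - η := by linarith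
  have h1 : 1 - η ≤ Real.exp (-η) := by
    have := Real.add_one_le_exp (-η)
    linarith
  have h2 : (1 - η) ^ (M - d) ≤ Real.exp (-(η * (M - d))) := by
    have h3 := pow_le_pow_left₀ h0 h1 (M - d)
    rw [← Real.exp_nat_mul, Nat.cast_sub hd] at h3
    refine h3.trans (le_of_eq ?_)
    congr 1
    ring
  have h3 : 0 ≤ Real.exp (-(c * d)) * ((M : ℝ) ^ d / d.factorial) := by positivity
  have h4 : η ^ d * (1 - η) ^ (M - d) * S ≤
      η ^ d * (1 - η) ^ (M - d) * (Real.exp (-(c * d)) * ((M : ℝ) ^ d / d.factorial)) :=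
    mul_le_mul_of_nonneg_left hS (mul_nonneg (pow_nonneg hη0 _) (pow_nonneg h0 _))
  have h5 : η ^ d * (1 - η) ^ (M - d) * (Real.exp (-(c * d)) * ((M : ℝ) ^ d / d.factorial)) ≤
      η ^ d * Real.exp (-(η * (M - d))) * (Real.exp (-(c * d)) * ((M : ℝ) ^ d / d.factorial)) :=
    mul_le_mul_of_nonneg_right (mul_le_mul_of_nonneg_left h2 (pow_nonneg hη0 _)) h3
  refine h4.trans (h5.trans (le_of_eq ?_))
  have h6 : Real.exp (-(η * (M - d))) * Real.exp (-(c * d)) =
      Real.exp (-(η * M)) * Real.exp (η - c) ^ d := by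
    rw [← Real.exp_add, ← Real.exp_nat_mul, ← Real.exp_add]
    congr 1
    ring
  calc η ^ d * Real.exp (-(η * (M - d))) * (Real.exp (-(c * d)) * ((M : ℝ) ^ d / d.factorial)) =
      Real.exp (-(η * (M - d))) * Real.exp (-(c * d)) * (η ^ d * ((M : ℝ) ^ d / d.factorial)) := by
        ring
    _ = Real.exp (-(η * M)) * ((η * M * Real.exp (η - c)) ^ d / d.factorial) := by
        rw [h6, mul_pow, mul_pow]
        ring

open Classical in
theorem noise {n M : ℕ} (Φ : Om n M → Finset (Fin n)) (x y c η : ℝ) (hη0 : 0 ≤ η) (hη1 : η ≤ 1)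
    (h : ∀ d : ℕ, 1 ≤ d → d ≤ M →
      ∑ Λ ∈ (univ : Finset (Fin M → Bool)).filter
        (fun Λ => (univ.filter fun i => Λ i = true).card = d), qq Φ x y Λ ≤
      Real.exp (-(c * d)) * ((M : ℝ) ^ d / d.factorial)) :
    (Ex (uni (Pr n)) fun ω => Ex (bern η) fun Λ => Ex (uni (Pr n)) fun v =>
      if Gd Φ x y ω (mix Λ ω v) then 1 else 0) ≤
      Real.exp (-(η * M * (1 - Real.exp (η - c)))) := by
  have e1 : (Ex (uni (Pr n)) fun ω => Ex (bern η) fun Λ => Ex (uni (Pr n)) fun v =>
      if Gd Φ x y ω (mix Λ ω v) then 1 else 0) = Ex (bern η) (fun Λ => qq Φ x y Λ) :=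
    Ex_swap _ _ _
  have hq : ∀ Λ : Fin M → Bool, qq Φ x y Λ ≤ 1 := by
    intro Λ
    unfold qq
    refine nb_one _ fun ω => nb_one _ fun v => ?_
    split_ifs
    · exact le_refl _
    · exact zero_le_one
  have e2 : Ex (bern η) (fun Λ : Fin M → Bool => qq Φ x y Λ) = ∑ d ∈ range (M + 1),
      ∑ Λ ∈ (univ : Finset (Fin M → Bool)).filter
        (fun Λ => (univ.filter fun i => Λ i = true).card = d),
        (∏ i, bern η (Λ i)) * qq Φ x y Λ := by
    unfold Ex
    symm
    apply Finset.sum_fiberwise_of_maps_to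
    intro Λ _
    rw [mem_range]
    have h1 := Finset.card_le_univ (univ.filter fun i => Λ i = true)
    rw [Fintype.card_fin] at h1
    omega
  have h0 : ∑ Λ ∈ (univ : Finset (Fin M → Bool)).filter
      (fun Λ => (univ.filter fun i => Λ i = true).card = 0), qq Φ x y Λ ≤ 1 := by
    have h1 : (univ : Finset (Fin M → Bool)).filter
        (fun Λ => (univ.filter fun i => Λ i = true).card = 0) ⊆ {fun _ => false} := by
      intro Λ hΛ
      rw [mem_filter, Finset.card_eq_zero, Finset.filter_eq_empty_iff] at hΛ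
      rw [mem_singleton]
      funext i
      have h2 := hΛ.2 (mem_univ i)
      simpa using h2
    rcases Finset.subset_singleton_iff.1 h1 with h2 | h2
    · rw [h2, Finset.sum_empty]
      exact zero_le_one
    · rw [h2, Finset.sum_singleton]
      exact hq _
  have e3 : ∀ d ∈ range (M + 1), ∑ Λ ∈ (univ : Finset (Fin M → Bool)).filter
      (fun Λ => (univ.filter fun i => Λ i = true).card = d), (∏ i, bern η (Λ i)) * qq Φ x y Λ ≤
      Real.exp (-(η * M)) * ((η * M * Real.exp (η - c)) ^ d / d.factorial) := by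
    intro d hd
    rw [mem_range] at hd
    have hd' : d ≤ M := by omega
    have h1 : ∑ Λ ∈ (univ : Finset (Fin M → Bool)).filter
        (fun Λ => (univ.filter fun i => Λ i = true).card = d), (∏ i, bern η (Λ i)) * qq Φ x y Λ =
        η ^ d * (1 - η) ^ (M - d) * ∑ Λ ∈ (univ : Finset (Fin M → Bool)).filter
          (fun Λ => (univ.filter fun i => Λ i = true).card = d), qq Φ x y Λ := by
      rw [Finset.mul_sum]
      refine Finset.sum_congr rfl fun Λ hΛ => ?_
      rw [mem_filter] at hΛ
      rw [nb_bern, hΛ.2]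
    rw [h1]
    apply nb_term hη0 hη1 hd'
    rcases Nat.eq_zero_or_pos d with h2 | h2
    · subst h2
      refine h0.trans (le_of_eq ?_)
      simp
    · exact h d h2 hd'
  rw [e1, e2]
  refine (Finset.sum_le_sum e3).trans ?_
  rw [← Finset.mul_sum]
  have hx : 0 ≤ η * M * Real.exp (η - c) := by positivity
  have h1 := Real.sum_le_exp_of_nonneg hx (M + 1)
  refine (mul_le_mul_of_nonneg_left h1 (Real.exp_pos _).le).trans (le_of_eq ?_)
  rw [← Real.exp_add]
  congr 1
  ring

end Pool.Agent.ACL
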