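import Pool.Agent.INS.Pin
import Pool.Agent.INS.Nums

set_option autoImplicit false

/-!
# ACL-NumX: the choice of the parameters
-/

namespace Pool.Agent.ACL

open Pool.Agent.INS Filter

private theorem numX_ev {κ γ c A a C : ℝ} {k : ℕ} (hγ : 0 < γ) (hc : 0 < c) (hA : 0 < A)
    (ha : 0 < a) (hk : 0 < k) :
    ∀ᶠ n : ℕ in atTop, 8 * κ + 1 ≤ (n : ℝ) ∧ 10 ≤ (n : ℝ) ∧ 4 ≤ (n : ℝ) ^ (γ / 2) ∧
      1 ≤ A * (n : ℝ) ^ (γ / 2) ∧ (k : ℝ) ^ 2 ≤ A * (n : ℝ) ^ (γ / 2) * c ∧
      2 * Real.log n + C ≤ a * (n : ℝ) ^ (γ / 2) := by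
  have hx : Tendsto (fun n : ℕ => (n : ℝ) ^ (γ / 2)) atTop atTop :=
    (tendsto_rpow_atTop (by positivity)).comp tendsto_natCast_atTop_atTop
  have hn : Tendsto (fun n : ℕ => (n : ℝ)) atTop atTop := tendsto_natCast_atTop_atTop
  have hlog : ∀ᶠ n : ℕ in atTop, ‖Real.log (n : ℝ)‖ ≤ a / 4 * ‖(n : ℝ) ^ (γ / 2)‖ := by
    have h1 := (isLittleO_log_rpow_atTop (r := γ / 2) (by positivity)).def
      (c := a / 4) (by positivity)
    exact hn.eventually h1
  have hAx : ∀ b : ℝ, ∀ᶠ n : ℕ in atTop, b ≤ (n : ℝ) ^ (γ / 2) := fun b =>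
    hx.eventually_ge_atTop b
  filter_upwards [hn.eventually_ge_atTop (8 * κ + 1), hn.eventually_ge_atTop 10, hAx 4,
    hAx (1 / A), hAx ((k : ℝ) ^ 2 / (A * c)), hAx (2 * C / a), hlog] with n h1 h2 h3 h4 h5 h6 h7
  have hx0 : 0 ≤ (n : ℝ) ^ (γ / 2) := by positivity
  refine ⟨h1, h2, h3, ?_, ?_, ?_⟩
  · rw [div_le_iff₀ hA] at h4
    linarith
  · rw [div_le_iff₀ (by positivity)] at h5
    linarith
  · rw [Real.norm_eq_abs, Real.norm_eq_abs, abs_of_nonneg hx0] at h7
    have h8 := (le_abs_self _).trans h7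
    rw [div_le_iff₀ ha] at h6
    linarith

theorem numX {ε γ c : ℝ} {k : ℕ} (hε : 0 < ε) (hγ : 0 < γ) (hc : 0 < c) (hk : 3 ≤ k) :
    ∃ n₀ : ℕ, ∀ n : ℕ, n₀ ≤ n → 4 * INS.Mk ε k n ≤ NN n ∧ 0 < NN n ∧
    ∀ D t : ℕ, 1 ≤ t → (16 * (t : ℝ)) ^ (D + 3) ≤ (n : ℝ) ^ (1 - γ) →
    ∃ r θ β : ℝ, 0 ≤ r ∧ r ≤ 1 ∧ 0 < θ ∧ 0 ≤ β ∧
      ((n : ℝ) * t / θ * r) ^ t ≤ (1 / 2) ^ t / 2 ∧
      ((2 * INS.Mk ε k n + 1 : ℕ) : ℝ) ^ t *
          Real.exp (8 * (INS.Mk ε k n : ℝ) ^ 2 / NN n -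
            (1 / (16 * (t : ℝ))) ^ D * r / 2 * INS.Mk ε k n *
              (1 - Real.exp ((1 / (16 * (t : ℝ))) ^ D * r / 2 - c / k ^ 2))) +
        ((2 * INS.Mk ε k n + 1 : ℕ) : ℝ) ^ t *
          Real.exp (-(β * (c * ((n : ℝ) / k)) / θ) + r * Real.exp β * (n * t / θ)) ≤
      ((1 / 2) ^ t / 2) ^ 2 := by
  have hk0 : (0 : ℝ) < k := by positivity
  have hk3 : (3 : ℝ) ≤ k := by exact_mod_cast hk
  obtain ⟨κ, hκ⟩ : ∃ κ : ℝ, κ = (1 / 2 + ε) * k * Real.log k := ⟨_, rfl⟩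
  have hlogk : 1 < Real.log k := by
    rw [Real.lt_log_iff_exp_lt hk0]
    exact lt_of_lt_of_le Real.exp_one_lt_three hk3
  have hκ1 : 3 / 2 ≤ κ := by
    rw [hκ]
    have h1 : (3 / 2 : ℝ) ≤ (1 / 2 + ε) * k := by nlinarith
    nlinarith
  obtain ⟨A, hA⟩ : ∃ A : ℝ, A = 8 * k / (γ * c) := ⟨_, rfl⟩
  have hA0 : 0 < A := by rw [hA]; positivity
  obtain ⟨c', hc'⟩ : ∃ c' : ℝ, c' = 1 - Real.exp (-(c / (2 * k ^ 2))) := ⟨_, rfl⟩
  have hc'0 : 0 < c' := by
    rw [hc', sub_pos, Real.exp_lt_one_iff]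
    have : 0 < c / (2 * (k : ℝ) ^ 2) := by positivity
    linarith
  have hev := numX_ev (κ := κ) (γ := γ) (c := c) (A := A) (a := 2048 * c' / A)
    (C := 32 * κ ^ 2 + Real.log 4 + Real.log 8) (k := k) hγ hc hA0 (by positivity) (by omega)
  obtain ⟨n₀, h₀⟩ := eventually_atTop.1 hev
  refine ⟨n₀, fun n hn => ?_⟩
  obtain ⟨e1, e2, e3, e4, e5, e6⟩ := h₀ n hn
  have hn0 : (0 : ℝ) < n := by linarith
  obtain ⟨x, hx⟩ : ∃ x : ℝ, x = (n : ℝ) ^ (γ / 2) := ⟨_, rfl⟩
  rw [← hx] at e3 e4 e5 e6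
  have hx0 : 0 < x := by linarith
  obtain ⟨M, hM⟩ : ∃ M : ℕ, M = INS.Mk ε k n := ⟨_, rfl⟩
  have hMdef : M = ⌊κ * n⌋₊ := by rw [hM, hκ]; rfl
  have hM1 : (M : ℝ) ≤ κ * n := by
    rw [hMdef]
    exact Nat.floor_le (by positivity)
  have hM2 : (n : ℝ) ≤ M := by
    have h1 := Nat.lt_floor_add_one (κ * n)
    rw [← hMdef] at h1
    nlinarith
  obtain ⟨N, hN⟩ : ∃ N : ℕ, N = NN n := ⟨_, rfl⟩
  have hN1 : (N : ℝ) = n * (n - 1) / 2 := by
    rw [hN, INS.NN_eq, Nat.cast_choose_two]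
  rw [← hM, ← hN]
  have hN2 : (n : ℝ) ^ 2 / 4 ≤ N := by rw [hN1]; nlinarith
  have hN0 : (0 : ℝ) < N := lt_of_lt_of_le (by positivity) hN2
  have h4M : 4 * (M : ℝ) ≤ N := by
    rw [hN1]
    nlinarith
  refine ⟨by exact_mod_cast h4M, by exact_mod_cast hN0, fun D t ht hT => ?_⟩
  have ht1 : (1 : ℝ) ≤ t := by exact_mod_cast ht
  have ht0 : (0 : ℝ) < t := by linarith
  have hr0 : 0 < A * t ^ 2 * x := by positivity
  obtain ⟨r, hr⟩ : ∃ r : ℝ, r = 1 / (A * t ^ 2 * x) := ⟨_, rfl⟩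
  have hr1 : 0 < r := by rw [hr]; positivity
  have hrx : r ≤ 1 / (A * x) := by
    rw [hr]
    apply one_div_le_one_div_of_le (by positivity)
    have : (1 : ℝ) ≤ (t : ℝ) ^ 2 := one_le_pow₀ ht1
    have hAx : 0 < A * x := by positivity
    nlinarith
  have hr2 : r ≤ 1 := by
    refine hrx.trans ?_
    rw [div_le_one (by positivity)]
    exact e4
  -- the number of the paths
  have hMn : ((2 * M + 1 : ℕ) : ℝ) ≤ (n : ℝ) ^ 2 := by
    push_cast
    nlinarith
  have hlogn : 0 ≤ Real.log n := Real.log_nonneg (by linarith)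
  have hMt : ((2 * M + 1 : ℕ) : ℝ) ^ t ≤ Real.exp (2 * t * Real.log n) := by
    have h1 : Real.exp (2 * t * Real.log n) = ((n : ℝ) ^ 2) ^ t := by
      have h2 : 2 * (t : ℝ) * Real.log n = ((2 * t : ℕ) : ℝ) * Real.log n := by push_cast; ring
      rw [h2, Real.exp_nat_mul, Real.exp_log hn0, pow_mul]
    rw [h1]
    exact pow_le_pow_left₀ (by positivity) hMn t
  have hexp4 : Real.exp (-(t * Real.log 4) - Real.log 8) = (1 / 4) ^ t / 8 := by
    rw [sub_eq_add_neg, Real.exp_add, Real.exp_neg, Real.exp_neg, Real.exp_nat_mul,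
      Real.exp_log (by norm_num), Real.exp_log (by norm_num)]
    rw [one_div, inv_pow]
    ring
  have hxn : x ^ 2 * (n : ℝ) ^ (1 - γ) = n := by
    rw [hx, ← Real.rpow_natCast, ← Real.rpow_mul hn0.le, ← Real.rpow_add hn0]
    have : γ / 2 * ((2 : ℕ) : ℝ) + (1 - γ) = 1 := by push_cast; ring
    rw [this, Real.rpow_one]
  refine ⟨r, n / (A * t), γ / 2 * Real.log n, hr1.le, hr2, by positivity, by positivity, ?_, ?_⟩
  · have h1 : (n : ℝ) * t / (n / (A * t)) * r = 1 / x := by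
      rw [hr]
      field_simp
    rw [h1]
    have h2 : 1 / x ≤ 1 / 4 := one_div_le_one_div_of_le (by norm_num) e3
    have h3 : (1 / x) ^ t ≤ (1 / 4 : ℝ) ^ t := pow_le_pow_left₀ (by positivity) h2 t
    have h4 : (1 / 4 : ℝ) ^ t = (1 / 2) ^ t * (1 / 2) ^ t := by rw [← mul_pow]; norm_num
    have h5 : (1 / 2 : ℝ) ^ t ≤ 1 / 2 := by
      calc (1 / 2 : ℝ) ^ t ≤ (1 / 2) ^ 1 := pow_le_pow_of_le_one (by norm_num) (by norm_num) ht
        _ = 1 / 2 := by norm_num
    have h6 : (0 : ℝ) < (1 / 2) ^ t := by positivity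
    nlinarith
  · have hgoal : (((1 : ℝ) / 2) ^ t / 2) ^ 2 = (1 / 4) ^ t / 8 + (1 / 4) ^ t / 8 := by
      have h4 : (1 / 4 : ℝ) ^ t = (1 / 2) ^ t * (1 / 2) ^ t := by rw [← mul_pow]; norm_num
      rw [h4]; ring
    rw [hgoal]
    refine add_le_add ?_ ?_
    · -- first term
      obtain ⟨η, hη⟩ : ∃ η : ℝ, η = (1 / (16 * (t : ℝ))) ^ D * r / 2 := ⟨_, rfl⟩
      rw [← hη]
      have hT0 : (0 : ℝ) < 16 * t := by positivity
      have hη0 : 0 < η := by rw [hη]; positivity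
      have hη1 : η ≤ c / (2 * k ^ 2) := by
        have h1 : (1 / (16 * (t : ℝ))) ^ D ≤ 1 := by
          apply pow_le_one₀ (by positivity)
          rw [div_le_one hT0]
          linarith
        have h2 : η ≤ r / 2 := by
          rw [hη]
          have := mul_le_mul_of_nonneg_right h1 hr1.le
          linarith
        have h3 : 1 / (A * x) ≤ c / k ^ 2 := by
          rw [div_le_div_iff₀ (by positivity) (by positivity)]
          linarith
        have h4 : c / (2 * (k : ℝ) ^ 2) = c / k ^ 2 / 2 := by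
          rw [div_div, mul_comm]
        rw [h4]
        linarith
      have hc1 : c' ≤ 1 - Real.exp (η - c / k ^ 2) := by
        rw [hc']
        have h1 : Real.exp (η - c / k ^ 2) ≤ Real.exp (-(c / (2 * k ^ 2))) := by
          apply Real.exp_le_exp.2
          have h2 : c / (k : ℝ) ^ 2 = c / (2 * k ^ 2) + c / (2 * k ^ 2) := by
            field_simp
            norm_num
          linarith
        linarith
      have hηM : 2048 * t * x / A ≤ η * M := by
        have h1 : (16 * (t : ℝ)) ^ D * t ^ 2 * (4096 * t) ≤ (n : ℝ) ^ (1 - γ) := by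
          have h2 : (16 * (t : ℝ)) ^ (D + 3) = (16 * (t : ℝ)) ^ D * t ^ 2 * (4096 * t) := by
            rw [pow_add]; ring
          rw [← h2]; exact hT
        have h3 : η = 1 / ((16 * (t : ℝ)) ^ D * 2 * (A * t ^ 2 * x)) := by
          rw [hη, hr, div_pow, one_pow]
          field_simp
        have h4 : η * n ≤ η * M := mul_le_mul_of_nonneg_left hM2 hη0.le
        refine le_trans ?_ h4
        rw [h3, one_div, inv_mul_eq_div, div_le_div_iff₀ hA0 (by positivity)]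
        have h5 : x ^ 2 * ((16 * (t : ℝ)) ^ D * t ^ 2 * (4096 * t)) ≤ n := by
          rw [← hxn]
          exact mul_le_mul_of_nonneg_left h1 (by positivity)
        calc 2048 * (t : ℝ) * x * ((16 * (t : ℝ)) ^ D * 2 * (A * t ^ 2 * x))
            = x ^ 2 * ((16 * (t : ℝ)) ^ D * t ^ 2 * (4096 * t)) * A := by ring
          _ ≤ n * A := mul_le_mul_of_nonneg_right h5 hA0.le
      have h8 : 8 * (M : ℝ) ^ 2 / N ≤ 32 * κ ^ 2 := by
        rw [div_le_iff₀ hN0]
        have h1 : (M : ℝ) ^ 2 ≤ (κ * n) ^ 2 := pow_le_pow_left₀ (by positivity) hM1 2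
        have h2 : 32 * κ ^ 2 * ((n : ℝ) ^ 2 / 4) ≤ 32 * κ ^ 2 * N :=
          mul_le_mul_of_nonneg_left hN2 (by positivity)
        nlinarith
      have h9 : 2048 * t * x / A * c' ≤ η * M * (1 - Real.exp (η - c / k ^ 2)) := by
        have hpos : (0 : ℝ) ≤ 2048 * t * x / A := by positivity
        calc 2048 * t * x / A * c' ≤ η * M * c' := mul_le_mul_of_nonneg_right hηM hc'0.le
          _ ≤ η * M * (1 - Real.exp (η - c / k ^ 2)) :=
            mul_le_mul_of_nonneg_left hc1 (by positivity)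
      have h10 : t * (2 * Real.log n + (32 * κ ^ 2 + Real.log 4 + Real.log 8)) ≤
          2048 * t * x / A * c' := by
        calc t * (2 * Real.log n + (32 * κ ^ 2 + Real.log 4 + Real.log 8))
            ≤ t * (2048 * c' / A * x) := mul_le_mul_of_nonneg_left e6 ht0.le
          _ = 2048 * t * x / A * c' := by ring
      have hl4 : 0 ≤ Real.log 4 := Real.log_nonneg (by norm_num)
      have hl8 : 0 ≤ Real.log 8 := Real.log_nonneg (by norm_num)
      have h11 : 32 * κ ^ 2 + Real.log 8 ≤ t * (32 * κ ^ 2 + Real.log 8) := by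
        have : 0 ≤ 32 * κ ^ 2 + Real.log 8 := by positivity
        nlinarith
      calc ((2 * M + 1 : ℕ) : ℝ) ^ t *
            Real.exp (8 * (M : ℝ) ^ 2 / N - η * M * (1 - Real.exp (η - c / k ^ 2)))
          ≤ Real.exp (2 * t * Real.log n) *
            Real.exp (8 * (M : ℝ) ^ 2 / N - η * M * (1 - Real.exp (η - c / k ^ 2))) :=
            mul_le_mul_of_nonneg_right hMt (Real.exp_pos _).le
        _ = Real.exp (2 * t * Real.log n +
              (8 * (M : ℝ) ^ 2 / N - η * M * (1 - Real.exp (η - c / k ^ 2)))) :=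
            (Real.exp_add _ _).symm
        _ ≤ Real.exp (-(t * Real.log 4) - Real.log 8) := by
            apply Real.exp_le_exp.2
            linarith
        _ = (1 / 4) ^ t / 8 := hexp4
    · -- second term
      have h1 : γ / 2 * Real.log n * (c * ((n : ℝ) / k)) / (n / (A * t)) = 4 * t * Real.log n := by
        rw [hA]
        field_simp
        ring
      have h2 : Real.exp (γ / 2 * Real.log n) = x := by
        rw [hx, Real.rpow_def_of_pos hn0, mul_comm]
      have h3 : r * x * ((n : ℝ) * t / (n / (A * t))) = 1 := by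
        rw [hr]
        field_simp
      rw [h1, h2, h3]
      have hl : Real.log 100 ≤ 2 * Real.log n := by
        have h4 : 2 * Real.log n = Real.log ((n : ℝ) ^ 2) := by
          rw [Real.log_pow]; push_cast; ring
        rw [h4]
        apply Real.log_le_log (by norm_num)
        nlinarith
      have h5 : (100 : ℝ) = 4 * 25 := by norm_num
      have h6 : Real.log 100 = Real.log 4 + Real.log 25 := by
        rw [h5, Real.log_mul (by norm_num) (by norm_num)]
      have h7 : Real.log 25 = Real.log 8 + Real.log (25 / 8) := by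
        rw [← Real.log_mul (by norm_num) (by norm_num)]
        norm_num
      have h8 : 1 ≤ Real.log (25 / 8) := by
        rw [Real.le_log_iff_exp_le (by norm_num)]
        exact (Real.exp_one_lt_three.le).trans (by norm_num)
      have hl8 : 0 ≤ Real.log 8 := Real.log_nonneg (by norm_num)
      have h9 : t * (Real.log 4 + Real.log 8 + 1) ≤ t * (2 * Real.log n) :=
        mul_le_mul_of_nonneg_left (by linarith) ht0.le
      have h10 : Real.log 8 + 1 ≤ t * (Real.log 8 + 1) := by nlinarith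
      calc ((2 * M + 1 : ℕ) : ℝ) ^ t * Real.exp (-(4 * t * Real.log n) + 1)
          ≤ Real.exp (2 * t * Real.log n) * Real.exp (-(4 * t * Real.log n) + 1) :=
            mul_le_mul_of_nonneg_right hMt (Real.exp_pos _).le
        _ = Real.exp (2 * t * Real.log n + (-(4 * t * Real.log n) + 1)) :=
            (Real.exp_add _ _).symm
        _ ≤ Real.exp (-(t * Real.log 4) - Real.log 8) := by
            apply Real.exp_le_exp.2
            linarith
        _ = (1 / 4) ^ t / 8 := hexp4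

end Pool.Agent.ACL
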