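import Pool.Agent.ACL.Defs

set_option autoImplicit false

/-!
# ACL-ExB: images and products of product weights
-/

namespace Pool.Agent.ACL

open Finset

section

variable {V α β : Type} [Fintype V] [DecidableEq V] [Fintype α] [Fintype β]

theorem Ex_push [DecidableEq β] (u : α → ℝ) (v : β → ℝ) (g : V → α → β)
    (h : ∀ i b, ∑ a ∈ univ.filter (fun a => g i a = b), u a = v b) (Φ : (V → β) → ℝ) :
    Ex u (fun a => Φ fun i => g i (a i)) = Ex v Φ := by
  unfold Ex
  have h1 : ∀ b : V → β, ∏ i, v (b i) =
      ∑ a ∈ univ.filter (fun a : V → α => (fun i => g i (a i)) = b), ∏ i, u (a i) := by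
    intro b
    have h2 : univ.filter (fun a : V → α => (fun i => g i (a i)) = b) =
        Fintype.piFinset fun i => univ.filter fun x : α => g i x = b i := by
      ext a
      simp only [mem_filter, mem_univ, true_and, Fintype.mem_piFinset]
      exact funext_iff
    rw [h2, ← prod_univ_sum]
    exact prod_congr rfl fun i _ => (h i (b i)).symm
  have h3 : ∀ b : V → β, (∏ i, v (b i)) * Φ b =
      ∑ a ∈ univ.filter (fun a : V → α => (fun i => g i (a i)) = b),
        (∏ i, u (a i)) * Φ fun i => g i (a i) := by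
    intro b
    rw [h1, sum_mul]
    refine sum_congr rfl fun a ha => ?_
    rw [(mem_filter.1 ha).2]
  rw [sum_congr rfl fun b _ => h3 b]
  exact (sum_fiberwise univ (fun a : V → α => fun i => g i (a i)) _).symm

theorem Ex_prod (u : α → ℝ) (v : β → ℝ) (Φ : (V → α × β) → ℝ) :
    Ex (fun p : α × β => u p.1 * v p.2) Φ = Ex u fun a => Ex v fun b => Φ fun i => (a i, b i) := by
  unfold Ex
  rw [← (Equiv.arrowProdEquivProdArrow V (fun _ => α) (fun _ => β)).symm.sum_comp, Fintype.sum_prod_type]
  refine sum_congr rfl fun a _ => ?_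
  rw [mul_sum]
  refine sum_congr rfl fun b _ => ?_
  have h1 : ∀ i, (Equiv.arrowProdEquivProdArrow V (fun _ => α) (fun _ => β)).symm (a, b) i =
      (a i, b i) := fun _ => rfl
  simp only [h1]
  rw [prod_mul_distrib, mul_assoc]
  rfl

end

end Pool.Agent.ACL
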