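import Pool.Agent.ACL.ExA
import Pool.Agent.ACL.ExB

set_option autoImplicit false

/-!
# ACL-ExC: composition of restrictions, resampling
-/

namespace Pool.Agent.ACL

open Finset

section

variable {V : Type} [Fintype V] [DecidableEq V]

theorem Ex_cmp (p p' : ℝ) (H : Rst V → ℝ) :
    Ex (rw1 p) (fun ρ => Ex (rw1 p') fun σ => H (cmp ρ σ)) = Ex (rw1 (p * p')) H := by
  have h1 := Ex_prod (V := V) (rw1 p) (rw1 p')
    (fun c : V → Option Bool × Option Bool => H fun i => (c i).1.or (c i).2)
  have h2 := Ex_push (V := V) (fun q : Option Bool × Option Bool => rw1 p q.1 * rw1 p' q.2)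
    (rw1 (p * p')) (fun _ q => q.1.or q.2) (fun _ b => by
      rw [Finset.sum_filter, Fintype.sum_prod_type]
      simp only [Fintype.sum_option, Fintype.sum_bool]
      rcases b with _ | _ | _ <;> simp [rw1] <;> ring) H
  exact h1.symm.trans h2

theorem Ex_ap (p : ℝ) (Φ : (V → Bool) → ℝ) :
    Ex (rw1 p) (fun τ => Ex half fun x => Φ (ap τ x)) = Ex half Φ := by
  have h1 := Ex_prod (V := V) (rw1 p) half
    (fun c : V → Option Bool × Bool => Φ fun i => (c i).1.getD (c i).2)
  have h2 := Ex_push (V := V) (fun q : Option Bool × Bool => rw1 p q.1 * half q.2)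
    half (fun _ q => q.1.getD q.2) (fun _ b => by
      rw [Finset.sum_filter, Fintype.sum_prod_type]
      simp only [Fintype.sum_option, Fintype.sum_bool]
      rcases b with _ | _ <;> simp [rw1, half] <;> ring) Φ
  exact h1.symm.trans h2

theorem Ex_rsm (R : V → Bool) (Φ : (V → Bool) → ℝ) :
    Ex half (fun b => Ex half fun c => Φ (rsm R b c)) = Ex half Φ := by
  have h1 := Ex_prod (V := V) half half
    (fun c : V → Bool × Bool => Φ fun i => if R i then (c i).2 else (c i).1)
  have h2 := Ex_push (V := V) (fun q : Bool × Bool => half q.1 * half q.2)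
    half (fun i q => if R i then q.2 else q.1) (fun i b => by
      rw [Finset.sum_filter, Fintype.sum_prod_type]
      simp only [Fintype.sum_bool]
      cases hR : R i <;> rcases b with _ | _ <;> simp [half] <;> norm_num) Φ
  exact h1.symm.trans h2

theorem Ex_pair (R : V → Bool) (Φ : (V → Bool) → (V → Bool) → ℝ) :
    Ex half (fun x => Ex half fun x' => Φ x (rsm R x x')) =
      Ex half fun b => Ex half fun c => Ex half fun c' => Φ (rsm R b c) (rsm R b c') := by
  have h1 := Ex_rsm R (fun x => Ex half fun x' => Φ x (rsm R x x'))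
  rw [← h1]
  have h2 : ∀ b c c' : V → Bool, rsm R (rsm R b c) c' = rsm R b c' := by
    intro b c c'
    funext i
    unfold rsm
    cases R i <;> simp
  simp only [h2]

theorem Ex_flip (π r : ℝ) (Φ : (V → Bool) → (V → Bool) → ℝ) :
    Ex (rw1 π) (fun τ => Ex (bern r) fun R => Ex half fun x => Ex half fun x' =>
      Φ (ap τ x) (ap τ (rsm R x x'))) =
      Ex half fun X => Ex (bern (π * r / 2)) fun Λ => Φ X (fl X Λ) := by
  -- the left hand side as one average
  have h1 : Ex (V := V) (fun q : Option Bool × (Bool × (Bool × Bool)) =>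
        rw1 π q.1 * (bern r q.2.1 * (half q.2.2.1 * half q.2.2.2)))
      (fun c => Φ (fun i => (c i).1.getD (c i).2.2.1)
        (fun i => (c i).1.getD (if (c i).2.1 then (c i).2.2.2 else (c i).2.2.1))) =
      Ex (rw1 π) (fun τ => Ex (bern r) fun R => Ex half fun x => Ex half fun x' =>
        Φ (ap τ x) (ap τ (rsm R x x'))) := by
    rw [Ex_prod (rw1 π) (fun q : Bool × (Bool × Bool) => bern r q.1 * (half q.2.1 * half q.2.2))]
    refine congrArg (Ex (rw1 π)) (funext fun τ => ?_)
    rw [Ex_prod (bern r) (fun q : Bool × Bool => half q.1 * half q.2)]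
    refine congrArg (Ex (bern r)) (funext fun R => ?_)
    rw [Ex_prod half half]
    rfl
  have h2 := Ex_prod (V := V) half (bern (π * r / 2))
    (fun c : V → Bool × Bool => Φ (fun i => (c i).1) fun i => xor (c i).1 (c i).2)
  have h3 := Ex_push (V := V) (fun q : Option Bool × (Bool × (Bool × Bool)) =>
      rw1 π q.1 * (bern r q.2.1 * (half q.2.2.1 * half q.2.2.2)))
    (fun q : Bool × Bool => half q.1 * bern (π * r / 2) q.2)
    (fun _ q => (q.1.getD q.2.2.1,
      xor (q.1.getD q.2.2.1) (q.1.getD (if q.2.1 then q.2.2.2 else q.2.2.1))))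
    (fun _ b => by
      rw [Finset.sum_filter]
      simp only [Fintype.sum_prod_type, Fintype.sum_option, Fintype.sum_bool]
      rcases b with ⟨_ | _, _ | _⟩ <;> simp [rw1, half, bern] <;> ring)
    (fun c : V → Bool × Bool => Φ (fun i => (c i).1) fun i => xor (c i).1 (c i).2)
  have h4 : ∀ a b : Bool, xor a (xor a b) = b := by decide
  simp only [h4] at h3
  rw [← h1, h3]
  exact h2

end

end Pool.Agent.ACL
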