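import Pool.Agent.ACL.Lvl
import Pool.Agent.ACL.ExC

set_option autoImplicit false

/-!
# ACL-Rnd: all levels of a circuit
-/

namespace Pool.Agent.ACL

open Finset

section

variable {V : Type} [Fintype V] [DecidableEq V]

open Classical in
theorem rounds {E : Type} {s t : ℕ} (ht : 1 ≤ t) (C : Circ E s) (inp : E → (V → Bool) → Bool)
    (hin : ∀ e, HasDT t (inp e)) (D : ℕ) :
    Ex (rw1 ((1 / (16 * (t : ℝ))) ^ D)) (fun τ =>
      if ∀ g, HasDT t (fun x => C.val (fun e => inp e (ap τ x)) D g) then 0 else 1) ≤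
      D * s * (1 / 2) ^ t := by
  have ht' : (1 : ℝ) ≤ t := by exact_mod_cast ht
  have hq0 : (0 : ℝ) ≤ 1 / (16 * (t : ℝ)) := by positivity
  have hq1 : 1 / (16 * (t : ℝ)) ≤ 1 := by
    rw [div_le_one (by positivity)]
    linarith
  induction D with
  | zero =>
    have h : ∀ τ : Rst V, ∀ g, HasDT t (fun x => C.val (fun e => inp e (ap τ x)) 0 g) :=
      fun τ g => ⟨.leaf false, by simp [DT.dp], fun x => rfl⟩
    have h1 : (fun τ : Rst V =>
      if ∀ g, HasDT t (fun x => C.val (fun e => inp e (ap τ x)) 0 g) then (0 : ℝ) else 1) =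
        fun _ => 0 := funext fun τ => if_pos (h τ)
    rw [h1, Ex_const (rw1_sum _)]
    simp
  | succ D ih =>
    rw [pow_succ, ← Ex_cmp]
    have hqD0 : (0 : ℝ) ≤ (1 / (16 * (t : ℝ))) ^ D := pow_nonneg hq0 D
    have hqD1 : (1 / (16 * (t : ℝ))) ^ D ≤ 1 := pow_le_one₀ hq0 hq1
    have key : ∀ ρ : Rst V, Ex (rw1 (1 / (16 * (t : ℝ)))) (fun σ =>
        if ∀ g, HasDT t (fun x => C.val (fun e => inp e (ap (cmp ρ σ) x)) (D + 1) g)
          then (0 : ℝ) else 1) ≤
        (if ∀ g, HasDT t (fun x => C.val (fun e => inp e (ap ρ x)) D g) then (0 : ℝ) else 1) +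
          s * (1 / 2) ^ t := by
      intro ρ
      simp only [ap_cmp]
      by_cases hg : ∀ g, HasDT t (fun x => C.val (fun e => inp e (ap ρ x)) D g)
      · rw [if_pos hg, zero_add]
        exact round ht C (fun e x => inp e (ap ρ x)) (fun e => hasDT_ap (hin e) ρ) D hg
      · rw [if_neg hg]
        have h1 : Ex (rw1 (1 / (16 * (t : ℝ)))) (fun σ =>
          if ∀ g, HasDT t (fun x => C.val (fun e => inp e (ap ρ (ap σ x))) (D + 1) g)
            then (0 : ℝ) else 1) ≤ Ex (V := V) (rw1 (1 / (16 * (t : ℝ)))) fun _ => 1 := by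
          refine Ex_mono (fun b => rw1_nonneg hq0 hq1 b) fun σ => ?_
          split_ifs
          · exact zero_le_one
          · exact le_rfl
        rw [Ex_const (rw1_sum _)] at h1
        have h2 : (0 : ℝ) ≤ s * (1 / 2) ^ t := by positivity
        linarith
    have h1 := Ex_mono (u := rw1 ((1 / (16 * (t : ℝ))) ^ D)) (V := V)
      (fun b => rw1_nonneg hqD0 hqD1 b) key
    rw [Ex_add, Ex_const (rw1_sum _)] at h1
    refine h1.trans ?_
    push_cast
    linarith

end

end Pool.Agent.ACL
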