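import Pool.Agent.ACL.NoiD
import Pool.Agent.ACL.ExC

set_option autoImplicit false

/-!
# ACL-Sel: the selected samples and the flipped ones
-/

namespace Pool.Agent.ACL

open Finset Pool.Agent.INS

private theorem ta_prod {V α β : Type} [Fintype V] [DecidableEq V] [Fintype α] [Fintype β]
    (u : α → ℝ) (v : β → ℝ) (F : (V → α) → (V → β) → ℝ) :
    Ex u (fun a => Ex v fun b => F a b) =
      Ex (fun p : α × β => u p.1 * v p.2) (fun c => F (fun i => (c i).1) fun i => (c i).2) :=
  (Ex_prod u v (fun c => F (fun i => (c i).1) fun i => (c i).2)).symm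

/-- the weights of the pairs (selected sample, flipped sample) -/
private noncomputable def wv (n : ℕ) (η : ℝ) (p : Pr n × Pr n) : ℝ :=
  (if p.1 = p.2 then (1 - η) / Fintype.card (Pr n) else 0) + η / (Fintype.card (Pr n) : ℝ) ^ 2

private theorem tb_one {α : Type} [Fintype α] [DecidableEq α] (e e' : α) (c : ℝ) :
    ∑ a : α, ∑ b : α, (if a = e ∧ b = e' then c else 0) = c := by
  rw [Finset.sum_eq_single e]
  · rw [Finset.sum_eq_single e']
    · exact if_pos ⟨rfl, rfl⟩
    · intro b _ hb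
      exact if_neg fun h => hb h.2
    · intro h
      exact absurd (mem_univ _) h
  · intro a _ ha
    exact Finset.sum_eq_zero fun b _ => if_neg fun h => ha h.1
  · intro h
    exact absurd (mem_univ _) h

private theorem tb_two {α : Type} [Fintype α] [DecidableEq α] (e e' : α) (c : ℝ) :
    ∑ a : α, ∑ b : α, (if b = e ∧ a = e' then c else 0) = c := by
  rw [Finset.sum_comm]
  exact tb_one e e' c

private theorem tb_three {α : Type} [Fintype α] [DecidableEq α] (e e' : α) (c : ℝ) :
    ∑ a : α, ∑ _b : α, (if a = e ∧ a = e' then c else 0) =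
      if e = e' then (Fintype.card α : ℝ) * c else 0 := by
  rw [Finset.sum_eq_single e]
  · rw [Finset.sum_const, Finset.card_univ, nsmul_eq_mul]
    by_cases h : e = e'
    · rw [if_pos ⟨rfl, h⟩, if_pos h]
    · rw [if_neg fun h' => h h'.2, if_neg h, mul_zero]
  · intro a _ ha
    exact Finset.sum_eq_zero fun b _ => if_neg fun h => ha h.1
  · intro h
    exact absurd (mem_univ _) h

private theorem tb_four {α : Type} [Fintype α] [DecidableEq α] (e e' : α) (c : ℝ) :
    ∑ _a : α, ∑ b : α, (if b = e ∧ b = e' then c else 0) =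
      if e = e' then (Fintype.card α : ℝ) * c else 0 := by
  rw [Finset.sum_comm]
  exact tb_three e e' c

/-- (selected sample, flipped sample) -/
private def g1 {n : ℕ} (p : (Pr n × Pr n) × (Bool × Bool)) : Pr n × Pr n :=
  (if p.2.1 then p.1.2 else p.1.1, if xor p.2.1 p.2.2 then p.1.2 else p.1.1)

private def g2 {n : ℕ} (p : Pr n × (Bool × Pr n)) : Pr n × Pr n :=
  (p.1, if p.2.1 then p.2.2 else p.1)

private theorem tc_g1 {n : ℕ} (η : ℝ) (b : Pr n × Pr n) :
    ∑ a ∈ univ.filter (fun a : (Pr n × Pr n) × (Bool × Bool) => g1 a = b),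
      uni (Pr n × Pr n) a.1 * (half a.2.1 * bern η a.2.2) = wv n η b := by
  obtain ⟨e, e'⟩ := b
  have hN : (Fintype.card (Pr n) : ℝ) ≠ 0 := by
    exact_mod_cast (Fintype.card_pos_iff.2 ⟨e⟩).ne'
  have hu : ∀ z, uni (Pr n × Pr n) z = 1 / ((Fintype.card (Pr n) : ℝ) * Fintype.card (Pr n)) := by
    intro z
    unfold uni
    rw [Fintype.card_prod]
    push_cast
    rfl
  rw [Finset.sum_filter]
  simp only [Fintype.sum_prod_type, Fintype.sum_bool, g1, hu, half, bern, Prod.mk.injEq,
    Finset.sum_add_distrib, Bool.xor_true, Bool.xor_false, Bool.not_true, Bool.not_false, if_true,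
    Bool.false_eq_true, if_false, tb_one, tb_two, tb_three, tb_four]
  unfold wv
  by_cases h : e = e'
  · simp only [h, if_true]
    field_simp
    ring
  · simp only [h, if_false]
    field_simp
    ring

private theorem tc_g2 {n : ℕ} (η : ℝ) (b : Pr n × Pr n) :
    ∑ a ∈ univ.filter (fun a : Pr n × (Bool × Pr n) => g2 a = b),
      uni (Pr n) a.1 * (bern η a.2.1 * uni (Pr n) a.2.2) = wv n η b := by
  obtain ⟨e, e'⟩ := b
  have hN : (Fintype.card (Pr n) : ℝ) ≠ 0 := by
    exact_mod_cast (Fintype.card_pos_iff.2 ⟨e⟩).ne'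
  have hu : ∀ z, uni (Pr n) z = 1 / (Fintype.card (Pr n) : ℝ) := fun z => rfl
  rw [Finset.sum_filter]
  simp only [Fintype.sum_prod_type, Fintype.sum_bool, g2, hu, bern, Prod.mk.injEq,
    Finset.sum_add_distrib, if_true, Bool.false_eq_true, if_false, tb_one, tb_two, tb_three, tb_four]
  unfold wv
  by_cases h : e = e'
  · simp only [h, if_true]
    field_simp
    ring
  · simp only [h, if_false]
    field_simp
    ring

theorem sel_push {n M : ℕ} (η : ℝ) (Φ : Om n M → Om n M → ℝ) :
    (Ex (uni (Pr n × Pr n)) fun z => Ex half fun X => Ex (bern η) fun Λ =>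
      Φ (sel z X) (sel z (fl X Λ))) =
    Ex (uni (Pr n)) fun ω => Ex (bern η) fun Λ => Ex (uni (Pr n)) fun v => Φ ω (mix Λ ω v) := by
  classical
  obtain ⟨Ψ, hΨ⟩ : ∃ Ψ : (Fin M → Pr n × Pr n) → ℝ, Ψ = fun c => Φ (fun i => (c i).1) fun i => (c i).2 :=
    ⟨_, rfl⟩
  have L1 : (Ex (uni (Pr n × Pr n)) fun z => Ex half fun X => Ex (bern η) fun Λ =>
      Φ (sel z X) (sel z (fl X Λ))) = Ex (wv n η) Ψ := by
    rw [← Ex_push (fun a : (Pr n × Pr n) × (Bool × Bool) =>
      uni (Pr n × Pr n) a.1 * (half a.2.1 * bern η a.2.2)) (wv n η) (fun _ => g1)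
      (fun _ b => tc_g1 η b) Ψ]
    have h1 : (fun z => Ex half fun X => Ex (bern η) fun Λ => Φ (sel z X) (sel z (fl X Λ))) =
        fun z => Ex (fun p : Bool × Bool => half p.1 * bern η p.2) fun c =>
          Φ (sel z fun i => (c i).1) (sel z (fl (fun i => (c i).1) fun i => (c i).2)) :=
      funext fun z => ta_prod half (bern η) fun X Λ => Φ (sel z X) (sel z (fl X Λ))
    rw [h1, ta_prod (uni (Pr n × Pr n)) (fun p : Bool × Bool => half p.1 * bern η p.2) fun z c =>
      Φ (sel z fun i => (c i).1) (sel z (fl (fun i => (c i).1) fun i => (c i).2)), hΨ]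
    rfl
  have L2 : (Ex (uni (Pr n)) fun ω => Ex (bern η) fun Λ => Ex (uni (Pr n)) fun v =>
      Φ ω (mix Λ ω v)) = Ex (wv n η) Ψ := by
    rw [← Ex_push (fun a : Pr n × (Bool × Pr n) =>
      uni (Pr n) a.1 * (bern η a.2.1 * uni (Pr n) a.2.2)) (wv n η) (fun _ => g2)
      (fun _ b => tc_g2 η b) Ψ]
    have h1 : (fun ω : Om n M => Ex (bern η) fun Λ => Ex (uni (Pr n)) fun v => Φ ω (mix Λ ω v)) =
        fun ω => Ex (fun p : Bool × Pr n => bern η p.1 * uni (Pr n) p.2) fun c =>
          Φ ω (mix (fun i => (c i).1) ω fun i => (c i).2) :=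
      funext fun ω => ta_prod (bern η) (uni (Pr n)) fun Λ v => Φ ω (mix Λ ω v)
    rw [h1, ta_prod (uni (Pr n)) (fun p : Bool × Pr n => bern η p.1 * uni (Pr n) p.2) fun ω c =>
      Φ ω (mix (fun i => (c i).1) ω fun i => (c i).2), hΨ]
    rfl
  rw [L1, L2]

end Pool.Agent.ACL
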