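import Pool.Agent.ACL.SucA

set_option autoImplicit false

/-!
# ACL-SucB: the success probability for random pairs of pairs

Exchange of the two samples, fibres over the first samples.
-/

namespace Pool.Agent.ACL

open Finset Pool.Agent.INS

private theorem inj2_fst {n M : ℕ} {z : Fin M → Pr n × Pr n} (hz : Inj2 z) :
    Function.Injective fun i => (z i).1 := by
  intro i j hij
  have h := @hz (i, false) (j, false) (by simpa using hij)
  exact congrArg Prod.fst h

/-- exchange the two samples at the places where `x` is true -/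
private def sw {n M : ℕ} (x : Fin M → Bool) (z : Fin M → Pr n × Pr n) : Fin M → Pr n × Pr n :=
  fun i => if x i then ((z i).2, (z i).1) else z i

private theorem sw_sw {n M : ℕ} (x : Fin M → Bool) (z : Fin M → Pr n × Pr n) :
    sw x (sw x z) = z := by
  funext i
  unfold sw
  by_cases h : x i = true
  · simp [h]
  · simp [h]

private theorem sw_inj2 {n M : ℕ} (x : Fin M → Bool) {z : Fin M → Pr n × Pr n} (hz : Inj2 z) :
    Inj2 (sw x z) := by
  have h1 : (fun p : Fin M × Bool => if p.2 then (sw x z p.1).2 else (sw x z p.1).1) =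
      (fun p : Fin M × Bool => if p.2 then (z p.1).2 else (z p.1).1) ∘
        (fun p : Fin M × Bool => (p.1, xor p.2 (x p.1))) := by
    funext p
    obtain ⟨i, b⟩ := p
    unfold sw
    cases b <;> cases h : x i <;> simp [h]
  unfold Inj2
  rw [h1]
  apply Function.Injective.comp hz
  rintro ⟨i, b⟩ ⟨j, c⟩ h
  have h2 : i = j := congrArg Prod.fst h
  subst h2
  have h3 : xor b (x i) = xor c (x i) := congrArg Prod.snd h
  have h4 : b = c := by
    revert h3
    cases b <;> cases c <;> cases x i <;> simp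
  rw [h4]

private theorem sel_sw {n M : ℕ} (x : Fin M → Bool) (z : Fin M → Pr n × Pr n) :
    sel z x = fun i => (sw x z i).1 := by
  funext i
  unfold sel sw
  by_cases h : x i = true
  · simp [h]
  · simp [h]

open Classical in
private theorem cnt_x {n M : ℕ} (Q : SimpleGraph (Fin n) → Prop) (x : Fin M → Bool) :
    (univ.filter fun z : Fin M → Pr n × Pr n => Inj2 z ∧ Q (gO (sel z x))).card =
      (univ.filter fun z : Fin M → Pr n × Pr n => Inj2 z ∧ Q (gO fun i => (z i).1)).card := by
  apply Finset.card_nbij' (sw x) (sw x)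
  · intro z hz
    simp only [coe_filter, mem_univ, true_and, Set.mem_ofPred_eq] at hz ⊢
    refine ⟨sw_inj2 x hz.1, ?_⟩
    rw [← sel_sw]
    exact hz.2
  · intro z hz
    simp only [coe_filter, mem_univ, true_and, Set.mem_ofPred_eq] at hz ⊢
    refine ⟨sw_inj2 x hz.1, ?_⟩
    rw [sel_sw, sw_sw]
    exact hz.2
  · intro z _
    exact sw_sw x z
  · intro z _
    exact sw_sw x z

open Classical in
private theorem fib_le {n M : ℕ} {ω ω' : Om n M} (h : Function.Injective ω)
    (h' : Function.Injective ω') :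
    (univ.filter fun z : Fin M → Pr n × Pr n => Inj2 z ∧ (fun i => (z i).1) = ω).card ≤
      (univ.filter fun z : Fin M → Pr n × Pr n => Inj2 z ∧ (fun i => (z i).1) = ω').card := by
  let e : {a // a ∈ Set.range ω} ≃ {a // a ∈ Set.range ω'} :=
    (Equiv.ofInjective ω h).symm.trans (Equiv.ofInjective ω' h')
  let σ : Equiv.Perm (Pr n) := e.extendSubtype
  have hσ : ∀ i, σ (ω i) = ω' i := by
    intro i
    have h1 : σ (ω i) = e ⟨ω i, ⟨i, rfl⟩⟩ := Equiv.extendSubtype_apply_of_mem e (ω i) ⟨i, rfl⟩
    rw [h1]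
    have h2 : (Equiv.ofInjective ω h).symm ⟨ω i, ⟨i, rfl⟩⟩ = i := by
      rw [Equiv.symm_apply_eq]
      rfl
    change ((Equiv.ofInjective ω' h') ((Equiv.ofInjective ω h).symm ⟨ω i, ⟨i, rfl⟩⟩) : Pr n) = ω' i
    rw [h2]
    rfl
  apply Finset.card_le_card_of_injOn (fun z i => (σ (z i).1, σ (z i).2))
  · intro z hz
    simp only [coe_filter, mem_univ, true_and, Set.mem_ofPred_eq] at hz ⊢
    refine ⟨?_, ?_⟩
    · have h1 : (fun p : Fin M × Bool => if p.2 then σ (z p.1).2 else σ (z p.1).1) =
          σ ∘ (fun p : Fin M × Bool => if p.2 then (z p.1).2 else (z p.1).1) := by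
        funext p
        obtain ⟨i, b⟩ := p
        cases b <;> simp
      unfold Inj2
      change Function.Injective (fun p : Fin M × Bool => if p.2 then σ (z p.1).2 else σ (z p.1).1)
      rw [h1]
      exact σ.injective.comp hz.1
    · funext i
      have h2 : (z i).1 = ω i := congrFun hz.2 i
      change σ (z i).1 = ω' i
      rw [h2, hσ]
  · intro z _ z' _ hzz
    funext i
    have h1 := congrFun hzz i
    simp only [Prod.mk.injEq, EmbeddingLike.apply_eq_iff_eq] at h1
    exact Prod.ext h1.1 h1.2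

open Classical in
private theorem cnt_all (n M : ℕ) : ∃ c : ℕ, ∀ Q : SimpleGraph (Fin n) → Prop,
    (univ.filter fun z : Fin M → Pr n × Pr n => Inj2 z ∧ Q (gO fun i => (z i).1)).card =
      c * {G : SimpleGraph (Fin n) | G ∈ Graphs n M ∧ Q G}.ncard := by
  by_cases hex : ∃ ω0 : Om n M, Function.Injective ω0
  · obtain ⟨ω0, h0⟩ := hex
    refine ⟨(univ.filter fun z : Fin M → Pr n × Pr n =>
      Inj2 z ∧ (fun i => (z i).1) = ω0).card * M.factorial, ?_⟩
    intro Q
    have h1 := Finset.card_eq_sum_card_fiberwise (f := fun z : Fin M → Pr n × Pr n => (fun i => (z i).1))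
      (s := univ.filter fun z : Fin M → Pr n × Pr n => Inj2 z ∧ Q (gO fun i => (z i).1))
      (t := univ.filter fun ω : Om n M => Function.Injective ω ∧ Q (gO ω)) (by
        intro z hz
        simp only [coe_filter, mem_univ, true_and, Set.mem_ofPred_eq] at hz ⊢
        exact ⟨inj2_fst hz.1, hz.2⟩)
    rw [h1]
    have h2 : ∀ ω ∈ univ.filter (fun ω : Om n M => Function.Injective ω ∧ Q (gO ω)),
        ((univ.filter fun z : Fin M → Pr n × Pr n => Inj2 z ∧ Q (gO fun i => (z i).1)).filter
          fun z => (fun i => (z i).1) = ω).card =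
        (univ.filter fun z : Fin M → Pr n × Pr n => Inj2 z ∧ (fun i => (z i).1) = ω0).card := by
      intro ω hω
      simp only [mem_filter, mem_univ, true_and] at hω
      rw [← le_antisymm (fib_le hω.1 h0) (fib_le h0 hω.1)]
      congr 1
      ext z
      simp only [mem_filter, mem_univ, true_and]
      constructor
      · rintro ⟨⟨h3, _⟩, h4⟩
        exact ⟨h3, h4⟩
      · rintro ⟨h3, h4⟩
        refine ⟨⟨h3, ?_⟩, h4⟩
        rw [h4]
        exact hω.2
    rw [Finset.sum_congr rfl h2, Finset.sum_const, smul_eq_mul, count_inj]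
    ring
  · refine ⟨0, ?_⟩
    intro Q
    rw [zero_mul, Finset.card_eq_zero, Finset.filter_eq_empty_iff]
    intro z _ hz
    exact hex ⟨_, inj2_fst hz.1⟩

private theorem Ex_uni {n M : ℕ} (Φ : (Fin M → Pr n × Pr n) → ℝ) :
    Ex (uni (Pr n × Pr n)) Φ = (1 / (Fintype.card (Pr n × Pr n) : ℝ)) ^ M * ∑ z, Φ z := by
  unfold Ex uni
  simp only [Finset.prod_const, Finset.card_univ, Fintype.card_fin]
  rw [Finset.mul_sum]

open Classical in
theorem suc_lower {n M : ℕ} (Q : SimpleGraph (Fin n) → Prop) :
    ({G : SimpleGraph (Fin n) | G ∈ Graphs n M ∧ Q G}.ncard : ℝ) / (Graphs n M).ncard *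
      (Ex (uni (Pr n × Pr n)) fun z : Fin M → Pr n × Pr n => if Inj2 z then 1 else 0) ≤
      Ex (uni (Pr n × Pr n)) fun z : Fin M → Pr n × Pr n =>
        (if Inj2 z then 1 else 0) * Ex half fun x => if Q (gO (sel z x)) then 1 else 0 := by
  obtain ⟨c, hc⟩ := cnt_all n M
  set w : ℝ := (1 / (Fintype.card (Pr n × Pr n) : ℝ)) ^ M with hw
  have hw0 : 0 ≤ w := by positivity
  have hR : (Ex (uni (Pr n × Pr n)) fun z : Fin M → Pr n × Pr n =>
      (if Inj2 z then 1 else 0) * Ex half fun x => if Q (gO (sel z x)) then 1 else 0) =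
      w * (c * ({G : SimpleGraph (Fin n) | G ∈ Graphs n M ∧ Q G}.ncard : ℝ)) := by
    have h1 : (Ex (uni (Pr n × Pr n)) fun z : Fin M → Pr n × Pr n =>
        (if Inj2 z then 1 else 0) * Ex half fun x => if Q (gO (sel z x)) then 1 else 0) =
        Ex (uni (Pr n × Pr n)) fun z : Fin M → Pr n × Pr n =>
          Ex half fun x => (if Inj2 z then 1 else 0) * if Q (gO (sel z x)) then 1 else 0 := by
      congr 1
      funext z
      rw [Ex_mul]
    rw [h1, Ex_swap]
    have h2 : (fun x : Fin M → Bool => Ex (uni (Pr n × Pr n)) fun z : Fin M → Pr n × Pr n =>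
        ((if Inj2 z then 1 else 0) * if Q (gO (sel z x)) then 1 else 0 : ℝ)) =
        fun _ => w * (c * ({G : SimpleGraph (Fin n) | G ∈ Graphs n M ∧ Q G}.ncard : ℝ)) := by
      funext x
      rw [Ex_uni, ← hw]
      congr 1
      have h3 := hc Q
      rw [← cnt_x Q x] at h3
      have h4 : ((univ.filter fun z : Fin M → Pr n × Pr n => Inj2 z ∧ Q (gO (sel z x))).card : ℝ) =
          c * ({G : SimpleGraph (Fin n) | G ∈ Graphs n M ∧ Q G}.ncard : ℝ) := by
        exact_mod_cast h3
      rw [← h4, Finset.card_filter]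
      push_cast
      apply Finset.sum_congr rfl
      intro z _
      by_cases h5 : Inj2 z <;> by_cases h6 : Q (gO (sel z x)) <;> simp [h5, h6]
    rw [h2, Ex_const half_sum]
  have hI : (Ex (uni (Pr n × Pr n)) fun z : Fin M → Pr n × Pr n => if Inj2 z then (1 : ℝ) else 0) =
      w * (c * ((Graphs n M).ncard : ℝ)) := by
    rw [Ex_uni, ← hw]
    congr 1
    have h3 := hc fun _ => True
    simp only [and_true] at h3
    have h4 : ((univ.filter fun z : Fin M → Pr n × Pr n => Inj2 z).card : ℝ) =
        c * ((Graphs n M).ncard : ℝ) := by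
      exact_mod_cast h3
    rw [← h4, Finset.card_filter]
    push_cast
    rfl
  rw [hR, hI]
  rcases Nat.eq_zero_or_pos (Graphs n M).ncard with h0 | h0
  · rw [h0]
    simp only [Nat.cast_zero, div_zero, zero_mul]
    positivity
  · have h1 : ((Graphs n M).ncard : ℝ) ≠ 0 := by positivity
    apply le_of_eq
    field_simp

end Pool.Agent.ACL
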