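import Pool.Agent.ACL.InsP
import Pool.Agent.ACL.NoiB
import Pool.Agent.ACL.Sel
import Pool.Agent.ACL.InjC
import Pool.Agent.ACL.SucB
import Pool.Agent.ACL.InpA
import Pool.Agent.ACL.Grf
import Pool.Agent.ACL.NumX
import Pool.Agent.ACL.Core
import Pool.Agent.ACL.Rnd

set_option autoImplicit false

/-!
# ACL-Det: the lower bound for deterministic circuits
-/

namespace Pool.Agent.ACL

open Finset Pool.Agent.INS

section

variable {n M s : ℕ}

/-- the output bits as functions of the bits `x` -/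
noncomputable def fz (C : Circ (Fin n × Fin n) s) (D : ℕ) (out : Fin n → Fin s)
    (z : Fin M → Pr n × Pr n) (x : Fin M → Bool) (v : Fin n) : Bool :=
  C.val (adj (gO (sel z x))) D (out v)

theorem outS_eq (C : Circ (Fin n × Fin n) s) (D : ℕ) (out : Fin n → Fin s)
    (z : Fin M → Pr n × Pr n) (x : Fin M → Bool) :
    outS C D out (gO (sel z x)) = univ.filter fun v => fz C D out z x v = true := rfl

open Classical in
theorem bad_le {t : ℕ} (ht : 1 ≤ t) (C : Circ (Fin n × Fin n) s) (D : ℕ) (out : Fin n → Fin s)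
    {z : Fin M → Pr n × Pr n} (hz : Inj2 z) :
    Ex (rw1 ((1 / (16 * (t : ℝ))) ^ D)) (fun τ =>
      if ∀ v, HasDT t (fun x => fz C D out z (ap τ x) v) then 0 else 1) ≤ D * s * (1 / 2) ^ t := by
  have h := rounds (V := Fin M) ht C (fun e x => adj (gO (sel z x)) e)
    (fun e => hasDT_mono ht (adj_dt hz e)) D
  refine le_trans (Ex_mono (fun a => rw1_nonneg (by positivity) ?_ a) fun τ => ?_) h
  · apply pow_le_one₀ (by positivity)
    rw [div_le_one (by positivity)]
    have : (1 : ℝ) ≤ t := by exact_mod_cast ht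
    linarith
  · by_cases hτ : ∀ g, HasDT t (fun x => C.val (fun e => adj (gO (sel z (ap τ x))) e) D g)
    · have h' : ∀ v, HasDT t (fun x => fz C D out z (ap τ x) v) := fun v => hτ (out v)
      rw [if_pos hτ, if_pos h']
    · rw [if_neg hτ]
      split_ifs <;> norm_num

end

open Classical in
theorem det {ε : ℝ} (hε : 0 < ε) : ∃ k₀ : ℕ, ∀ k : ℕ, k₀ ≤ k → ∀ γ : ℝ, 0 < γ →
    ∃ n₀ : ℕ, ∀ n : ℕ, n₀ ≤ n → ∀ (s D t : ℕ) (C : Circ (Fin n × Fin n) s) (out : Fin n → Fin s),
      1 ≤ t → (16 * (t : ℝ)) ^ (D + 3) ≤ (n : ℝ) ^ (1 - γ) →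
      ({G : SimpleGraph (Fin n) | G ∈ Graphs n (Mk ε k n) ∧ Finds (outS C D out) k G}.ncard : ℝ) /
        (Graphs n (Mk ε k n)).ncard ≤ (D * s + 1) * (1 / 2) ^ t := by
  have hcc : 0 < INS.cc ε := by
    obtain ⟨h1, _, h3, _⟩ := INS.be_pos hε
    have h4 : (0 : ℝ) < INS.KK ε := by exact_mod_cast h3
    unfold INS.cc
    apply lt_min h1
    positivity
  obtain ⟨k1, h1⟩ := gapP hε
  refine ⟨max k1 3, fun k hk γ hγ => ?_⟩
  have hk1 : k1 ≤ k := (le_max_left _ _).trans hk
  have hk3 : 3 ≤ k := (le_max_right _ _).trans hk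
  obtain ⟨n1, g1⟩ := h1 k hk1
  obtain ⟨n2, g2⟩ := numX hε hγ hcc hk3
  refine ⟨max n1 n2, fun n hn s D t C out ht hD => ?_⟩
  obtain ⟨hN4, hN0, g3⟩ := g2 n ((le_max_right _ _).trans hn)
  obtain ⟨r, θ, β, hr0, hr1, hθ, hβ, hξ, hnum⟩ := g3 D t ht hD
  have g4 := g1 n ((le_max_left _ _).trans hn)
  have hMk : Mk ε k n = INS.Mk ε k n := rfl
  rw [hMk]
  set M := INS.Mk ε k n with hM
  set F := outS C D out with hF
  set Φ : Om n M → Finset (Fin n) := fun ω => F (gO ω) with hΦ
  set x0 : ℝ := (n : ℝ) / k with hx0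
  set y0 : ℝ := INS.cc ε * x0 with hy0
  set π : ℝ := (1 / (16 * (t : ℝ))) ^ D with hπ
  set η : ℝ := π * r / 2 with hη
  set c' : ℝ := INS.cc ε / k ^ 2 with hc'
  set δ : ℝ := D * s * (1 / 2) ^ t with hδ
  set ξ : ℝ := ((n : ℝ) * t / θ * r) ^ t with hξdef
  set K : ℝ := ((2 * M + 1 : ℕ) : ℝ) ^ t with hK
  set tl : ℝ := Real.exp (-(β * y0 / θ) + r * Real.exp β * (n * t / θ)) with htl
  have htr : (1 : ℝ) ≤ t := by exact_mod_cast ht
  have hπ0 : 0 ≤ π := by positivity
  have hπ1 : π ≤ 1 := by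
    apply pow_le_one₀ (by positivity)
    rw [div_le_one (by positivity)]
    linarith
  have hη0 : 0 ≤ η := by positivity
  have hη1 : η ≤ 1 := by
    have : π * r ≤ 1 := mul_le_one₀ hπ1 hr0 hr1
    rw [hη]
    linarith
  have hK0 : 0 ≤ K := by positivity
  have huni : ∀ a : Pr n × Pr n, 0 ≤ uni (Pr n × Pr n) a := fun a => by
    unfold uni
    positivity
  have huni1 : ∀ a : Pr n, 0 ≤ uni (Pr n) a := fun a => by
    unfold uni
    positivity
  -- the indicator of injectivity and the success probability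
  set κ : (Fin M → Pr n × Pr n) → ℝ := fun z => if Inj2 z then 1 else 0 with hκ
  set S : (Fin M → Pr n × Pr n) → (Fin M → Bool) → Prop := fun z x => Finds F k (gO (sel z x))
    with hS
  set μ : (Fin M → Pr n × Pr n) → ℝ := fun z => Ex half fun x => if S z x then 1 else 0 with hμ
  set near : (Fin M → Pr n × Pr n) → ℝ := fun z => Ex half fun X => Ex (bern η) fun Λ =>
    if S z X ∧ S z (fl X Λ) ∧ (ds (fz C D out z X) (fz C D out z (fl X Λ)) : ℝ) ≤ y0 then 1 else 0
    with hnear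
  have hκ01 : ∀ z, κ z = 0 ∨ κ z = 1 := fun z => by
    simp only [hκ]
    split_ifs
    · exact Or.inr rfl
    · exact Or.inl rfl
  have hκsq : ∀ z, κ z ^ 2 = κ z := fun z => by
    rcases hκ01 z with h | h <;> rw [h] <;> norm_num
  have hκ0 : ∀ z, 0 ≤ κ z := fun z => by
    rcases hκ01 z with h | h <;> rw [h]
    norm_num
  -- the core inequality
  have hcore : ∀ z, κ z * (max (μ z - δ - ξ) 0) ^ 2 ≤ K * (κ z * near z) + K * tl * κ z := by
    intro z
    by_cases hz : Inj2 z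
    · have e1 : κ z = 1 := by
        simp only [hκ]
        rw [if_pos hz]
      have e2 := core (V := Fin M) (n := n) (t := t) (fz C D out z) (S z) (π := π) (δ := δ) (r := r)
        (θ := θ) (β := β) (y := y0) hπ0 hπ1 (bad_le ht C D out hz) hr0 hr1 hθ hβ t
      rw [Fintype.card_fin] at e2
      rw [e1, one_mul, one_mul, mul_one]
      exact e2
    · have e1 : κ z = 0 := by
        simp only [hκ]
        rw [if_neg hz]
      rw [e1]
      simp
  -- averages over z
  set E0 : ℝ := Ex (uni (Pr n × Pr n)) κ with hE0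
  set EY : ℝ := Ex (uni (Pr n × Pr n)) fun z => κ z * max (μ z - δ - ξ) 0 with hEY
  set EY2 : ℝ := Ex (uni (Pr n × Pr n)) fun z => κ z * (max (μ z - δ - ξ) 0) ^ 2 with hEY2
  set En : ℝ := Ex (uni (Pr n × Pr n)) fun z => κ z * near z with hEn
  have hE0pos : Real.exp (-(8 * (M : ℝ) ^ 2 / NN n)) ≤ E0 := inj2_lower hN4 hN0
  have hE0p : 0 < E0 := lt_of_lt_of_le (Real.exp_pos _) hE0pos
  have hcs : EY ^ 2 ≤ E0 * EY2 := by
    have e1 := Ex_cs huni κ (fun z => κ z * max (μ z - δ - ξ) 0)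
    have e2 : (fun z => κ z * (κ z * max (μ z - δ - ξ) 0)) = fun z => κ z * max (μ z - δ - ξ) 0 := by
      funext z
      rw [← mul_assoc, ← sq, hκsq]
    have e3 : (fun z => κ z ^ 2) = κ := funext hκsq
    have e4 : (fun z => (κ z * max (μ z - δ - ξ) 0) ^ 2) =
        fun z => κ z * (max (μ z - δ - ξ) 0) ^ 2 := by
      funext z
      rw [mul_pow, hκsq]
    rw [e2, e3, e4] at e1
    exact e1
  have hup : EY2 ≤ K * En + K * tl * E0 := by
    calc EY2 ≤ Ex (uni (Pr n × Pr n)) fun z => K * (κ z * near z) + K * tl * κ z :=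
          Ex_mono huni hcore
      _ = K * En + K * tl * E0 := by
          rw [Ex_add, Ex_mul, Ex_mul]
  -- success probability
  set p : ℝ := ({G : SimpleGraph (Fin n) | G ∈ Graphs n M ∧ Finds F k G}.ncard : ℝ) /
        (Graphs n M).ncard with hp
  have hsuc : p * E0 ≤ Ex (uni (Pr n × Pr n)) fun z => κ z * μ z := suc_lower (M := M) (Finds F k)
  have hlow : (p - δ - ξ) * E0 ≤ EY := by
    calc (p - δ - ξ) * E0 = p * E0 - (δ + ξ) * E0 := by ring
      _ ≤ (Ex (uni (Pr n × Pr n)) fun z => κ z * μ z) - (δ + ξ) * E0 := by linarith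
      _ = Ex (uni (Pr n × Pr n)) fun z => κ z * μ z - (δ + ξ) * κ z := by
          rw [Ex_sub, Ex_mul]
      _ ≤ EY := by
          refine Ex_mono huni fun z => ?_
          have e1 : κ z * μ z - (δ + ξ) * κ z = κ z * (μ z - δ - ξ) := by ring
          rw [e1]
          exact mul_le_mul_of_nonneg_left (le_max_left _ _) (hκ0 z)
  -- near pairs are rare
  have hnoise : En ≤ Real.exp (-(η * M * (1 - Real.exp (η - c')))) := by
    have e1 : ∀ d : ℕ, 1 ≤ d → d ≤ M →
      ∑ Λ ∈ (univ : Finset (Fin M → Bool)).filter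
        (fun Λ => (univ.filter fun i => Λ i = true).card = d), qq Φ x0 y0 Λ ≤
      Real.exp (-(c' * d)) * ((M : ℝ) ^ d / d.factorial) := by
      intro d hd hdM
      refine sum_qq Φ x0 y0 c' d hd ?_
      have e2 := g4 Φ d hd hdM
      have e3 : c' * d = INS.cc ε * d / k ^ 2 := by
        rw [hc']
        ring
      rw [e3]
      exact e2
    refine le_trans ?_ (noise Φ x0 y0 c' η hη0 hη1 e1)
    rw [← sel_push (M := M) η (fun ω ω' => if Gd Φ x0 y0 ω ω' then (1 : ℝ) else 0)]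
    refine Ex_mono huni fun z => ?_
    by_cases hz : Inj2 z
    · have e4 : κ z = 1 := by
        simp only [hκ]
        rw [if_pos hz]
      rw [e4, one_mul]
      refine Ex_mono half_nonneg fun X => Ex_mono (bern_nonneg hη0 hη1) fun Λ => ?_
      by_cases h5 : S z X ∧ S z (fl X Λ) ∧
          (ds (fz C D out z X) (fz C D out z (fl X Λ)) : ℝ) ≤ y0
      · rw [if_pos h5, if_pos]
        refine ⟨finds_ok F (sel_inj hz X) h5.1, finds_ok F (sel_inj hz _) h5.2.1, ?_⟩
        have h6 := h5.2.2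
        rw [← sd_ds] at h6
        exact h6
      · rw [if_neg h5]
        split_ifs <;> norm_num
    · have e4 : κ z = 0 := by
        simp only [hκ]
        rw [if_neg hz]
      rw [e4, zero_mul]
      refine Ex_nonneg half_nonneg fun X => Ex_nonneg (bern_nonneg hη0 hη1) fun Λ => ?_
      split_ifs <;> norm_num
  -- conclusion
  have hq : p - δ - ξ ≤ (1 / 2) ^ t / 2 := by
    by_contra hcon
    push Not at hcon
    have hhalf : (0 : ℝ) < (1 / 2) ^ t / 2 := by positivity
    have hq0 : 0 < p - δ - ξ := hhalf.trans hcon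
    have e1 : ((p - δ - ξ) * E0) ^ 2 ≤ E0 * (K * En + K * tl * E0) := by
      calc ((p - δ - ξ) * E0) ^ 2 ≤ EY ^ 2 := pow_le_pow_left₀ (by positivity) hlow 2
        _ ≤ E0 * EY2 := hcs
        _ ≤ E0 * (K * En + K * tl * E0) := mul_le_mul_of_nonneg_left hup hE0p.le
    have e2 : (p - δ - ξ) ^ 2 * E0 ≤ K * En + K * tl * E0 := by
      have : E0 * ((p - δ - ξ) ^ 2 * E0) ≤ E0 * (K * En + K * tl * E0) := by
        calc E0 * ((p - δ - ξ) ^ 2 * E0) = ((p - δ - ξ) * E0) ^ 2 := by ring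
          _ ≤ _ := e1
      exact le_of_mul_le_mul_left this hE0p
    have e3 : (p - δ - ξ) ^ 2 ≤ K * (En * Real.exp (8 * (M : ℝ) ^ 2 / NN n)) + K * tl := by
      have f1 : En ≤ En * Real.exp (8 * (M : ℝ) ^ 2 / NN n) * E0 := by
        have f2 : 0 ≤ En := Ex_nonneg huni fun z => mul_nonneg (hκ0 z)
          (Ex_nonneg half_nonneg fun X => Ex_nonneg (bern_nonneg hη0 hη1) fun Λ => by
            split_ifs <;> norm_num)
        have f3 : 1 ≤ Real.exp (8 * (M : ℝ) ^ 2 / NN n) * E0 := by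
          calc (1 : ℝ) = Real.exp (8 * (M : ℝ) ^ 2 / NN n) * Real.exp (-(8 * (M : ℝ) ^ 2 / NN n)) := by
                rw [← Real.exp_add]
                simp
            _ ≤ _ := mul_le_mul_of_nonneg_left hE0pos (Real.exp_pos _).le
        calc En = En * 1 := (mul_one _).symm
          _ ≤ En * (Real.exp (8 * (M : ℝ) ^ 2 / NN n) * E0) := mul_le_mul_of_nonneg_left f3 f2
          _ = _ := by ring
      have f4 : (p - δ - ξ) ^ 2 * E0 ≤
          (K * (En * Real.exp (8 * (M : ℝ) ^ 2 / NN n)) + K * tl) * E0 := by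
        calc (p - δ - ξ) ^ 2 * E0 ≤ K * En + K * tl * E0 := e2
          _ ≤ K * (En * Real.exp (8 * (M : ℝ) ^ 2 / NN n) * E0) + K * tl * E0 := by
              have := mul_le_mul_of_nonneg_left f1 hK0
              linarith
          _ = _ := by ring
      exact le_of_mul_le_mul_right f4 hE0p
    have e4 : K * (En * Real.exp (8 * (M : ℝ) ^ 2 / NN n)) + K * tl ≤ ((1 / 2) ^ t / 2) ^ 2 := by
      refine le_trans ?_ hnum
      refine add_le_add (mul_le_mul_of_nonneg_left ?_ hK0) le_rfl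
      calc En * Real.exp (8 * (M : ℝ) ^ 2 / NN n) ≤
          Real.exp (-(η * M * (1 - Real.exp (η - c')))) * Real.exp (8 * (M : ℝ) ^ 2 / NN n) :=
            mul_le_mul_of_nonneg_right hnoise (Real.exp_pos _).le
        _ = Real.exp (8 * (M : ℝ) ^ 2 / NN n - η * M * (1 - Real.exp (η - c'))) := by
            rw [← Real.exp_add]
            congr 1
            ring
    have e5 := e3.trans e4
    have e6 := pow_lt_pow_left₀ hcon hhalf.le (two_ne_zero)
    exact absurd e5 (not_le.2 e6)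
  have hfin : p ≤ δ + ξ + (1 / 2) ^ t / 2 := by linarith
  calc p ≤ δ + ξ + (1 / 2) ^ t / 2 := hfin
    _ ≤ δ + (1 / 2) ^ t / 2 + (1 / 2) ^ t / 2 := by linarith
    _ = (D * s + 1) * (1 / 2) ^ t := by
        rw [hδ]
        ring

end Pool.Agent.ACL
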