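import Pool.Agent.ACL.Defs

set_option autoImplicit false

/-!
# ACL-DtB: a decision tree as a disjunctive normal form
-/

namespace Pool.Agent.ACL

section

variable {V : Type} [Fintype V] [DecidableEq V]

/-- the terms of `F` together with the condition that the variable `v` has the value `b` -/
private def wth (F : List (Rst V)) (v : V) (b : Bool) : List (Rst V) :=
  (F.filter fun T => decide (T v ≠ some (!b))).map fun T => Function.update T v (some b)

omit [Fintype V] in
private theorem dnf_wth (F : List (Rst V)) (v : V) (b : Bool) (x : V → Bool) :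
    Dnf (wth F v b) x ↔ x v = b ∧ Dnf F x := by
  unfold wth Dnf
  constructor
  · rintro ⟨S, hS, hx⟩
    obtain ⟨T, hT, rfl⟩ := List.mem_map.1 hS
    obtain ⟨hT1, hT2⟩ := List.mem_filter.1 hT
    have hT3 : T v ≠ some (!b) := by simpa using hT2
    have hv : x v = b := hx v b (Function.update_self v (some b) T)
    refine ⟨hv, T, hT1, fun w c hw => ?_⟩
    by_cases hwv : w = v
    · subst hwv
      have hcb : c = b := by
        by_contra hne
        apply hT3
        rw [hw]
        cases b <;> cases c <;> simp_all
      rw [hv, hcb]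
    · exact hx w c (by rw [Function.update_of_ne hwv]; exact hw)
  · rintro ⟨hv, T, hT, hx⟩
    refine ⟨Function.update T v (some b), List.mem_map.2 ⟨T, List.mem_filter.2 ⟨hT, ?_⟩, rfl⟩, ?_⟩
    · have : T v ≠ some (!b) := by
        intro h
        have h1 := hx v (!b) h
        rw [hv] at h1
        cases b <;> simp at h1
      simpa using this
    · intro w c hw
      by_cases hwv : w = v
      · subst hwv
        rw [Function.update_self] at hw
        rw [hv]
        exact Option.some.inj hw
      · rw [Function.update_of_ne hwv] at hw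
        exact hx w c hw

private theorem sup_wth {F : List (Rst V)} {v : V} {b : Bool} {t : ℕ} (hF : ∀ T ∈ F, (sup T).card ≤ t) :
    ∀ S ∈ wth F v b, (sup S).card ≤ t + 1 := by
  intro S hS
  obtain ⟨T, hT, rfl⟩ := List.mem_map.1 hS
  have h1 := hF T (List.mem_filter.1 hT).1
  have h2 : sup (Function.update T v (some b)) ⊆ insert v (sup T) := by
    intro w hw
    by_cases hwv : w = v
    · exact Finset.mem_insert.2 (Or.inl hwv)
    · refine Finset.mem_insert.2 (Or.inr ?_)
      unfold sup at hw ⊢
      rw [Finset.mem_filter, Function.update_of_ne hwv] at hw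
      exact Finset.mem_filter.2 hw
  calc (sup (Function.update T v (some b))).card ≤ (insert v (sup T)).card := Finset.card_le_card h2
    _ ≤ (sup T).card + 1 := Finset.card_insert_le _ _
    _ ≤ t + 1 := by omega

private theorem dnf_tree (T : DT V) :
    ∃ F : List (Rst V), (∀ S ∈ F, (sup S).card ≤ T.dp) ∧ ∀ x, Dnf F x ↔ T.ev x = true := by
  induction T with
  | leaf b =>
    cases b with
    | false =>
      refine ⟨[], fun S hS => absurd hS List.not_mem_nil, fun x => ?_⟩
      constructor
      · rintro ⟨S, hS, -⟩
        exact absurd hS List.not_mem_nil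
      · intro h
        exact absurd h Bool.false_ne_true
    | true =>
      refine ⟨[fun _ => none], fun S hS => ?_, fun x => ?_⟩
      · rw [List.mem_singleton] at hS
        subst hS
        simp [sup]
      · constructor
        · intro _
          rfl
        · intro _
          exact ⟨fun _ => none, List.mem_singleton.2 rfl, fun v b h => absurd h (by simp)⟩
  | node v l r ihl ihr =>
    obtain ⟨Fl, hl1, hl2⟩ := ihl
    obtain ⟨Fr, hr1, hr2⟩ := ihr
    refine ⟨wth Fl v false ++ wth Fr v true, fun S hS => ?_, fun x => ?_⟩
    · show (sup S).card ≤ max l.dp r.dp + 1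
      rcases List.mem_append.1 hS with h | h
      · exact le_trans (sup_wth hl1 S h) (by omega)
      · exact le_trans (sup_wth hr1 S h) (by omega)
    · have h1 : Dnf (wth Fl v false ++ wth Fr v true) x ↔
          Dnf (wth Fl v false) x ∨ Dnf (wth Fr v true) x := by
        unfold Dnf
        constructor
        · rintro ⟨S, hS, hx⟩
          rcases List.mem_append.1 hS with h | h
          · exact Or.inl ⟨S, h, hx⟩
          · exact Or.inr ⟨S, h, hx⟩
        · rintro (⟨S, hS, hx⟩ | ⟨S, hS, hx⟩)
          · exact ⟨S, List.mem_append.2 (Or.inl hS), hx⟩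
          · exact ⟨S, List.mem_append.2 (Or.inr hS), hx⟩
      rw [h1, dnf_wth, dnf_wth, hl2, hr2]
      show _ ↔ (if x v then r.ev x else l.ev x) = true
      cases hv : x v <;> simp

theorem dnf_of_hasDT {t : ℕ} {f : (V → Bool) → Bool} (hf : HasDT t f) :
    ∃ F : List (Rst V), (∀ T ∈ F, (sup T).card ≤ t) ∧ ∀ x, Dnf F x ↔ f x = true := by
  obtain ⟨T, hT, hx⟩ := hf
  obtain ⟨F, h1, h2⟩ := dnf_tree T
  exact ⟨F, fun S hS => le_trans (h1 S hS) hT, fun x => by rw [h2, hx]⟩

end

end Pool.Agent.ACL
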