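import Pool.Agent.ACL.DtA

set_option autoImplicit false

/-!
# ACL-DtC: the canonical decision tree

PLAN.  `hasDT_query`: induction on the finset `K`: for `insert v K` ask `v` first; for the answer `b` the function `x ↦ f (x with x v := b)` has a tree of depth
`K.card + d` by induction (the assumption for `P` or `insert v P`, `P ⊆ K`).
`hasDT_cd`: induction on `F`.  `[]`: constant `false`.  `T :: F`: if `Fls T ρ` then `T` is not satisfied by `ap ρ x`, so `Dnf (T :: F) ↔ Dnf F`.  If not
`Fls T ρ` and `Kf T ρ = ∅` then `ρ` satisfies `T` and the value is constantly `true`.  Otherwise `hasDT_query` for `K = Kf T ρ`: for `P ⊆ K`,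
`ap ρ (ap (fill (fun _ => none) K P) x) = ap (fill ρ K P) x` (the variables in `K` are free in `ρ`), all variables of `T` are fixed by `fill ρ K P`, so `T` is constantly
satisfied (value `true`, depth `0`) or never satisfied (value `Dnf F (ap (fill ρ K P) x)`, depth `cd F (fill ρ K P) ≤` the supremum, `Finset.le_sup`).
-/

namespace Pool.Agent.ACL

open Finset

section

variable {V : Type} [Fintype V] [DecidableEq V]

private theorem dtc_upd (K P : Finset V) (v : V) (hv : v ∉ K) (hP : P ⊆ K) (b : Bool) (x : V → Bool) :
    Function.update (ap (fill (fun _ => none) K P) x) v b =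
      ap (fill (fun _ => none) (insert v K) (if b then insert v P else P)) x := by
  funext w
  have hvP : v ∉ P := fun h => hv (hP h)
  by_cases hw : w = v
  · subst hw
    rw [Function.update_self]
    unfold ap fill
    rw [if_pos (Finset.mem_insert_self _ _)]
    cases b <;> simp [hvP]
  · rw [Function.update_of_ne hw]
    unfold ap fill
    by_cases hK : w ∈ K
    · rw [if_pos hK, if_pos (Finset.mem_insert_of_mem hK)]
      cases b <;> simp [hw]
    · have h2 : w ∉ insert v K := by
        rw [Finset.mem_insert]
        rintro (h | h)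
        · exact hw h
        · exact hK h
      rw [if_neg hK, if_neg h2]

theorem hasDT_query (K : Finset V) (d : ℕ) (f : (V → Bool) → Bool)
    (h : ∀ P ⊆ K, HasDT d (fun x => f (ap (fill (fun _ => none) K P) x))) : HasDT (K.card + d) f := by
  induction K using Finset.induction_on generalizing f with
  | empty =>
    have h1 := h ∅ (Finset.Subset.refl _)
    have h2 : (fun x => f (ap (fill (fun _ => none) ∅ ∅) x)) = f := by
      funext x
      congr 1
    rw [h2] at h1
    rw [Finset.card_empty, zero_add]
    exact h1
  | insert v K hv ih =>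
    have h1 : ∀ b : Bool, HasDT (K.card + d) (fun x => f (Function.update x v b)) := by
      intro b
      apply ih
      intro P hP
      have h2 := h (if b then insert v P else P) (by
        cases b
        · exact hP.trans (Finset.subset_insert _ _)
        · exact Finset.insert_subset_insert _ hP)
      have h3 : (fun x => f (Function.update (ap (fill (fun _ => none) K P) x) v b)) =
          fun x => f (ap (fill (fun _ => none) (insert v K) (if b then insert v P else P)) x) := by
        funext x
        rw [dtc_upd K P v hv hP b x]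
      rw [h3]
      exact h2
    obtain ⟨T0, hT0, hT0'⟩ := h1 false
    obtain ⟨T1, hT1, hT1'⟩ := h1 true
    refine ⟨DT.node v T0 T1, ?_, ?_⟩
    · rw [Finset.card_insert_of_notMem hv]
      show max T0.dp T1.dp + 1 ≤ K.card + 1 + d
      have := max_le hT0 hT1
      omega
    · intro x
      show (if x v then T1.ev x else T0.ev x) = f x
      have hup : ∀ b, x v = b → f (Function.update x v b) = f x := by
        intro b hb
        rw [← hb, Function.update_eq_self]
      cases hx : x v
      · rw [if_neg (by simp), hT0' x]
        exact hup false hx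
      · rw [if_pos rfl, hT1' x]
        exact hup true hx

omit [Fintype V] [DecidableEq V] in
private theorem dtc_a {T ρ : Rst V} (F : List (Rst V)) (h : Fls T ρ) (x : V → Bool) :
    Dnf (T :: F) (ap ρ x) ↔ Dnf F (ap ρ x) := by
  unfold Dnf
  constructor
  · rintro ⟨S, hS, hS2⟩
    rcases List.mem_cons.1 hS with h1 | h1
    · subst h1
      obtain ⟨v, b, hv, hb⟩ := h
      have h2 := hS2 v b hv
      unfold ap at h2
      rw [hb] at h2
      cases b <;> simp at h2
    · exact ⟨S, h1, hS2⟩
  · rintro ⟨S, hS, hS2⟩
    exact ⟨S, List.mem_cons_of_mem _ hS, hS2⟩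

private theorem dtc_b {T ρ : Rst V} (F : List (Rst V)) (h : ¬ Fls T ρ) (hK : Kf T ρ = ∅) (x : V → Bool) :
    Dnf (T :: F) (ap ρ x) := by
  refine ⟨T, List.mem_cons_self, ?_⟩
  intro v b hv
  unfold ap
  cases hr : ρ v with
  | none =>
    have h1 : v ∈ Kf T ρ := by
      unfold Kf
      rw [Finset.mem_filter]
      exact ⟨Finset.mem_univ _, by rw [hv]; simp, hr⟩
    rw [hK] at h1
    exact absurd h1 (Finset.notMem_empty _)
  | some c =>
    show c = b
    by_contra hne
    apply h
    refine ⟨v, b, hv, ?_⟩
    rw [hr]
    cases b <;> cases c <;> simp_all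

private theorem dtc_c (T ρ : Rst V) (P : Finset V) : Kf T (fill ρ (Kf T ρ) P) = ∅ := by
  rw [Finset.eq_empty_iff_forall_notMem]
  intro v hv
  have h1 := (Finset.mem_filter.1 hv).2
  by_cases hK : v ∈ Kf T ρ
  · have h2 : fill ρ (Kf T ρ) P v = some (decide (v ∈ P)) := by
      unfold fill
      rw [if_pos hK]
    rw [h2] at h1
    exact absurd h1.2 (by simp)
  · have h2 : fill ρ (Kf T ρ) P v = ρ v := by
      unfold fill
      rw [if_neg hK]
    rw [h2] at h1
    apply hK
    unfold Kf
    rw [Finset.mem_filter]
    exact ⟨Finset.mem_univ _, h1⟩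

private theorem dtc_d (ρ : Rst V) (K P : Finset V) (hK : ∀ v ∈ K, ρ v = none) (x : V → Bool) :
    ap ρ (ap (fill (fun _ => none) K P) x) = ap (fill ρ K P) x := by
  funext w
  unfold ap fill
  by_cases hw : w ∈ K
  · rw [if_pos hw, if_pos hw, hK w hw]
    rfl
  · rw [if_neg hw, if_neg hw]
    rfl

open Classical in
theorem hasDT_cd (F : List (Rst V)) (ρ : Rst V) :
    HasDT (cd F ρ) (fun x => decide (Dnf F (ap ρ x))) := by
  induction F generalizing ρ with
  | nil =>
    have h1 : (fun x => decide (Dnf ([] : List (Rst V)) (ap ρ x))) = fun _ => false := by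
      funext x
      apply decide_eq_false
      rintro ⟨S, hS, -⟩
      exact absurd hS List.not_mem_nil
    rw [h1]
    exact hasDT_mono (Nat.zero_le _) (hasDT_const false)
  | cons T F ih =>
    by_cases h1 : Fls T ρ
    · have h2 : cd (T :: F) ρ = cd F ρ := by
        rw [cd, if_pos h1]
      have h3 : (fun x => decide (Dnf (T :: F) (ap ρ x))) = fun x => decide (Dnf F (ap ρ x)) := by
        funext x
        exact decide_eq_decide.2 (dtc_a F h1 x)
      rw [h2, h3]
      exact ih ρ
    · by_cases h2 : Kf T ρ = ∅
      · have h3 : (fun x => decide (Dnf (T :: F) (ap ρ x))) = fun _ => true := by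
          funext x
          exact decide_eq_true (dtc_b F h1 h2 x)
        rw [h3]
        exact hasDT_mono (Nat.zero_le _) (hasDT_const true)
      · have h3 : cd (T :: F) ρ = (Kf T ρ).card +
            (Kf T ρ).powerset.sup fun P => cd F (fill ρ (Kf T ρ) P) := by
          rw [cd, if_neg h1, if_neg h2]
        rw [h3]
        apply hasDT_query
        intro P hP
        have hKn : ∀ v ∈ Kf T ρ, ρ v = none := fun v hv => (Finset.mem_filter.1 hv).2.2
        have h4 : (fun x => decide (Dnf (T :: F) (ap ρ (ap (fill (fun _ => none) (Kf T ρ) P) x)))) =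
            fun x => decide (Dnf (T :: F) (ap (fill ρ (Kf T ρ) P) x)) := by
          funext x
          rw [dtc_d ρ (Kf T ρ) P hKn x]
        rw [h4]
        by_cases h5 : Fls T (fill ρ (Kf T ρ) P)
        · have h6 : (fun x => decide (Dnf (T :: F) (ap (fill ρ (Kf T ρ) P) x))) =
              fun x => decide (Dnf F (ap (fill ρ (Kf T ρ) P) x)) := by
            funext x
            exact decide_eq_decide.2 (dtc_a F h5 x)
          rw [h6]
          refine hasDT_mono ?_ (ih (fill ρ (Kf T ρ) P))
          exact Finset.le_sup (f := fun P => cd F (fill ρ (Kf T ρ) P)) (Finset.mem_powerset.2 hP)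
        · have h6 : (fun x => decide (Dnf (T :: F) (ap (fill ρ (Kf T ρ) P) x))) = fun _ => true := by
            funext x
            exact decide_eq_true (dtc_b F h5 (dtc_c T ρ P) x)
          rw [h6]
          exact hasDT_mono (Nat.zero_le _) (hasDT_const true)

end

end Pool.Agent.ACL
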