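import Pool.Agent.ACL.Det
import Pool.Agent.ACL.CorA
import Pool.Agent.ACL.CorB

set_option autoImplicit false

/-!
# ACL-Fin: randomised circuits, corollaries
-/

namespace Pool.Agent.ACL

open Finset Filter

section aux

variable {Ω X : Type} [Fintype Ω] [Finite X]

private theorem ncard_pairs (S : Ω → Set X) :
    {p : Ω × X | p.2 ∈ S p.1}.ncard = ∑ r, (S r).ncard := by
  classical
  have := Fintype.ofFinite X
  have h1 : ∀ r, (S r).ncard = (Finset.univ.filter (fun x => x ∈ S r)).card := by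
    intro r
    rw [← Set.ncard_coe_finset]
    refine congrArg Set.ncard ?_
    ext x
    simp
  simp_rw [h1]
  rw [← Finset.card_sigma, ← Set.ncard_coe_finset]
  refine Set.ncard_congr (fun p _ => ⟨p.1, p.2⟩) ?_ ?_ ?_
  · intro p hp
    simpa using hp
  · rintro ⟨a, b⟩ ⟨a', b'⟩ _ _ h
    simp only [Sigma.mk.injEq, heq_eq_eq] at h
    simp [h.1, h.2]
  · rintro ⟨a, b⟩ h
    exact ⟨(a, b), by simpa using h, rfl⟩

end aux

/-- the average over the seeds -/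
theorem succ_le {n k M : ℕ} {Ω : Type} [Fintype Ω] (F : Ω → SimpleGraph (Fin n) → Finset (Fin n))
    (b : ℝ) (hb : 0 ≤ b)
    (h : ∀ r, ({G : SimpleGraph (Fin n) | G ∈ Graphs n M ∧ Finds (F r) k G}.ncard : ℝ) /
      (Graphs n M).ncard ≤ b) : succ F k M ≤ b := by
  unfold succ
  have e1 := ncard_pairs (Ω := Ω) (fun r => {G : SimpleGraph (Fin n) |
      G ∈ Graphs n M ∧ Finds (F r) k G})
  simp only [Set.mem_ofPred_eq] at e1
  rw [e1]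
  rcases (Nat.cast_nonneg (Fintype.card Ω) : (0 : ℝ) ≤ (Fintype.card Ω : ℝ)).eq_or_lt with h0 | h0
  · rw [← h0]
    simp [hb]
  · rcases (Nat.cast_nonneg ((Graphs n M).ncard) : (0 : ℝ) ≤ ((Graphs n M).ncard : ℝ)).eq_or_lt
      with h1 | h1
    · rw [← h1]
      simp [hb]
    · rw [div_le_iff₀ (by positivity)]
      push_cast
      calc ∑ r, ({G : SimpleGraph (Fin n) | G ∈ Graphs n M ∧ Finds (F r) k G}.ncard : ℝ) ≤
          ∑ _r : Ω, b * (Graphs n M).ncard :=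
            Finset.sum_le_sum fun r _ => (div_le_iff₀ h1).1 (h r)
        _ = b * (Fintype.card Ω * (Graphs n M).ncard) := by
            rw [Finset.sum_const, Finset.card_univ, nsmul_eq_mul]
            ring

theorem main {ε : ℝ} (hε : 0 < ε) : ∃ k₀ : ℕ, ∀ k : ℕ, k₀ ≤ k → ∀ γ : ℝ, 0 < γ →
    ∃ n₀ : ℕ, ∀ n : ℕ, n₀ ≤ n → ∀ (Ω : Type) (_ : Fintype Ω) (s D t : ℕ)
      (C : Ω → Circ (Fin n × Fin n) s) (out : Ω → Fin n → Fin s),
      1 ≤ t → (16 * (t : ℝ)) ^ (D + 3) ≤ (n : ℝ) ^ (1 - γ) →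
      succ (fun r => outS (C r) D (out r)) k (Mk ε k n) ≤ (D * s + 1) * (1 / 2) ^ t := by
  obtain ⟨k₀, h⟩ := det hε
  refine ⟨k₀, fun k hk γ hγ => ?_⟩
  obtain ⟨n₀, h1⟩ := h k hk γ hγ
  refine ⟨n₀, fun n hn Ω _ s D t C out ht hD => ?_⟩
  exact succ_le _ _ (by positivity) fun r => h1 n hn s D t (C r) (out r) ht hD

theorem main_fixed {ε : ℝ} (hε : 0 < ε) : ∃ k₀ : ℕ, ∀ k : ℕ, k₀ ≤ k → ∀ γ : ℝ, 0 < γ → γ < 1 →
    ∀ D : ℕ, ∃ n₀ : ℕ, ∀ n : ℕ, n₀ ≤ n → ∀ (Ω : Type) (_ : Fintype Ω) (s : ℕ)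
      (C : Ω → Circ (Fin n × Fin n) s) (out : Ω → Fin n → Fin s),
      (s : ℝ) ≤ Real.exp ((n : ℝ) ^ ((1 - γ) / (D + 3))) →
      succ (fun r => outS (C r) D (out r)) k (Mk ε k n) ≤
        Real.exp (-((n : ℝ) ^ ((1 - γ) / (D + 3)))) := by
  obtain ⟨k₀, h⟩ := main hε
  refine ⟨k₀, fun k hk γ hγ hγ1 D => ?_⟩
  obtain ⟨n₁, h1⟩ := h k hk (γ / 2) (by positivity)
  obtain ⟨n₂, h2⟩ := eventually_atTop.1 (corA γ hγ hγ1 D)
  refine ⟨max n₁ n₂, fun n hn Ω _ s C out hs => ?_⟩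
  obtain ⟨t, ht, h3, h4⟩ := h2 n ((le_max_right _ _).trans hn)
  exact (h1 n ((le_max_left _ _).trans hn) Ω _ s D t C out ht h3).trans (h4 s hs)

theorem main_poly {ε : ℝ} (hε : 0 < ε) : ∃ k₀ : ℕ, ∀ k : ℕ, k₀ ≤ k → ∀ γ c : ℝ, 0 < γ → γ < 1 →
    0 < c → ∃ n₀ : ℕ, ∀ n : ℕ, n₀ ≤ n → ∀ (Ω : Type) (_ : Fintype Ω) (s D : ℕ)
      (C : Ω → Circ (Fin n × Fin n) s) (out : Ω → Fin n → Fin s),
      (s : ℝ) ≤ (n : ℝ) ^ c → (D : ℝ) ≤ (1 - γ) * Real.log n / Real.log (Real.log n) →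
      succ (fun r => outS (C r) D (out r)) k (Mk ε k n) ≤ (n : ℝ) ^ (-c) := by
  obtain ⟨k₀, h⟩ := main hε
  refine ⟨k₀, fun k hk γ c hγ hγ1 hc => ?_⟩
  obtain ⟨n₁, h1⟩ := h k hk (γ / 2) (by positivity)
  obtain ⟨n₂, h2⟩ := eventually_atTop.1 (corB γ c hγ hγ1 hc)
  refine ⟨max n₁ n₂, fun n hn Ω _ s D C out hs hD => ?_⟩
  obtain ⟨t, ht, h3⟩ := h2 n ((le_max_right _ _).trans hn)
  obtain ⟨h4, h5⟩ := h3 D hD
  exact (h1 n ((le_max_left _ _).trans hn) Ω _ s D t C out ht h4).trans (h5 s hs)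

end Pool.Agent.ACL
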