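import Pool.Agent.ACL.DtA
import Pool.Agent.ACL.DtB

set_option autoImplicit false

/-!
# ACL-Gat: a gate with shallow inputs is a narrow formula
-/

namespace Pool.Agent.ACL

section

variable {V : Type} [Fintype V] [DecidableEq V]

private theorem gat_lit {t : ℕ} {f : (V → Bool) → Bool} (hf : HasDT t f) (b c : Bool) :
    ∃ F : List (Rst V), (∀ T ∈ F, (sup T).card ≤ t) ∧ ∀ x, Dnf F x ↔ (f x == b) = c := by
  obtain ⟨F1, h1, h1'⟩ := dnf_of_hasDT hf
  obtain ⟨F2, h2, h2'⟩ := dnf_of_hasDT (hasDT_not hf)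
  cases b <;> cases c
  · exact ⟨F1, h1, fun x => by rw [h1' x]; simp⟩
  · exact ⟨F2, h2, fun x => by rw [h2' x]; simp⟩
  · exact ⟨F2, h2, fun x => by rw [h2' x]; simp⟩
  · exact ⟨F1, h1, fun x => by rw [h1' x]; simp⟩

private theorem gat_list {W : Type} {t : ℕ} (y : W → (V → Bool) → Bool)
    (hy : ∀ w, HasDT t (y w)) (c : Bool) (L : List (W × Bool)) :
    ∃ F : List (Rst V), (∀ T ∈ F, (sup T).card ≤ t) ∧
      ∀ x, Dnf F x ↔ ∃ l ∈ L, (y l.1 x == l.2) = c := by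
  induction L with
  | nil =>
    refine ⟨[], by simp, fun x => ?_⟩
    simp [Dnf]
  | cons l L ih =>
    obtain ⟨F1, h1, h1'⟩ := ih
    obtain ⟨F2, h2, h2'⟩ := gat_lit (hy l.1) l.2 c
    refine ⟨F2 ++ F1, fun T hT => ?_, fun x => ?_⟩
    · rcases List.mem_append.1 hT with h | h
      · exact h2 T h
      · exact h1 T h
    · constructor
      · rintro ⟨T, hT, hs⟩
        rcases List.mem_append.1 hT with h | h
        · exact ⟨l, List.mem_cons_self, (h2' x).1 ⟨T, h, hs⟩⟩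
        · obtain ⟨l', hl', e⟩ := (h1' x).1 ⟨T, h, hs⟩
          exact ⟨l', List.mem_cons_of_mem _ hl', e⟩
      · rintro ⟨l', hl', e⟩
        rcases List.mem_cons.1 hl' with h | h
        · subst h
          obtain ⟨T, hT, hs⟩ := (h2' x).2 e
          exact ⟨T, List.mem_append.2 (Or.inl hT), hs⟩
        · obtain ⟨T, hT, hs⟩ := (h1' x).2 ⟨l', h, e⟩
          exact ⟨T, List.mem_append.2 (Or.inr hT), hs⟩

theorem gate_dnf {W : Type} {t : ℕ} (g : Gate W) (y : W → (V → Bool) → Bool)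
    (hy : ∀ w, HasDT t (y w)) :
    ∃ F : List (Rst V), (∀ T ∈ F, (sup T).card ≤ t) ∧
      ∀ x, Dnf F x ↔ g.ev (fun w => y w x) = !g.conj := by
  obtain ⟨F, h1, h2⟩ := gat_list y hy (!g.conj) g.lits
  refine ⟨F, h1, fun x => (h2 x).trans ?_⟩
  unfold Gate.ev
  cases hc : g.conj
  · simp
  · simp

end

end Pool.Agent.ACL
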