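import Pool.Agent.ACL.ExA

set_option autoImplicit false

/-!
# ACL-HvA: few elements of a small set are selected

Union bound over the subsets with `h` elements.
-/

namespace Pool.Agent.ACL

open Finset

section

variable {V : Type} [Fintype V] [DecidableEq V]

private theorem hva_Q {r : ℝ} (Q : Finset V) :
    Ex (bern r) (fun R : V → Bool => if (∀ i ∈ Q, R i = true) then (1 : ℝ) else 0) = r ^ Q.card := by
  unfold Ex
  have h1 : ∀ R : V → Bool, (∏ i, bern r (R i)) * (if (∀ i ∈ Q, R i = true) then (1 : ℝ) else 0) =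
      ∏ i, (if i ∈ Q then (if R i = true then r else 0) else bern r (R i)) := by
    intro R
    by_cases h : ∀ i ∈ Q, R i = true
    · rw [if_pos h, mul_one]
      refine prod_congr rfl fun i _ => ?_
      split_ifs with h1 h2
      · unfold bern
        rw [if_pos h2]
      · exact absurd (h i h1) h2
      · rfl
    · rw [if_neg h, mul_zero]
      push Not at h
      obtain ⟨i, hi, hne⟩ := h
      symm
      apply prod_eq_zero (mem_univ i)
      rw [if_pos hi, if_neg hne]
  rw [sum_congr rfl fun R _ => h1 R]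
  have h2 := Finset.prod_univ_sum (fun _ : V => (univ : Finset Bool))
    (fun i b => if i ∈ Q then (if b = true then r else 0) else bern r b)
  rw [Fintype.piFinset_univ] at h2
  rw [← h2]
  have h3 : ∀ i, ∑ b : Bool, (if i ∈ Q then (if b = true then r else 0) else bern r b) =
      if i ∈ Q then r else 1 := by
    intro i
    split_ifs
    · simp
    · exact bern_sum r
  rw [prod_congr rfl fun i _ => h3 i, prod_ite_mem, univ_inter, prod_const]

open Classical in
theorem heavy {r : ℝ} (h0 : 0 ≤ r) (h1 : r ≤ 1) (H : Finset V) (h : ℕ) :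
    Ex (bern r) (fun R => if h ≤ (H.filter fun i => R i = true).card then 1 else 0) ≤
      (H.card * r) ^ h := by
  have h2 : ∀ R : V → Bool, (if h ≤ (H.filter fun i => R i = true).card then (1 : ℝ) else 0) ≤
      ∑ Q ∈ H.powersetCard h, (if (∀ i ∈ Q, R i = true) then (1 : ℝ) else 0) := by
    intro R
    have hnn : ∀ Q ∈ H.powersetCard h, (0 : ℝ) ≤ (if (∀ i ∈ Q, R i = true) then (1 : ℝ) else 0) := by
      intro Q _
      split_ifs
      · exact zero_le_one
      · exact le_rfl
    split_ifs with hc
    · obtain ⟨Q, hQ, hQc⟩ := exists_subset_card_eq hc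
      have hQm : Q ∈ H.powersetCard h :=
        mem_powersetCard.2 ⟨hQ.trans (filter_subset _ _), hQc⟩
      have hall : ∀ i ∈ Q, R i = true := fun i hi => (mem_filter.1 (hQ hi)).2
      refine le_trans (le_of_eq ?_) (single_le_sum hnn hQm)
      rw [if_pos hall]
    · exact sum_nonneg hnn
  refine (Ex_mono (bern_nonneg h0 h1) h2).trans ?_
  rw [Ex_sum]
  have h3 : ∀ Q ∈ H.powersetCard h,
      Ex (bern r) (fun R : V → Bool => if (∀ i ∈ Q, R i = true) then (1 : ℝ) else 0) = r ^ h := by
    intro Q hQ
    rw [← (mem_powersetCard.1 hQ).2, ← hva_Q Q]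
  rw [sum_congr rfl h3, sum_const, card_powersetCard, nsmul_eq_mul, mul_pow]
  apply mul_le_mul_of_nonneg_right _ (pow_nonneg h0 h)
  have h4 := Nat.choose_le_pow H.card h
  calc ((H.card.choose h : ℕ) : ℝ) ≤ ((H.card ^ h : ℕ) : ℝ) := by exact_mod_cast h4
    _ = (H.card : ℝ) ^ h := by push_cast; rfl

end

end Pool.Agent.ACL
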