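import Pool.Agent.INS.Gap

set_option autoImplicit false

/-!
# ACL-InsP: outputs before and after m resamplings are rarely close (sequences of pairs)
-/

namespace Pool.Agent.ACL

open Finset Pool.Agent.INS

private theorem sdc {n : ℕ} (A B : Finset (Fin n)) : sd A B = sd B A := by
  unfold sd; omega

private theorem gds {n M : ℕ} (Φ : Om n M → Finset (Fin n)) (x h : ℝ) (ω ω' : Om n M)
    (H : Gd Φ x h ω ω') : Gd Φ x h ω' ω := by
  refine ⟨H.2.1, H.1, ?_⟩
  rw [sdc]
  exact H.2.2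

private theorem root_num {a N M m T : ℕ} {y c : ℝ} {b : ℕ}
    (h : (a : ℝ) ^ T ≤ (b : ℝ) ^ (T - 1) *
      ((N : ℝ) ^ M * ((M : ℝ) * N) ^ (T * m) * Real.exp (-y / 40)))
    (hb : b ≤ N ^ M) (hT : 1 ≤ T) (hy : 0 ≤ y) (hc : c ≤ y / (80 * T)) :
    (a : ℝ) ≤ Real.exp (-c) * ((N : ℝ) ^ M * ((M : ℝ) * N) ^ m) := by
  have hTr : (0 : ℝ) < T := by
    have : 0 < T := by omega
    exact_mod_cast this
  refine le_of_pow_le_pow_left₀ (by omega : T ≠ 0) (by positivity) (h.trans ?_)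
  have h1 : (b : ℝ) ^ (T - 1) ≤ ((N : ℝ) ^ M) ^ (T - 1) :=
    pow_le_pow_left₀ (Nat.cast_nonneg _) (by exact_mod_cast hb) _
  have h2 : (Real.exp (-c) * ((N : ℝ) ^ M * ((M : ℝ) * N) ^ m)) ^ T =
      ((N : ℝ) ^ M) ^ (T - 1) * ((N : ℝ) ^ M * ((M : ℝ) * N) ^ (T * m) * Real.exp (-(T * c))) := by
    have h3 : ((N : ℝ) ^ M) ^ T = ((N : ℝ) ^ M) ^ (T - 1) * (N : ℝ) ^ M := by
      rw [← pow_succ]
      congr 1
      omega
    rw [mul_pow, mul_pow, h3, ← Real.exp_nat_mul, ← pow_mul ((M : ℝ) * N), Nat.mul_comm m T, mul_neg]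
    ring
  rw [h2]
  have h4 : Real.exp (-y / 40) ≤ Real.exp (-(T * c)) := by
    apply Real.exp_le_exp.2
    have h5 : (T : ℝ) * c ≤ T * (y / (80 * T)) := mul_le_mul_of_nonneg_left hc hTr.le
    have h6 : (T : ℝ) * (y / (80 * T)) = y / 80 := by
      field_simp
    rw [h6] at h5
    linarith
  refine mul_le_mul h1 (mul_le_mul_of_nonneg_left h4 (by positivity)) (by positivity) (by positivity)

open Classical in
theorem gapP {ε : ℝ} (hε : 0 < ε) : ∃ k0 : ℕ, ∀ k : ℕ, k0 ≤ k → ∃ n0 : ℕ, ∀ n : ℕ, n0 ≤ n →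
    ∀ (Φ : Om n (INS.Mk ε k n) → Finset (Fin n)) (m : ℕ), 1 ≤ m → m ≤ INS.Mk ε k n →
    ((univ.filter (fun p : Om n (INS.Mk ε k n) × (Fin m → Mv n (INS.Mk ε k n)) =>
      Gd Φ ((n : ℝ) / k) (cc ε * ((n : ℝ) / k)) p.1 (stf p.1 p.2 m))).card : ℝ) ≤
      Real.exp (-(cc ε * m / k ^ 2)) *
        ((NN n : ℝ) ^ (INS.Mk ε k n) * ((INS.Mk ε k n : ℝ) * NN n) ^ m) := by
  obtain ⟨kB, hB⟩ := numB hε
  obtain ⟨kC, hC⟩ := numC hε
  obtain ⟨kD, hD⟩ := numD hε
  refine ⟨max 3 (max kB (max kC kD)), fun k hk => ?_⟩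
  have hk3 : 3 ≤ k := le_trans (le_max_left _ _) hk
  have hkB : kB ≤ k := le_trans (le_trans (le_max_left _ _) (le_max_right _ _)) hk
  have hkC : kC ≤ k :=
    le_trans (le_trans (le_trans (le_max_left _ _) (le_max_right _ _)) (le_max_right _ _)) hk
  have hkD : kD ≤ k :=
    le_trans (le_trans (le_trans (le_max_right _ _) (le_max_right _ _)) (le_max_right _ _)) hk
  obtain ⟨nA, hA⟩ := numA hε hk3
  obtain ⟨nB, hB⟩ := hB k hkB
  obtain ⟨nC, hC⟩ := hC k hkC
  obtain ⟨nD, hD⟩ := hD k hkD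
  refine ⟨max nA (max nB (max nC nD)), fun n hn => ?_⟩
  have hA := hA n (le_trans (le_max_left _ _) hn)
  have hB := hB n (le_trans (le_trans (le_max_left _ _) (le_max_right _ _)) hn)
  have hC := hC n
    (le_trans (le_trans (le_trans (le_max_left _ _) (le_max_right _ _)) (le_max_right _ _)) hn)
  have hD := hD n
    (le_trans (le_trans (le_trans (le_max_right _ _) (le_max_right _ _)) (le_max_right _ _)) hn)
  obtain ⟨hbe0, -, hKpos, -⟩ := be_pos hε
  set M := INS.Mk ε k n with hMdef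
  set K := KK ε with hKdef
  intro Φ m hm hmM
  set L := (4 * M + m - 1) / m with hLdef
  have hMpos : 0 < M := by omega
  have hL1 : 4 * M ≤ L * m := by
    have h := Nat.div_add_mod (4 * M + m - 1) m
    have h' := Nat.mod_lt (4 * M + m - 1) (by omega : 0 < m)
    rw [← hLdef] at h
    have : m * L = L * m := Nat.mul_comm _ _
    omega
  have hL2 : L * m ≤ 5 * M := by
    have h := Nat.div_mul_le_self (4 * M + m - 1) m
    rw [← hLdef] at h
    omega
  have hLpos : 0 < L := by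
    rcases Nat.eq_zero_or_pos L with h | h
    · rw [h] at hL1; omega
    · exact h
  set j := Nat.clog 2 (K * L) with hj
  have hT1 : 1 ≤ 2 ^ j := Nat.one_le_two_pow
  have hT2 : K * L ≤ 2 ^ j := Nat.le_pow_clog (by norm_num) _
  have hKL : 0 < K * L := Nat.mul_pos hKpos hLpos
  have hT3 : 2 ^ j ≤ 2 * (K * L) := by
    rcases Nat.lt_or_ge 1 (K * L) with h | h
    · have h' := Nat.pow_pred_clog_lt_self (by norm_num : 1 < 2) h
      rw [← hj] at h'
      have hjpos : 0 < j := Nat.clog_pos (by norm_num) h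
      have : 2 ^ j = 2 * 2 ^ j.pred := by
        have hjj : j.pred + 1 = j := Nat.succ_pred_eq_of_pos hjpos
        rw [← pow_succ', hjj]
      omega
    · have : K * L = 1 := by omega
      rw [hj, this]
      simp
  have hTm : 2 ^ j * m ≤ 10 * K * M := by
    calc 2 ^ j * m ≤ 2 * (K * L) * m := Nat.mul_le_mul_right _ hT3
      _ = 2 * K * (L * m) := by ring
      _ ≤ 2 * K * (5 * M) := Nat.mul_le_mul_left _ hL2
      _ = 10 * K * M := by ring
  set x : ℝ := (n : ℝ) / k with hx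
  have hx0 : 0 ≤ x := by rw [hx]; positivity
  let g : Om n M → Om n M → Prop := Gd Φ x (be ε * x)
  have hmain := main hε hA hB hC hD hm hL1 hT1 hT2 hTm Φ
  have hwalk := walk_ineq (m := m) g (fun a b h => gds Φ x _ a b h)
    (univ.filter (fun ω : Om n M => Function.Injective ω))
    (fun a b h => mem_filter.2 ⟨mem_univ _, h.1.1⟩) j
  have hcc : cc ε ≤ be ε := min_le_left _ _
  have ha1 : (univ.filter (fun p : Om n M × (Fin m → Mv n M) =>
      Gd Φ x (cc ε * x) p.1 (stf p.1 p.2 m))).card ≤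
      (univ.filter (fun p : Om n M × (Fin m → Mv n M) => g p.1 (stf p.1 p.2 m))).card := by
    refine card_le_card fun p hp => ?_
    rw [mem_filter] at hp ⊢
    exact ⟨mem_univ _, hp.2.1, hp.2.2.1, hp.2.2.2.trans (mul_le_mul_of_nonneg_right hcc hx0)⟩
  have hb : (univ.filter (fun ω : Om n M => Function.Injective ω)).card ≤ (NN n) ^ M := by
    rw [inj_count, ← Nat.descFactorial_eq_factorial_mul_choose]
    exact Nat.descFactorial_le_pow _ _
  have hy0 := hA.y0
  have hkr : (0 : ℝ) < k := by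
    have : 0 < k := by omega
    exact_mod_cast this
  have hKr : (0 : ℝ) < K := by exact_mod_cast hKpos
  have hTr : (0 : ℝ) < ((2 ^ j : ℕ) : ℝ) := by positivity
  have hc2 : cc ε ≤ 1 / (800 * K * (1 / 2 + ε)) := min_le_right _ _
  have hcy : cc ε * m / k ^ 2 ≤ yy k n / (80 * ((2 ^ j : ℕ) : ℝ)) := by
    calc cc ε * m / k ^ 2 ≤ 1 / (800 * K * (1 / 2 + ε)) * m / k ^ 2 := by
          apply div_le_div_of_nonneg_right _ (by positivity)
          exact mul_le_mul_of_nonneg_right hc2 (by positivity)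
      _ ≤ yy k n / (80 * ((2 ^ j : ℕ) : ℝ)) := by
          rw [div_mul_eq_mul_div, one_mul, div_div, div_le_div_iff₀ (by positivity) (by positivity)]
          have h1 : ((2 ^ j : ℕ) : ℝ) * m ≤ 10 * K * M := by exact_mod_cast hTm
          have h2 := hA.My
          rw [← hMdef] at h2
          have h3 : 10 * (K : ℝ) * M ≤ 10 * K * ((1 / 2 + ε) * k ^ 2 * yy k n) :=
            mul_le_mul_of_nonneg_left h2 (by positivity)
          nlinarith
  refine root_num (T := 2 ^ j) (y := yy k n) ?_ hb hT1 hy0.le hcy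
  refine le_trans (pow_le_pow_left₀ (Nat.cast_nonneg _) (Nat.cast_le.2 ha1) _) ?_
  exact hwalk.trans (mul_le_mul_of_nonneg_left hmain (by positivity))

end Pool.Agent.ACL
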