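import Mathlib

set_option autoImplicit false

/-!
# ACL-SwB: numerical part of the switching lemma (Mathlib only)
-/

namespace Pool.Agent.ACL

open Finset

theorem sum_K {V : Type*} [DecidableEq V] (S : Finset V) (w : ℕ) (hS : S.card ≤ w) (p : ℝ)
    (hp0 : 0 ≤ p) (hp1 : p ≤ 1 / 16) (hp : 16 * p * w ≤ 1) :
    ∑ K ∈ S.powerset.filter (fun K => K ≠ ∅), (4 * (2 * p / (1 - p))) ^ K.card ≤ 1 := by
  have h1p : 0 < 1 - p := by linarith
  set u : ℝ := 4 * (2 * p / (1 - p)) with hu
  have hu0 : 0 ≤ u := by positivity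
  have hu1 : u ≤ 128 / 15 * p := by
    have h2 : 2 * p / (1 - p) ≤ 32 / 15 * p := by
      rw [div_le_iff₀ h1p]
      nlinarith
    rw [hu]
    linarith
  have hall : ∑ K ∈ S.powerset, u ^ K.card = (1 + u) ^ S.card := by
    have h := Finset.prod_add (fun _ : V => u) (fun _ : V => (1 : ℝ)) S
    simp only [Finset.prod_const, one_pow, mul_one] at h
    rw [← h]
    rw [add_comm]
  have hsplit : ∑ K ∈ S.powerset.filter (fun K => K ≠ ∅), u ^ K.card =
      ∑ K ∈ S.powerset, u ^ K.card - 1 := by
    have h := Finset.sum_filter_add_sum_filter_not S.powerset (fun K => K ≠ ∅)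
      (fun K => u ^ K.card)
    have h2 : S.powerset.filter (fun K => ¬ K ≠ ∅) = {∅} := by
      ext K
      simp only [ne_eq, not_not, mem_filter, mem_powerset, mem_singleton]
      constructor
      · exact fun h => h.2
      · rintro rfl
        exact ⟨empty_subset _, rfl⟩
    rw [h2, sum_singleton, card_empty, pow_zero] at h
    linarith
  rw [hsplit, hall]
  have hw0 : (0 : ℝ) ≤ w := Nat.cast_nonneg w
  have h3 : (1 + u) ^ S.card ≤ (1 + u) ^ w := pow_le_pow_right₀ (by linarith) hS
  have h4 : (1 + u) ^ w ≤ Real.exp (u * w) := by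
    have h5 : 1 + u ≤ Real.exp u := by
      have := Real.add_one_le_exp u
      linarith
    calc (1 + u) ^ w ≤ (Real.exp u) ^ w := pow_le_pow_left₀ (by linarith) h5 w
      _ = Real.exp (u * w) := by rw [← Real.exp_nat_mul, mul_comm]
  have h6 : u * w ≤ 8 / 15 := by
    have h7 : u * w ≤ 128 / 15 * p * w := mul_le_mul_of_nonneg_right hu1 hw0
    nlinarith
  have h8 : Real.exp (u * w) ≤ 2 := by
    have h9 : u * w ≤ Real.log 2 := by
      have := Real.log_two_gt_d9
      linarith
    calc Real.exp (u * w) ≤ Real.exp (Real.log 2) := Real.exp_le_exp.2 h9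
      _ = 2 := Real.exp_log (by norm_num)
  linarith

end Pool.Agent.ACL
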