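import Pool.Agent.ACL.SwA
import Pool.Agent.ACL.SwB

set_option autoImplicit false

/-!
# ACL-SwC: the switching lemma

Induction on the formula; the paths of the canonical tree through one term are fixed one by one.
-/

namespace Pool.Agent.ACL

open Finset

section

variable {V : Type} [Fintype V] [DecidableEq V]

open Classical in
/-- probability of an event -/
private noncomputable def PP (p : ℝ) (A : Rst V → Prop) : ℝ :=
  Ex (rw1 p) (fun ρ => if A ρ then 1 else 0)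

private theorem PP_eq (p : ℝ) (A : Rst V → Prop) [DecidablePred A] :
    Ex (rw1 p) (fun ρ => if A ρ then 1 else 0) = PP p A := by
  unfold PP
  congr 1
  funext ρ
  by_cases h : A ρ
  · rw [if_pos h, if_pos h]
  · rw [if_neg h, if_neg h]

private theorem PP_mono {p : ℝ} (h0 : 0 ≤ p) (h1 : p ≤ 1) {A B : Rst V → Prop}
    (h : ∀ ρ, A ρ → B ρ) : PP p A ≤ PP p B := by
  classical
  refine Ex_mono (rw1_nonneg h0 h1) fun ρ => ?_
  by_cases hA : A ρ
  · rw [if_pos hA, if_pos (h ρ hA)]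
  · rw [if_neg hA]
    split_ifs
    · exact zero_le_one
    · exact le_rfl

private theorem PP_nonneg {p : ℝ} (h0 : 0 ≤ p) (h1 : p ≤ 1) (A : Rst V → Prop) : 0 ≤ PP p A := by
  classical
  refine Ex_nonneg (rw1_nonneg h0 h1) fun ρ => ?_
  split_ifs
  · exact zero_le_one
  · exact le_rfl

private theorem PP_congr {p : ℝ} {A B : Rst V → Prop} (h : ∀ ρ, A ρ ↔ B ρ) : PP p A = PP p B := by
  have : A = B := funext fun ρ => propext (h ρ)
  rw [this]

private theorem PP_disj {p : ℝ} (h0 : 0 ≤ p) (h1 : p ≤ 1) {A B C : Rst V → Prop}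
    (hAB : ∀ ρ, A ρ → B ρ → False) (hA : ∀ ρ, A ρ → C ρ) (hB : ∀ ρ, B ρ → C ρ) :
    PP p A + PP p B ≤ PP p C := by
  classical
  unfold PP
  rw [← Ex_add]
  refine Ex_mono (rw1_nonneg h0 h1) fun ρ => ?_
  by_cases h : A ρ
  · rw [if_pos h, if_neg (hAB ρ h), if_pos (hA ρ h), add_zero]
  · rw [if_neg h, zero_add]
    by_cases h' : B ρ
    · rw [if_pos h', if_pos (hB ρ h')]
    · rw [if_neg h']
      split_ifs
      · exact zero_le_one
      · exact le_rfl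

private theorem PP_union {p : ℝ} (h0 : 0 ≤ p) (h1 : p ≤ 1) {A B : Rst V → Prop}
    (S : Finset (Finset V)) (C : Finset V → Finset V → Rst V → Prop)
    (h : ∀ ρ, A ρ → B ρ ∨ ∃ K ∈ S, ∃ P ∈ K.powerset, C K P ρ) :
    PP p A ≤ PP p B + ∑ K ∈ S, ∑ P ∈ K.powerset, PP p (C K P) := by
  classical
  unfold PP
  have e1 : ∀ K ∈ S, ∑ P ∈ K.powerset, Ex (rw1 p) (fun ρ => if C K P ρ then (1 : ℝ) else 0) =
      Ex (rw1 p) (fun ρ => ∑ P ∈ K.powerset, if C K P ρ then (1 : ℝ) else 0) := by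
    intro K _
    rw [Ex_sum]
  rw [Finset.sum_congr rfl e1, ← Ex_sum, ← Ex_add]
  refine Ex_mono (rw1_nonneg h0 h1) fun ρ => ?_
  have hn : ∀ K P, (0 : ℝ) ≤ if C K P ρ then 1 else 0 := by
    intro K P
    split_ifs
    · exact zero_le_one
    · exact le_rfl
  have hn2 : (0 : ℝ) ≤ ∑ K ∈ S, ∑ P ∈ K.powerset, if C K P ρ then 1 else 0 :=
    Finset.sum_nonneg fun K _ => Finset.sum_nonneg fun P _ => hn K P
  have hn3 : (0 : ℝ) ≤ if B ρ then 1 else 0 := by
    split_ifs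
    · exact zero_le_one
    · exact le_rfl
  by_cases hA : A ρ
  · rw [if_pos hA]
    rcases h ρ hA with hB | ⟨K, hK, P, hP, hC⟩
    · rw [if_pos hB]
      linarith
    · have h2 : (if C K P ρ then (1 : ℝ) else 0) ≤ ∑ P ∈ K.powerset, if C K P ρ then 1 else 0 :=
        Finset.single_le_sum (f := fun P => if C K P ρ then (1 : ℝ) else 0) (fun P _ => hn K P) hP
      have h3 : (∑ P ∈ K.powerset, if C K P ρ then (1 : ℝ) else 0) ≤
          ∑ K ∈ S, ∑ P ∈ K.powerset, if C K P ρ then 1 else 0 :=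
        Finset.single_le_sum (f := fun K => ∑ P ∈ K.powerset, if C K P ρ then (1 : ℝ) else 0)
          (fun K _ => Finset.sum_nonneg fun P _ => hn K P) hK
      rw [if_pos hC] at h2
      linarith
  · rw [if_neg hA]
    linarith

private theorem PP_fill {p : ℝ} (hp : p < 1) (K P : Finset V) (Q : Rst V → Prop) :
    PP p (fun ρ => (∀ v ∈ K, ρ v = none) ∧ Q (fill ρ K P)) = (2 * p / (1 - p)) ^ K.card *
      PP p (fun ρ => (∀ v ∈ K, ρ v = some (decide (v ∈ P))) ∧ Q ρ) := by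
  classical
  rw [← PP_eq, ← PP_eq]
  exact sum_fill hp K P Q

private theorem PP_free {p : ℝ} (hp0 : 0 ≤ p) (hp : p < 1) {A : Rst V → Prop} (hA : Up A) (T : Rst V)
    (K : Finset V) (hK : K ⊆ sup T) :
    PP p (fun ρ => A ρ ∧ (∀ v ∈ K, ρ v = none) ∧ (∀ v ∈ sup T, v ∉ K → ρ v = T v)) ≤
      (2 * p / (1 - p)) ^ K.card * PP p (fun ρ => A ρ ∧ ∀ v ∈ sup T, ρ v = T v) := by
  classical
  rw [← PP_eq, ← PP_eq]
  exact free_le hp0 hp hA T K hK

private theorem half_pow (s j : ℕ) : ((1 : ℝ) / 2) ^ (s - j) ≤ (1 / 2) ^ s * 2 ^ j := by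
  have h1 : ((1 : ℝ) / 2) ^ (s - j + j) ≤ (1 / 2) ^ s :=
    pow_le_pow_of_le_one (by norm_num) (by norm_num) (by omega)
  rw [pow_add] at h1
  have h2 : ((1 : ℝ) / 2) ^ j * 2 ^ j = 1 := by
    rw [← mul_pow]
    norm_num
  calc ((1 : ℝ) / 2) ^ (s - j) = (1 / 2) ^ (s - j) * ((1 / 2) ^ j * 2 ^ j) := by rw [h2, mul_one]
    _ = (1 / 2) ^ (s - j) * (1 / 2) ^ j * 2 ^ j := by ring
    _ ≤ (1 / 2) ^ s * 2 ^ j := mul_le_mul_of_nonneg_right h1 (by positivity)

/-- fix one path of the canonical tree -/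
private theorem step_KP {p : ℝ} (hp0 : 0 ≤ p) (hp : p < 1) {A : Rst V → Prop} (hA : Up A) (T : Rst V)
    (F : List (Rst V)) (s : ℕ)
    (ih : ∀ B : Rst V → Prop, Up B → PP p (fun ρ => B ρ ∧ s ≤ cd F ρ) ≤ (1 / 2) ^ s * PP p B)
    (K P : Finset V) (hK : K ⊆ sup T) :
    PP p (fun ρ => A ρ ∧ (∀ v ∈ K, ρ v = none) ∧ (∀ v ∈ sup T, v ∉ K → ρ v = T v) ∧
      s ≤ cd F (fill ρ K P)) ≤
      (1 / 2) ^ s * ((2 * p / (1 - p)) ^ K.card * PP p (fun ρ => A ρ ∧ ∀ v ∈ sup T, ρ v = T v)) := by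
  have hu : 0 ≤ (2 * p / (1 - p)) ^ K.card := pow_nonneg (div_nonneg (by linarith) (by linarith)) _
  have hfill : ∀ ρ : Rst V, (∀ v ∈ sup T, v ∉ K → fill ρ K P v = T v) ↔
      ∀ v ∈ sup T, v ∉ K → ρ v = T v := by
    intro ρ
    refine forall_congr' fun v => forall_congr' fun _ => forall_congr' fun hv => ?_
    unfold fill
    rw [if_neg hv]
  have e1 : PP p (fun ρ => A ρ ∧ (∀ v ∈ K, ρ v = none) ∧ (∀ v ∈ sup T, v ∉ K → ρ v = T v) ∧
      s ≤ cd F (fill ρ K P)) = (2 * p / (1 - p)) ^ K.card *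
      PP p (fun ρ => (A (star ρ K) ∧ (∀ v ∈ K, ρ v = some (decide (v ∈ P))) ∧
        ∀ v ∈ sup T, v ∉ K → ρ v = T v) ∧ s ≤ cd F ρ) := by
    have h1 := PP_fill hp K P (fun ρ => A (star ρ K) ∧ (∀ v ∈ sup T, v ∉ K → ρ v = T v) ∧ s ≤ cd F ρ)
    have h2 : PP p (fun ρ => A ρ ∧ (∀ v ∈ K, ρ v = none) ∧ (∀ v ∈ sup T, v ∉ K → ρ v = T v) ∧
      s ≤ cd F (fill ρ K P)) = PP p (fun ρ => (∀ v ∈ K, ρ v = none) ∧ (A (star (fill ρ K P) K) ∧
        (∀ v ∈ sup T, v ∉ K → fill ρ K P v = T v) ∧ s ≤ cd F (fill ρ K P))) := by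
      refine PP_congr fun ρ => ?_
      rw [hfill]
      constructor
      · rintro ⟨a, b, c, d⟩
        rw [star_fill ρ K P b]
        exact ⟨b, a, c, d⟩
      · rintro ⟨b, a, c, d⟩
        rw [star_fill ρ K P b] at a
        exact ⟨a, b, c, d⟩
    rw [h2, h1]
    congr 1
    refine PP_congr fun ρ => ?_
    constructor
    · rintro ⟨b, a, c, d⟩
      exact ⟨⟨a, b, c⟩, d⟩
    · rintro ⟨⟨a, b, c⟩, d⟩
      exact ⟨b, a, c, d⟩
  have e2 : (2 * p / (1 - p)) ^ K.card *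
      PP p (fun ρ => A (star ρ K) ∧ (∀ v ∈ K, ρ v = some (decide (v ∈ P))) ∧
        ∀ v ∈ sup T, v ∉ K → ρ v = T v) =
      PP p (fun ρ => A ρ ∧ (∀ v ∈ K, ρ v = none) ∧ (∀ v ∈ sup T, v ∉ K → ρ v = T v)) := by
    have h1 := PP_fill hp K P (fun ρ => A (star ρ K) ∧ (∀ v ∈ sup T, v ∉ K → ρ v = T v))
    have h2 : PP p (fun ρ => A ρ ∧ (∀ v ∈ K, ρ v = none) ∧ (∀ v ∈ sup T, v ∉ K → ρ v = T v)) =
        PP p (fun ρ => (∀ v ∈ K, ρ v = none) ∧ (A (star (fill ρ K P) K) ∧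
        (∀ v ∈ sup T, v ∉ K → fill ρ K P v = T v))) := by
      refine PP_congr fun ρ => ?_
      rw [hfill]
      constructor
      · rintro ⟨a, b, c⟩
        rw [star_fill ρ K P b]
        exact ⟨b, a, c⟩
      · rintro ⟨b, a, c⟩
        rw [star_fill ρ K P b] at a
        exact ⟨a, b, c⟩
    rw [h2, h1]
    congr 1
    refine PP_congr fun ρ => ?_
    constructor
    · rintro ⟨a, b, c⟩
      exact ⟨b, a, c⟩
    · rintro ⟨b, a, c⟩
      exact ⟨a, b, c⟩
  have h3 := ih _ (up_sub hA T K P)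
  have h4 := PP_free hp0 hp hA T K hK
  rw [← e2] at h4
  rw [e1]
  calc _ ≤ (2 * p / (1 - p)) ^ K.card * ((1 / 2) ^ s *
        PP p (fun ρ => A (star ρ K) ∧ (∀ v ∈ K, ρ v = some (decide (v ∈ P))) ∧
        ∀ v ∈ sup T, v ∉ K → ρ v = T v)) := mul_le_mul_of_nonneg_left h3 hu
    _ = (1 / 2) ^ s * ((2 * p / (1 - p)) ^ K.card *
        PP p (fun ρ => A (star ρ K) ∧ (∀ v ∈ K, ρ v = some (decide (v ∈ P))) ∧
        ∀ v ∈ sup T, v ∉ K → ρ v = T v)) := by ring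
    _ ≤ _ := mul_le_mul_of_nonneg_left h4 (by positivity)

private theorem cd_cases (T : Rst V) (F : List (Rst V)) (ρ : Rst V) {s : ℕ} (hs : 1 ≤ s)
    (h : s ≤ cd (T :: F) ρ) : (Fls T ρ ∧ s ≤ cd F ρ) ∨
      ∃ K ∈ (sup T).powerset.filter (fun K => K ≠ ∅), ∃ P ∈ K.powerset,
        (∀ v ∈ K, ρ v = none) ∧ (∀ v ∈ sup T, v ∉ K → ρ v = T v) ∧
          s - K.card ≤ cd F (fill ρ K P) := by
  rw [cd] at h
  by_cases hF : Fls T ρ
  · rw [if_pos hF] at h
    exact Or.inl ⟨hF, h⟩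
  · rw [if_neg hF] at h
    by_cases hK : Kf T ρ = ∅
    · rw [if_pos hK] at h
      omega
    · rw [if_neg hK] at h
      right
      obtain ⟨P, hP, hPe⟩ := Finset.exists_mem_eq_sup (Kf T ρ).powerset
        ⟨∅, Finset.empty_mem_powerset _⟩ (fun P => cd F (fill ρ (Kf T ρ) P))
      rw [hPe] at h
      refine ⟨Kf T ρ, ?_, P, hP, ?_, ?_, by omega⟩
      · rw [Finset.mem_filter, Finset.mem_powerset]
        refine ⟨fun v hv => ?_, hK⟩
        unfold Kf at hv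
        unfold sup
        rw [Finset.mem_filter] at hv ⊢
        exact ⟨hv.1, hv.2.1⟩
      · intro v hv
        unfold Kf at hv
        rw [Finset.mem_filter] at hv
        exact hv.2.2
      · intro v hv hv'
        unfold Kf at hv'
        unfold sup at hv
        rw [Finset.mem_filter] at hv hv'
        have hT := hv.2
        have hρ : ρ v ≠ none := fun h0 => hv' ⟨hv.1, hT, h0⟩
        obtain ⟨b, hb⟩ := Option.ne_none_iff_exists'.1 hT
        obtain ⟨c, hc⟩ := Option.ne_none_iff_exists'.1 hρ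
        rw [hb, hc]
        by_contra hbc
        apply hF
        refine ⟨v, b, hb, ?_⟩
        rw [hc]
        congr 1
        cases b <;> cases c <;> simp_all

private theorem sw {p : ℝ} {w : ℕ} (hp0 : 0 < p) (hp1 : p ≤ 1 / 16) (hp : 16 * p * w ≤ 1)
    (F : List (Rst V)) : (∀ T ∈ F, (sup T).card ≤ w) → ∀ (A : Rst V → Prop), Up A → ∀ (s : ℕ),
    PP p (fun ρ => A ρ ∧ s ≤ cd F ρ) ≤ (1 / 2) ^ s * PP p A := by
  have h1 : p ≤ 1 := by linarith
  have h2 : p < 1 := by linarith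
  have hzero : ∀ (G : List (Rst V)) (A : Rst V → Prop),
      PP p (fun ρ => A ρ ∧ 0 ≤ cd G ρ) ≤ (1 / 2) ^ 0 * PP p A := by
    intro G A
    rw [pow_zero, one_mul]
    exact PP_mono hp0.le h1 fun ρ h => h.1
  induction F with
  | nil =>
    intro _ A _ s
    rcases Nat.eq_zero_or_pos s with rfl | hs
    · exact hzero [] A
    · have h3 : PP p (fun ρ => A ρ ∧ s ≤ cd [] ρ) ≤ PP p (fun _ : Rst V => False) := by
        refine PP_mono hp0.le h1 fun ρ h => ?_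
        have h4 : s ≤ 0 := h.2
        omega
      have h4 : PP p (fun _ : Rst V => False) = 0 := by
        unfold PP
        simp only [if_false]
        exact Ex_const (rw1_sum p) 0
      rw [h4] at h3
      exact h3.trans (mul_nonneg (by positivity) (PP_nonneg hp0.le h1 A))
  | cons T F ih =>
    intro hF A hA s
    rcases Nat.eq_zero_or_pos s with rfl | hs
    · exact hzero _ A
    have hF' : ∀ T ∈ F, (sup T).card ≤ w := fun T' hT' => hF T' (List.mem_cons_of_mem _ hT')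
    have hT : (sup T).card ≤ w := hF T List.mem_cons_self
    have hu : 0 ≤ 2 * p / (1 - p) := div_nonneg (by linarith) (by linarith)
    obtain ⟨u, hue⟩ : ∃ u, u = 2 * p / (1 - p) := ⟨_, rfl⟩
    obtain ⟨X, hX⟩ : ∃ X, X = PP p (fun ρ => A ρ ∧ ∀ v ∈ sup T, ρ v = T v) := ⟨_, rfl⟩
    have hX0 : 0 ≤ X := by rw [hX]; exact PP_nonneg hp0.le h1 _
    have hst : ∀ K ∈ (sup T).powerset.filter (fun K => K ≠ ∅), ∀ P ∈ K.powerset,
        PP p (fun ρ => A ρ ∧ (∀ v ∈ K, ρ v = none) ∧ (∀ v ∈ sup T, v ∉ K → ρ v = T v) ∧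
          s - K.card ≤ cd F (fill ρ K P)) ≤ (1 / 2) ^ s * 2 ^ K.card * (u ^ K.card * X) := by
      intro K hK P _
      rw [Finset.mem_filter, Finset.mem_powerset] at hK
      have h3 := step_KP hp0.le h2 hA T F (s - K.card)
        (fun B hB => ih hF' B hB (s - K.card)) K P hK.1
      rw [← hue, ← hX] at h3
      rw [← hue] at hu
      exact h3.trans (mul_le_mul_of_nonneg_right (half_pow s K.card)
        (mul_nonneg (pow_nonneg hu _) hX0))
    have hfls := ih hF' _ (up_fls hA T) s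
    have hun := PP_union hp0.le h1 (A := fun ρ => A ρ ∧ s ≤ cd (T :: F) ρ)
      (B := fun ρ => (A ρ ∧ Fls T ρ) ∧ s ≤ cd F ρ) ((sup T).powerset.filter (fun K => K ≠ ∅))
      (fun K P ρ => A ρ ∧ (∀ v ∈ K, ρ v = none) ∧ (∀ v ∈ sup T, v ∉ K → ρ v = T v) ∧
          s - K.card ≤ cd F (fill ρ K P)) (by
        rintro ρ ⟨hAρ, hcd⟩
        rcases cd_cases T F ρ hs hcd with h | ⟨K, hK, P, hP, h⟩
        · exact Or.inl ⟨⟨hAρ, h.1⟩, h.2⟩
        · exact Or.inr ⟨K, hK, P, hP, hAρ, h⟩)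
    have hsum : ∑ K ∈ (sup T).powerset.filter (fun K => K ≠ ∅), ∑ P ∈ K.powerset,
        PP p (fun ρ => A ρ ∧ (∀ v ∈ K, ρ v = none) ∧ (∀ v ∈ sup T, v ∉ K → ρ v = T v) ∧
          s - K.card ≤ cd F (fill ρ K P)) ≤ (1 / 2) ^ s * X := by
      have hK := sum_K (sup T) w hT p hp0.le hp1 hp
      rw [← hue] at hK
      calc _ ≤ ∑ K ∈ (sup T).powerset.filter (fun K => K ≠ ∅), ∑ P ∈ K.powerset,
            (1 / 2) ^ s * 2 ^ K.card * (u ^ K.card * X) :=
            Finset.sum_le_sum fun K hK => Finset.sum_le_sum fun P hP => hst K hK P hP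
        _ = ∑ K ∈ (sup T).powerset.filter (fun K => K ≠ ∅), (4 * u) ^ K.card * ((1 / 2) ^ s * X) := by
            refine Finset.sum_congr rfl fun K _ => ?_
            rw [Finset.sum_const, Finset.card_powerset, nsmul_eq_mul, Nat.cast_pow, Nat.cast_ofNat,
              mul_pow, show (4 : ℝ) = 2 * 2 by norm_num, mul_pow]
            ring
        _ = (∑ K ∈ (sup T).powerset.filter (fun K => K ≠ ∅), (4 * u) ^ K.card) * ((1 / 2) ^ s * X) := by
            rw [Finset.sum_mul]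
        _ ≤ 1 * ((1 / 2) ^ s * X) :=
            mul_le_mul_of_nonneg_right hK (mul_nonneg (by positivity) hX0)
        _ = (1 / 2) ^ s * X := one_mul _
    have hdis := PP_disj hp0.le h1 (A := fun ρ => A ρ ∧ Fls T ρ)
      (B := fun ρ => A ρ ∧ ∀ v ∈ sup T, ρ v = T v) (C := A) (by
        rintro ρ ⟨_, v, b, hb, hb'⟩ ⟨_, hsat⟩
        have hv : v ∈ sup T := by
          unfold sup
          rw [Finset.mem_filter]
          exact ⟨Finset.mem_univ _, by rw [hb]; exact Option.some_ne_none b⟩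
        have h3 := hsat v hv
        rw [hb, hb'] at h3
        have h4 := Option.some.inj h3
        cases b <;> simp at h4) (fun ρ h => h.1) (fun ρ h => h.1)
    rw [← hX] at hdis
    calc _ ≤ _ := hun
      _ ≤ (1 / 2) ^ s * PP p (fun ρ => A ρ ∧ Fls T ρ) + (1 / 2) ^ s * X := add_le_add hfls hsum
      _ = (1 / 2) ^ s * (PP p (fun ρ => A ρ ∧ Fls T ρ) + X) := by ring
      _ ≤ (1 / 2) ^ s * PP p A := mul_le_mul_of_nonneg_left hdis (by positivity)

open Classical in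
theorem switch {p : ℝ} {w : ℕ} (hp0 : 0 < p) (hp1 : p ≤ 1 / 16) (hp : 16 * p * w ≤ 1)
    (F : List (Rst V)) (hF : ∀ T ∈ F, (sup T).card ≤ w) (A : Rst V → Prop) (hA : Up A) (s : ℕ) :
    Ex (rw1 p) (fun ρ => if A ρ ∧ s ≤ cd F ρ then 1 else 0) ≤
      (1 / 2) ^ s * Ex (rw1 p) (fun ρ => if A ρ then 1 else 0) := by
  rw [PP_eq, PP_eq]
  exact sw hp0 hp1 hp F hF A hA s

open Classical in
theorem switch1 {p : ℝ} {w : ℕ} (hp0 : 0 < p) (hp1 : p ≤ 1 / 16) (hp : 16 * p * w ≤ 1)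
    (F : List (Rst V)) (hF : ∀ T ∈ F, (sup T).card ≤ w) (s : ℕ) :
    Ex (rw1 p) (fun ρ => if s ≤ cd F ρ then 1 else 0) ≤ (1 / 2) ^ s := by
  have h := switch hp0 hp1 hp F hF (fun _ => True) (fun _ _ _ _ => trivial) s
  simp only [true_and, if_true] at h
  rw [Ex_const (rw1_sum p), mul_one] at h
  exact h

end

end Pool.Agent.ACL
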