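import Pool.Agent.ACL.Gat
import Pool.Agent.ACL.SwC
import Pool.Agent.ACL.DtC

set_option autoImplicit false

/-!
# ACL-Lvl: one round

PLAN.  For every gate `g` of the level `i + 1`: `gate_dnf` with the wires `Sum.inl e` (`inp e`) and `Sum.inr g'` (the gates of the level `i`) gives `F g` of width `≤ t` with
`Dnf (F g) x ↔ value (i+1) g at x = !conj`.  If `cd (F g) σ ≤ t` then `hasDT_cd`, `hasDT_mono` and (if `conj`) `hasDT_not` give `HasDT t` of the gate under `σ`.  So the bad event
is contained in the union of the events `t + 1 ≤ cd (F g) σ`: `switch1` with `p = 1 / (16 t)`, `w = t` (`16 p t = 1`, `p ≤ 1/16`), `(1/2)^(t+1) ≤ (1/2)^t`, union bound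
(`Ex_sum`, `Ex_mono`).
-/

namespace Pool.Agent.ACL

open Finset

section

variable {V : Type} [Fintype V] [DecidableEq V]

open Classical in
theorem round {E : Type} {s t : ℕ} (ht : 1 ≤ t) (C : Circ E s) (inp : E → (V → Bool) → Bool)
    (hin : ∀ e, HasDT t (inp e)) (i : ℕ)
    (hg : ∀ g, HasDT t (fun x => C.val (fun e => inp e x) i g)) :
    Ex (rw1 (1 / (16 * (t : ℝ)))) (fun σ =>
      if ∀ g, HasDT t (fun x => C.val (fun e => inp e (ap σ x)) (i + 1) g) then 0 else 1) ≤
      s * (1 / 2) ^ t := by
  have ht' : (1 : ℝ) ≤ t := by exact_mod_cast ht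
  have hp0 : (0 : ℝ) < 1 / (16 * (t : ℝ)) := by positivity
  have hp1 : 1 / (16 * (t : ℝ)) ≤ 1 / 16 := by
    apply one_div_le_one_div_of_le
    · norm_num
    · linarith
  have hp : 16 * (1 / (16 * (t : ℝ))) * t ≤ 1 := by
    have h1 : (t : ℝ) ≠ 0 := by positivity
    field_simp
    exact le_rfl
  have hF : ∀ g : Fin s, ∃ F : List (Rst V), (∀ T ∈ F, (sup T).card ≤ t) ∧
      ∀ x, Dnf F x ↔ C.val (fun e => inp e x) (i + 1) g = !(C i g).conj := by
    intro g
    obtain ⟨F, h1, h2⟩ := gate_dnf (t := t) (C i g)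
      (Sum.elim inp (fun g' x => C.val (fun e => inp e x) i g')) (by
        rintro (e | g')
        · exact hin e
        · exact hg g')
    refine ⟨F, h1, fun x => ?_⟩
    rw [h2 x]
    have h3 : (fun w => Sum.elim inp (fun g' x => C.val (fun e => inp e x) i g') w x) =
        Sum.elim (fun e => inp e x) (C.val (fun e => inp e x) i) := by
      funext w
      cases w <;> rfl
    rw [h3]
    rfl
  choose F hF1 hF2 using hF
  have hgood : ∀ (σ : Rst V) (g : Fin s), cd (F g) σ ≤ t →
      HasDT t (fun x => C.val (fun e => inp e (ap σ x)) (i + 1) g) := by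
    intro σ g hcd
    have h1 := hasDT_mono hcd (hasDT_cd (F g) σ)
    cases hc : (C i g).conj
    · have h2 : (fun x => C.val (fun e => inp e (ap σ x)) (i + 1) g) =
          fun x => decide (Dnf (F g) (ap σ x)) := by
        funext x
        have h3 := hF2 g (ap σ x)
        rw [hc] at h3
        by_cases h4 : Dnf (F g) (ap σ x)
        · rw [decide_eq_true h4]
          exact h3.1 h4
        · rw [decide_eq_false h4]
          cases h5 : C.val (fun e => inp e (ap σ x)) (i + 1) g
          · rfl
          · exact absurd (h3.2 h5) h4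
      rw [h2]
      exact h1
    · have h2 : (fun x => C.val (fun e => inp e (ap σ x)) (i + 1) g) =
          fun x => !(decide (Dnf (F g) (ap σ x))) := by
        funext x
        have h3 := hF2 g (ap σ x)
        rw [hc] at h3
        by_cases h4 : Dnf (F g) (ap σ x)
        · rw [decide_eq_true h4]
          exact h3.1 h4
        · rw [decide_eq_false h4]
          cases h5 : C.val (fun e => inp e (ap σ x)) (i + 1) g
          · exact absurd (h3.2 h5) h4
          · rfl
      rw [h2]
      exact hasDT_not h1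
  have key : ∀ σ : Rst V,
      (if ∀ g, HasDT t (fun x => C.val (fun e => inp e (ap σ x)) (i + 1) g) then (0 : ℝ) else 1) ≤
      ∑ g : Fin s, (if t + 1 ≤ cd (F g) σ then (1 : ℝ) else 0) := by
    intro σ
    have hnn : ∀ g ∈ (univ : Finset (Fin s)), (0 : ℝ) ≤ (if t + 1 ≤ cd (F g) σ then (1 : ℝ) else 0) := by
      intro g _
      split_ifs <;> norm_num
    by_cases h : ∀ g, HasDT t (fun x => C.val (fun e => inp e (ap σ x)) (i + 1) g)
    · rw [if_pos h]
      exact Finset.sum_nonneg hnn
    · rw [if_neg h]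
      push Not at h
      obtain ⟨g, hg'⟩ := h
      have h1 : t + 1 ≤ cd (F g) σ := by
        by_contra h2
        exact hg' (hgood σ g (by omega))
      have h2 := Finset.single_le_sum hnn (Finset.mem_univ g)
      rw [if_pos h1] at h2
      exact h2
  have hr0 : ∀ b, 0 ≤ rw1 (1 / (16 * (t : ℝ))) b :=
    rw1_nonneg hp0.le (hp1.trans (by norm_num))
  refine (Ex_mono hr0 key).trans ?_
  rw [Ex_sum]
  have h5 : ∀ g ∈ (univ : Finset (Fin s)),
      Ex (rw1 (1 / (16 * (t : ℝ)))) (fun σ => if t + 1 ≤ cd (F g) σ then (1 : ℝ) else 0) ≤ (1 / 2) ^ t := by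
    intro g _
    have h6 := switch1 hp0 hp1 hp (F g) (hF1 g) (t + 1)
    refine h6.trans ?_
    exact pow_le_pow_of_le_one (by norm_num) (by norm_num) (Nat.le_succ t)
  refine (Finset.sum_le_sum h5).trans ?_
  rw [Finset.sum_const, Finset.card_univ, Fintype.card_fin, nsmul_eq_mul]

end

end Pool.Agent.ACL
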