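import Pool.Agent.ACL.NoiD
import Pool.Agent.ACL.ExA

set_option autoImplicit false

/-!
# ACL-NoiA: from moves to sets of changed samples

PLAN.  Count the `(ω, ν)` with `Gd .. ω (stf ω ν d)` and `r ↦ (ν r).1` injective.  For injective indices `stf ω ν d = mix Λ ω v`, where `Λ i = true` iff `i` is an index
and `v (ν r).1 = (ν r).2` (induction on `d`, `stf`, `stp`).  For fixed indices with set `Λ` the number of `(ω, values)` is `NN^M NN^d qq Λ` (`uni`: `Ex (uni) F = (∑ F)/NN^M`; the values of `v`
outside `Λ` do not matter).  Every `Λ` with `d` elements comes from `d!` injective index sequences.  So `d! NN^(M+d) ∑ qq Λ ≤ exp(-(c d)) NN^M (M NN)^d`.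
(`NN n = 0`: then `Pr n` is empty; if `0 < M` every `qq` is `0` by `Finset.univ_eq_empty`; if `M = 0` then `d = 0`, excluded.)
-/

namespace Pool.Agent.ACL

open Finset Pool.Agent.INS

open Classical in
private noncomputable def noiL {M d : ℕ} (idx : Fin d → Fin M) : Fin M → Bool :=
  fun i => decide (∃ r, idx r = i)

open Classical in
private lemma stf_aux {n M d : ℕ} (ω v : Om n M) (idx : Fin d → Fin M) (s : ℕ) (hs : s ≤ d) :
    stf ω (fun r => (idx r, v (idx r))) s =
      fun i => if ∃ r : Fin d, r.1 < s ∧ idx r = i then v i else ω i := by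
  induction s with
  | zero =>
    funext i
    simp [stf]
  | succ s ih =>
    have h : s < d := hs
    have ih' := ih h.le
    funext i
    simp only [stf, h, dif_pos, stp, ih']
    by_cases hi : i = idx ⟨s, h⟩
    · subst hi
      rw [Function.update_self, if_pos]
      exact ⟨⟨s, h⟩, Nat.lt_succ_self _, rfl⟩
    · rw [Function.update_of_ne hi]
      have : (∃ r : Fin d, r.1 < s + 1 ∧ idx r = i) ↔ (∃ r : Fin d, r.1 < s ∧ idx r = i) := by
        constructor
        · rintro ⟨r, h1, h2⟩
          refine ⟨r, ?_, h2⟩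
          rcases Nat.lt_succ_iff_lt_or_eq.1 h1 with h3 | h3
          · exact h3
          · exfalso
            apply hi
            rw [← h2]
            congr 1
            exact Fin.ext h3
        · rintro ⟨r, h1, h2⟩
          exact ⟨r, Nat.lt_succ_of_lt h1, h2⟩
      simp only [this]

private lemma stf_mix {n M d : ℕ} (ω v : Om n M) (idx : Fin d → Fin M) :
    stf ω (fun r => (idx r, v (idx r))) d = mix (noiL idx) ω v := by
  classical
  rw [stf_aux ω v idx d le_rfl]
  funext i
  unfold mix noiL
  simp only [decide_eq_true_eq]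
  have : (∃ r : Fin d, r.1 < d ∧ idx r = i) ↔ ∃ r, idx r = i :=
    ⟨fun ⟨r, _, h⟩ => ⟨r, h⟩, fun ⟨r, h⟩ => ⟨r, r.2, h⟩⟩
  simp only [this]

private lemma sum_comp {α : Type} [Fintype α] {M d : ℕ} (idx : Fin d → Fin M)
    (hinj : Function.Injective idx) (f : (Fin d → α) → ℝ) :
    ∑ v : Fin M → α, f (fun r => v (idx r)) =
      (Fintype.card α : ℝ) ^ (M - d) * ∑ w : Fin d → α, f w := by
  classical
  let e : Fin d ≃ {x // x ∈ Set.range idx} := Equiv.ofInjective idx hinj
  rw [← (Equiv.piEquivPiSubtypeProd (fun x => x ∈ Set.range idx) (fun _ => α)).symm.sum_comp,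
    Fintype.sum_prod_type]
  have h1 : ∀ (a : {x // x ∈ Set.range idx} → α) (b : {x // x ∉ Set.range idx} → α),
      (fun r => (Equiv.piEquivPiSubtypeProd (fun x => x ∈ Set.range idx) (fun _ => α)).symm (a, b)
        (idx r)) = fun r => a (e r) := by
    intro a b
    funext r
    simp [Equiv.piEquivPiSubtypeProd, e]
  simp only [h1, Finset.sum_const, nsmul_eq_mul, Finset.card_univ, Fintype.card_pi,
    Finset.prod_const]
  rw [← Finset.mul_sum]
  have h2 : Fintype.card {x // x ∉ Set.range idx} = M - d := by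
    rw [Fintype.card_subtype_compl, Fintype.card_fin, ← Fintype.card_congr e, Fintype.card_fin]
  rw [h2]
  push_cast
  congr 1
  exact (Equiv.arrowCongr e (Equiv.refl α)).symm.sum_comp (fun w => f w)

open Classical in
private lemma perm_card {M d : ℕ} (Λ : Fin M → Bool)
    (hΛ : (univ.filter fun i => Λ i = true).card = d) :
    d.factorial ≤ ((univ : Finset (Fin d → Fin M)).filter
      (fun idx => Function.Injective idx ∧ noiL idx = Λ)).card := by
  let e : Fin d ≃ {x // x ∈ (univ.filter fun i => Λ i = true)} :=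
    (Finset.equivFinOfCardEq hΛ).symm
  have h1 : (univ : Finset (Equiv.Perm (Fin d))).card = d.factorial := by
    rw [Finset.card_univ, Fintype.card_perm, Fintype.card_fin]
  rw [← h1]
  refine Finset.card_le_card_of_injOn (fun σ r => (e (σ r)).1) ?_ ?_
  · intro σ _
    simp only [Finset.coe_filter, Set.mem_setOf_eq, Finset.mem_univ, true_and]
    refine ⟨?_, ?_⟩
    · intro a b hab
      exact σ.injective (e.injective (Subtype.ext hab))
    · funext i
      unfold noiL
      by_cases hi : Λ i = true
      · rw [hi, decide_eq_true_eq]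
        refine ⟨σ.symm (e.symm ⟨i, by simpa using hi⟩), ?_⟩
        simp
      · have hi' : Λ i = false := by simpa using hi
        rw [hi', decide_eq_false_iff_not]
        rintro ⟨r, hr⟩
        apply hi
        have := (e (σ r)).2
        have hr' : (e (σ r)).1 = i := hr
        rw [hr'] at this
        simpa using this
  · intro σ _ τ _ h
    refine Equiv.ext fun r => ?_
    exact e.injective (Subtype.ext (congrFun h r))

open Classical in
theorem sum_qq {n M : ℕ} (Φ : Om n M → Finset (Fin n)) (x y c : ℝ) (d : ℕ) (hd : 1 ≤ d)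
    (h : ((univ.filter (fun p : Om n M × (Fin d → Mv n M) =>
      Gd Φ x y p.1 (stf p.1 p.2 d))).card : ℝ) ≤
      Real.exp (-(c * d)) * ((NN n : ℝ) ^ M * ((M : ℝ) * NN n) ^ d)) :
    ∑ Λ ∈ (univ : Finset (Fin M → Bool)).filter
        (fun Λ => (univ.filter fun i => Λ i = true).card = d), qq Φ x y Λ ≤
      Real.exp (-(c * d)) * ((M : ℝ) ^ d / d.factorial) := by
  set Nr : ℝ := (NN n : ℝ) with hNr
  -- the case of no pairs
  by_cases hN : NN n = 0
  · have hE : IsEmpty (Pr n) := Fintype.card_eq_zero_iff.1 hN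
    have h0 : ∀ Λ ∈ (univ : Finset (Fin M → Bool)).filter
        (fun Λ => (univ.filter fun i => Λ i = true).card = d), qq Φ x y Λ = 0 := by
      intro Λ hΛ
      have hM : 0 < M := by
        rcases Nat.eq_zero_or_pos M with h1 | h1
        · subst h1
          exfalso
          rw [Finset.mem_filter] at hΛ
          have h2 := Finset.card_filter_le (univ : Finset (Fin 0)) (fun i => Λ i = true)
          rw [Finset.card_univ, Fintype.card_fin] at h2
          have h3 := hΛ.2
          omega
        · exact h1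
      have : IsEmpty (Om n M) := ⟨fun ω => hE.elim (ω ⟨0, hM⟩)⟩
      unfold qq Ex
      rw [Finset.univ_eq_empty]
      simp
    rw [Finset.sum_eq_zero h0]
    positivity
  have hNpos : 0 < Nr := by
    rw [hNr]
    exact_mod_cast Nat.pos_of_ne_zero hN
  -- the indicator
  let I : Om n M → Om n M → ℝ := fun ω ω' => if Gd Φ x y ω ω' then 1 else 0
  have hI0 : ∀ a b, 0 ≤ I a b := by
    intro a b
    show 0 ≤ (if Gd Φ x y a b then (1 : ℝ) else 0)
    split_ifs <;> norm_num
  let A : (Fin M → Bool) → ℝ := fun Λ => ∑ ω : Om n M, ∑ v : Om n M, I ω (mix Λ ω v)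
  have hA0 : ∀ Λ, 0 ≤ A Λ := fun Λ =>
    Finset.sum_nonneg fun ω _ => Finset.sum_nonneg fun v _ => hI0 _ _
  have hqq : ∀ Λ, qq Φ x y Λ = (1 / Nr) ^ M * ((1 / Nr) ^ M * A Λ) := by
    intro Λ
    unfold qq Ex uni
    simp only [Finset.prod_const, Finset.card_univ, Fintype.card_fin]
    rw [← Finset.mul_sum]
    congr 1
    rw [Finset.mul_sum]
    refine Finset.sum_congr rfl fun ω _ => ?_
    rw [← Finset.mul_sum]
  by_cases hMd : M < d
  · rw [Finset.sum_eq_zero]
    · positivity
    · intro Λ hΛ
      exfalso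
      rw [Finset.mem_filter] at hΛ
      have := Finset.card_filter_le (univ : Finset (Fin M)) (fun i => Λ i = true)
      rw [Finset.card_univ, Fintype.card_fin] at this
      omega
  push Not at hMd
  -- sum over index sequences
  have key : ∑ idx ∈ (univ : Finset (Fin d → Fin M)).filter (fun idx => Function.Injective idx),
      A (noiL idx) ≤ Nr ^ (M - d) * ((univ.filter (fun p : Om n M × (Fin d → Mv n M) =>
      Gd Φ x y p.1 (stf p.1 p.2 d))).card : ℝ) := by
    have h1 : ∀ idx ∈ (univ : Finset (Fin d → Fin M)).filter (fun idx => Function.Injective idx),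
        A (noiL idx) = Nr ^ (M - d) * ∑ ω : Om n M, ∑ w : Fin d → Pr n,
          I ω (stf ω (fun r => (idx r, w r)) d) := by
      intro idx hidx
      rw [Finset.mem_filter] at hidx
      show ∑ ω : Om n M, ∑ v : Om n M, I ω (mix (noiL idx) ω v) = _
      rw [Finset.mul_sum]
      refine Finset.sum_congr rfl fun ω _ => ?_
      rw [hNr, ← sum_comp idx hidx.2 (fun w => I ω (stf ω (fun r => (idx r, w r)) d))]
      refine Finset.sum_congr rfl fun v _ => ?_
      rw [stf_mix]
    rw [Finset.sum_congr rfl h1, ← Finset.mul_sum]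
    refine mul_le_mul_of_nonneg_left ?_ (by positivity)
    have h2 : ((univ.filter (fun p : Om n M × (Fin d → Mv n M) =>
        Gd Φ x y p.1 (stf p.1 p.2 d))).card : ℝ) =
        ∑ idx : Fin d → Fin M, ∑ ω : Om n M, ∑ w : Fin d → Pr n,
          I ω (stf ω (fun r => (idx r, w r)) d) := by
      rw [Finset.card_eq_sum_ones, Finset.sum_filter]
      push_cast
      rw [Fintype.sum_prod_type, Finset.sum_comm (s := (univ : Finset (Fin d → Fin M)))]
      refine Finset.sum_congr rfl fun ω _ => ?_
      rw [← (Equiv.arrowProdEquivProdArrow (Fin d) (fun _ => Fin M) (fun _ => Pr n)).symm.sum_comp,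
        Fintype.sum_prod_type]
      refine Finset.sum_congr rfl fun idx _ => ?_
      refine Finset.sum_congr rfl fun w _ => ?_
      rfl
    rw [h2]
    refine Finset.sum_le_sum_of_subset_of_nonneg (Finset.filter_subset _ _) ?_
    intro idx _ _
    exact Finset.sum_nonneg fun ω _ => Finset.sum_nonneg fun v _ => hI0 _ _
  have key2 : (d.factorial : ℝ) * ∑ Λ ∈ (univ : Finset (Fin M → Bool)).filter
        (fun Λ => (univ.filter fun i => Λ i = true).card = d), A Λ ≤
      ∑ idx ∈ (univ : Finset (Fin d → Fin M)).filter (fun idx => Function.Injective idx),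
      A (noiL idx) := by
    have hmaps : ∀ idx ∈ (univ : Finset (Fin d → Fin M)).filter
        (fun idx => Function.Injective idx),
        noiL idx ∈ (univ : Finset (Fin M → Bool)).filter
        (fun Λ => (univ.filter fun i => Λ i = true).card = d) := by
      intro idx hidx
      rw [Finset.mem_filter] at hidx ⊢
      refine ⟨Finset.mem_univ _, ?_⟩
      have h3 : (univ.filter fun i => noiL idx i = true) = Finset.univ.image idx := by
        ext i
        simp [noiL]
      rw [h3, Finset.card_image_of_injective _ hidx.2, Finset.card_univ, Fintype.card_fin]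
    rw [← Finset.sum_fiberwise_of_maps_to hmaps, Finset.mul_sum]
    refine Finset.sum_le_sum fun Λ hΛ => ?_
    rw [Finset.mem_filter] at hΛ
    rw [Finset.filter_filter]
    rw [Finset.sum_congr rfl (g := fun _ => A Λ) (by
      intro idx hidx
      rw [Finset.mem_filter] at hidx
      rw [hidx.2.2])]
    rw [Finset.sum_const, nsmul_eq_mul]
    refine mul_le_mul_of_nonneg_right ?_ (hA0 Λ)
    exact_mod_cast perm_card Λ hΛ.2
  have hfac : (0 : ℝ) < d.factorial := by exact_mod_cast Nat.factorial_pos d
  have key3 : ∑ Λ ∈ (univ : Finset (Fin M → Bool)).filter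
        (fun Λ => (univ.filter fun i => Λ i = true).card = d), A Λ ≤
      Nr ^ (M - d) * (Real.exp (-(c * d)) * (Nr ^ M * ((M : ℝ) * Nr) ^ d)) / d.factorial := by
    rw [le_div_iff₀ hfac, mul_comm]
    exact (key2.trans key).trans (mul_le_mul_of_nonneg_left h (by positivity))
  rw [Finset.sum_congr rfl fun Λ _ => hqq Λ, ← Finset.mul_sum, ← Finset.mul_sum]
  have hne : Nr ≠ 0 := hNpos.ne'
  calc (1 / Nr) ^ M * ((1 / Nr) ^ M * ∑ Λ ∈ (univ : Finset (Fin M → Bool)).filter
        (fun Λ => (univ.filter fun i => Λ i = true).card = d), A Λ)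
      ≤ (1 / Nr) ^ M * ((1 / Nr) ^ M * (Nr ^ (M - d) *
        (Real.exp (-(c * d)) * (Nr ^ M * ((M : ℝ) * Nr) ^ d)) / d.factorial)) := by
        refine mul_le_mul_of_nonneg_left (mul_le_mul_of_nonneg_left key3 ?_) ?_ <;> positivity
    _ = Real.exp (-(c * d)) * ((M : ℝ) ^ d / d.factorial) := by
        have h4 : Nr ^ M = Nr ^ (M - d) * Nr ^ d := by
          rw [← pow_add, Nat.sub_add_cancel hMd]
        rw [mul_pow, one_div, inv_pow, h4]
        field_simp

end Pool.Agent.ACL
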