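import Pool.Agent.ACL.Defs
import Pool.Agent.INS.Defs

set_option autoImplicit false

/-!
# ACL-NoiD: random pairs of pairs (definitions)
-/

namespace Pool.Agent.ACL

open Finset Pool.Agent.INS

/-- uniform weights -/
noncomputable def uni (α : Type) [Fintype α] : α → ℝ := fun _ => 1 / Fintype.card α

/-- the pairs chosen by the bits `x` -/
def sel {n M : ℕ} (z : Fin M → Pr n × Pr n) (x : Fin M → Bool) : Om n M :=
  fun i => if x i then (z i).2 else (z i).1

/-- replace the samples in `Λ` by those of `v` -/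
def mix {n M : ℕ} (Λ : Fin M → Bool) (ω v : Om n M) : Om n M := fun i => if Λ i then v i else ω i

open Classical in
/-- the probability of a good pair if the samples in `Λ` are replaced -/
noncomputable def qq {n M : ℕ} (Φ : Om n M → Finset (Fin n)) (x y : ℝ) (Λ : Fin M → Bool) : ℝ :=
  Ex (uni (Pr n)) fun ω => Ex (uni (Pr n)) fun v => if Gd Φ x y ω (mix Λ ω v) then 1 else 0

/-- all the `2 M` pairs are different -/
def Inj2 {n M : ℕ} (z : Fin M → Pr n × Pr n) : Prop :=
  Function.Injective fun p : Fin M × Bool => if p.2 then (z p.1).2 else (z p.1).1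

/-- the graph with the edges `ω i` -/
def gO {n M : ℕ} (ω : Om n M) : SimpleGraph (Fin n) where
  Adj u v := (∃ i, (ω i).1 = (u, v)) ∨ ∃ i, (ω i).1 = (v, u)
  symm := ⟨fun _ _ h => h.symm⟩
  loopless := ⟨fun u h => by
    rcases h with ⟨i, h⟩ | ⟨i, h⟩
    · have h1 := (ω i).2
      rw [h] at h1
      exact lt_irrefl _ h1
    · have h1 := (ω i).2
      rw [h] at h1
      exact lt_irrefl _ h1⟩

end Pool.Agent.ACL
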