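import Mathlib

set_option autoImplicit false

/-!
# ACL: circuits of bounded depth (statement level definitions, MP_f583e4_lc)
-/

namespace Pool.Agent.ACL

open Finset

/-- a gate: the conjunction (`conj = true`) or the disjunction (`conj = false`) of literals of the
wires `W`; the literal `(w, b)` says that the wire `w` has the value `b`; unbounded fan-in -/
structure Gate (W : Type) where
  conj : Bool
  lits : List (W × Bool)

/-- value of a gate -/
def Gate.ev {W : Type} (g : Gate W) (y : W → Bool) : Bool :=
  if g.conj then g.lits.all fun l => y l.1 == l.2 else g.lits.any fun l => y l.1 == l.2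

/-- a circuit with `s` gates on every level: the wires of the gate `C i g` (the gate number `g` of
the level `i + 1`) are the input variables `E` and the gates of the level `i` -/
abbrev Circ (E : Type) (s : ℕ) := ℕ → Fin s → Gate (E ⊕ Fin s)

/-- the values of the gates of the level `i` -/
def Circ.val {E : Type} {s : ℕ} (C : Circ E s) (x : E → Bool) : ℕ → Fin s → Bool
  | 0 => fun _ => false
  | i + 1 => fun g => (C i g).ev (Sum.elim x (Circ.val C x i))

open Classical in
/-- the adjacency matrix -/
noncomputable def adj {n : ℕ} (G : SimpleGraph (Fin n)) (e : Fin n × Fin n) : Bool :=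
  decide (G.Adj e.1 e.2)

/-- the set of vertices computed by the circuit `C` on the level `D`: the gate `out v` tells whether
`v` belongs to the set -/
noncomputable def outS {n s : ℕ} (C : Circ (Fin n × Fin n) s) (D : ℕ) (out : Fin n → Fin s)
    (G : SimpleGraph (Fin n)) : Finset (Fin n) :=
  univ.filter fun v => C.val (adj G) D (out v) = true

/-- the number of edges `M_k(n) = ⌊(1/2 + ε) k (ln k) n⌋` -/
noncomputable def Mk (ε : ℝ) (k n : ℕ) : ℕ := ⌊(1 / 2 + ε) * k * Real.log k * n⌋₊

/-- the graphs on `Fin n` with `M` edges -/
def Graphs (n M : ℕ) : Set (SimpleGraph (Fin n)) := {G | G.edgeSet.ncard = M}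

/-- on the input `G` the map `F` finds a stable set with at least `n / k` vertices -/
def Finds {n : ℕ} (F : SimpleGraph (Fin n) → Finset (Fin n)) (k : ℕ) (G : SimpleGraph (Fin n)) :
    Prop :=
  (∀ u ∈ F G, ∀ v ∈ F G, ¬ G.Adj u v) ∧ (n : ℝ) / k ≤ (F G).card

/-- the probability that the map `F` with the random seed `r ∈ Ω` finds a stable set with at least
`n / k` vertices in the random graph with `M` edges -/
noncomputable def succ {n : ℕ} {Ω : Type} [Fintype Ω] (F : Ω → SimpleGraph (Fin n) → Finset (Fin n))
    (k M : ℕ) : ℝ :=
  {p : Ω × SimpleGraph (Fin n) | p.2 ∈ Graphs n M ∧ Finds (F p.1) k p.2}.ncard /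
    (Fintype.card Ω * (Graphs n M).ncard)

end Pool.Agent.ACL
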