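import Pool.Agent.ACL.NoiD
import Pool.Agent.ACL.ExA
import Pool.Agent.INS.Graph

set_option autoImplicit false

/-!
# ACL-SucA: random graphs with M edges and sequences of different pairs
-/

namespace Pool.Agent.ACL

open Finset Pool.Agent.INS

open Classical in
private theorem suc_mem {n : ℕ} (G : SimpleGraph (Fin n)) (e : Pr n) :
    e ∈ eE G ↔ G.Adj e.1.1 e.1.2 := by
  unfold eE
  rw [mem_filter]
  exact ⟨fun h => h.2, fun h => ⟨mem_univ _, h⟩⟩

private theorem suc_eE {n M : ℕ} (ω : Om n M) : eE (gO ω) = univ.image ω := by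
  ext e
  rw [suc_mem, mem_image]
  constructor
  · rintro (⟨i, h⟩ | ⟨i, h⟩)
    · exact ⟨i, mem_univ _, Subtype.ext h⟩
    · have h1 := (ω i).2
      rw [h] at h1
      exact absurd h1 (lt_asymm e.2)
  · rintro ⟨i, -, rfl⟩
    exact Or.inl ⟨i, rfl⟩

theorem gO_edges {n M : ℕ} {ω : Om n M} (h : Function.Injective ω) :
    (gO ω).edgeSet.ncard = M := by
  rw [eE_card, suc_eE, card_image_of_injective _ h, card_univ, Fintype.card_fin]

open Classical in
private theorem suc_fibre {T : Type} [Fintype T] [DecidableEq T] {M : ℕ} (S : Finset T)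
    (hS : S.card = M) :
    (univ.filter fun ω : Fin M → T => Function.Injective ω ∧ univ.image ω = S).card =
      M.factorial := by
  obtain ⟨g, hg1, hg2⟩ : ∃ g : Fin M → T, Function.Injective g ∧ univ.image g = S := by
    refine ⟨fun i => ((S.equivFinOfCardEq hS).symm i).1, ?_, ?_⟩
    · intro a b hab
      exact (S.equivFinOfCardEq hS).symm.injective (Subtype.ext hab)
    · ext a
      simp only [mem_image, mem_univ, true_and]
      constructor
      · rintro ⟨i, rfl⟩
        exact ((S.equivFinOfCardEq hS).symm i).2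
      · intro ha
        exact ⟨S.equivFinOfCardEq hS ⟨a, ha⟩, by rw [Equiv.symm_apply_apply]⟩
  have hc : (univ : Finset (Equiv.Perm (Fin M))).card = M.factorial := by
    rw [card_univ, Fintype.card_perm, Fintype.card_fin]
  rw [← hc]
  symm
  refine Finset.card_bij (fun σ _ => g ∘ σ) ?_ ?_ ?_
  · intro σ _
    refine mem_filter.2 ⟨mem_univ _, hg1.comp σ.injective, ?_⟩
    rw [← image_image, image_univ_equiv, hg2]
  · intro σ _ τ _ h
    ext1 i
    exact hg1 (congrFun h i)
  · intro ω hω
    obtain ⟨-, h1, h2⟩ := mem_filter.1 hω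
    have h3 : ∀ i, ∃ j, g j = ω i := by
      intro i
      have h4 : ω i ∈ univ.image g := by
        rw [hg2, ← h2]
        exact mem_image_of_mem _ (mem_univ i)
      obtain ⟨j, -, hj⟩ := mem_image.1 h4
      exact ⟨j, hj⟩
    choose τ hτ using h3
    have h5 : Function.Injective τ := by
      intro a b hab
      apply h1
      rw [← hτ a, ← hτ b, hab]
    refine ⟨Equiv.ofBijective τ (Finite.injective_iff_bijective.1 h5), mem_univ _, ?_⟩
    funext i
    exact hτ i

open Classical in
theorem count_inj {n M : ℕ} (Q : SimpleGraph (Fin n) → Prop) :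
    (univ.filter fun ω : Om n M => Function.Injective ω ∧ Q (gO ω)).card =
      M.factorial * {G : SimpleGraph (Fin n) | G ∈ Graphs n M ∧ Q G}.ncard := by
  have hfin : {G : SimpleGraph (Fin n) | G ∈ Graphs n M ∧ Q G}.Finite := Set.toFinite _
  rw [Set.ncard_eq_toFinset_card _ hfin]
  have hmap : ∀ ω ∈ (univ.filter fun ω : Om n M => Function.Injective ω ∧ Q (gO ω)),
      gO ω ∈ hfin.toFinset := by
    intro ω hω
    obtain ⟨-, h1, h2⟩ := mem_filter.1 hω
    rw [Set.Finite.mem_toFinset]
    exact ⟨gO_edges h1, h2⟩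
  rw [Finset.card_eq_sum_card_fiberwise (t := hfin.toFinset) (f := gO) hmap,
    Finset.sum_congr rfl (g := fun _ => M.factorial), Finset.sum_const, smul_eq_mul, mul_comm]
  intro G hG
  rw [Set.Finite.mem_toFinset] at hG
  obtain ⟨hG1, hG2⟩ := hG
  have hG3 : (eE G).card = M := by
    rw [← eE_card]
    exact hG1
  rw [← suc_fibre (eE G) hG3]
  apply congrArg Finset.card
  ext ω
  simp only [mem_filter, mem_univ, true_and]
  constructor
  · rintro ⟨⟨h1, _⟩, h2⟩
    refine ⟨h1, ?_⟩
    rw [← h2, suc_eE]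
  · rintro ⟨h1, h2⟩
    have h3 : gO ω = G := by
      apply eE_bij.1
      rw [suc_eE, h2]
    exact ⟨⟨h1, by rw [h3]; exact hG2⟩, h3⟩

end Pool.Agent.ACL
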