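import Pool.Agent.ACL.ExA

set_option autoImplicit false

/-!
# ACL-SwA: fixing free variables

PLAN.  `sum_fill`: bijection `ρ ↦ fill ρ K P` from the restrictions which are free on `K` to those with the values `P` on `K` (inverse `ρ' ↦ star ρ' K`);
the weight changes by the factor `p / ((1-p)/2)` for every element of `K` (`Finset.prod_congr` after splitting the product over `K` and its
complement: `Fintype.prod_eq_mul_prod_compl`/`Finset.prod_mul_prod_compl`).  `Finset.sum_bij'` or `Finset.sum_nbij'` on the filtered sums.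
`fill_star`, `up_sub`: direct.
-/

namespace Pool.Agent.ACL

open Finset

section

variable {V : Type} [Fintype V] [DecidableEq V]

theorem star_fill (ρ : Rst V) (K P : Finset V) (h : ∀ v ∈ K, ρ v = none) :
    star (fill ρ K P) K = ρ := by
  funext v
  unfold star fill
  by_cases hv : v ∈ K
  · rw [if_pos hv, h v hv]
  · rw [if_neg hv, if_neg hv]

open Classical in
theorem sum_fill {p : ℝ} (hp : p < 1) (K P : Finset V) (Q : Rst V → Prop) :
    Ex (rw1 p) (fun ρ => if (∀ v ∈ K, ρ v = none) ∧ Q (fill ρ K P) then 1 else 0) =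
      (2 * p / (1 - p)) ^ K.card *
        Ex (rw1 p) (fun ρ => if (∀ v ∈ K, ρ v = some (decide (v ∈ P))) ∧ Q ρ then 1 else 0) := by
  unfold Ex
  have h1 : ∀ (w : Rst V → ℝ) (S : Rst V → Prop) [DecidablePred S],
      ∑ a : V → Option Bool, w a * (fun a => if S a then (1 : ℝ) else 0) a =
        ∑ a ∈ univ.filter (fun a : V → Option Bool => S a), w a := by
    intro w S _
    rw [Finset.sum_filter]
    apply Finset.sum_congr rfl
    intro a _
    show w a * (if S a then (1 : ℝ) else 0) = _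
    split_ifs
    · rw [mul_one]
    · rw [mul_zero]
  refine (h1 _ (fun ρ => (∀ v ∈ K, ρ v = none) ∧ Q (fill ρ K P))).trans ?_
  refine Eq.trans ?_ (congrArg (fun r => (2 * p / (1 - p)) ^ K.card * r)
    (h1 _ (fun ρ => (∀ v ∈ K, ρ v = some (decide (v ∈ P))) ∧ Q ρ)).symm)
  show _ = (2 * p / (1 - p)) ^ K.card * _
  rw [Finset.mul_sum]
  apply Finset.sum_nbij' (fun ρ => fill ρ K P) (fun ρ => star ρ K)
  · intro ρ hρ
    rw [Finset.mem_filter] at hρ ⊢
    refine ⟨Finset.mem_univ _, ?_, hρ.2.2⟩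
    intro v hv
    unfold fill
    rw [if_pos hv]
  · intro ρ hρ
    rw [Finset.mem_filter] at hρ ⊢
    refine ⟨Finset.mem_univ _, ?_, ?_⟩
    · intro v hv
      unfold star
      rw [if_pos hv]
    · have h2 : fill (star ρ K) K P = ρ := by
        funext v
        unfold fill star
        by_cases hv : v ∈ K
        · rw [if_pos hv, hρ.2.1 v hv]
        · rw [if_neg hv, if_neg hv]
      rw [h2]
      exact hρ.2.2
  · intro ρ hρ
    rw [Finset.mem_filter] at hρ
    exact star_fill ρ K P hρ.2.1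
  · intro ρ hρ
    rw [Finset.mem_filter] at hρ
    funext v
    show fill (star ρ K) K P v = ρ v
    unfold fill star
    by_cases hv : v ∈ K
    · rw [if_pos hv, hρ.2.1 v hv]
    · rw [if_neg hv, if_neg hv]
  · intro ρ hρ
    rw [Finset.mem_filter] at hρ
    rw [← Finset.prod_mul_prod_compl K (fun i => rw1 p (ρ i)),
      ← Finset.prod_mul_prod_compl K (fun i => rw1 p (fill ρ K P i))]
    have h3 : ∏ i ∈ K, rw1 p (ρ i) = p ^ K.card := by
      rw [← Finset.prod_const]
      apply Finset.prod_congr rfl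
      intro i hi
      rw [hρ.2.1 i hi]
      rfl
    have h4 : ∏ i ∈ K, rw1 p (fill ρ K P i) = ((1 - p) / 2) ^ K.card := by
      rw [← Finset.prod_const]
      apply Finset.prod_congr rfl
      intro i hi
      unfold fill
      rw [if_pos hi]
      rfl
    have h5 : ∏ i ∈ Kᶜ, rw1 p (fill ρ K P i) = ∏ i ∈ Kᶜ, rw1 p (ρ i) := by
      apply Finset.prod_congr rfl
      intro i hi
      unfold fill
      rw [if_neg (Finset.mem_compl.1 hi)]
    rw [h3, h4, h5, ← mul_assoc, ← mul_pow]
    congr 2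
    have h6 : (1 : ℝ) - p ≠ 0 := by linarith
    field_simp

omit [Fintype V] in
private theorem swa_star_le (ρ ρ' : Rst V) (K : Finset V) (h : ∀ v b, ρ v = some b → ρ' v = some b) :
    ∀ v b, star ρ K v = some b → star ρ' K v = some b := by
  intro v b hv
  unfold star at hv ⊢
  by_cases hK : v ∈ K
  · rw [if_pos hK] at hv
    exact absurd hv (by simp)
  · rw [if_neg hK] at hv ⊢
    exact h v b hv

theorem up_sub {A : Rst V → Prop} (hA : Up A) (T : Rst V) (K P : Finset V) :
    Up fun ρ => A (star ρ K) ∧ (∀ v ∈ K, ρ v = some (decide (v ∈ P))) ∧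
      ∀ v ∈ sup T, v ∉ K → ρ v = T v := by
  rintro ρ ρ' ⟨h1, h2, h3⟩ h
  refine ⟨hA _ _ h1 (swa_star_le ρ ρ' K h), fun v hv => h v _ (h2 v hv), ?_⟩
  intro v hv hK
  have h4 := h3 v hv hK
  have h5 : T v ≠ none := (Finset.mem_filter.1 hv).2
  obtain ⟨b, hb⟩ := Option.ne_none_iff_exists'.1 h5
  rw [hb] at h4 ⊢
  exact h v b h4

theorem up_fls {A : Rst V → Prop} (hA : Up A) (T : Rst V) : Up fun ρ => A ρ ∧ Fls T ρ := by
  rintro ρ ρ' ⟨h1, v, b, h2, h3⟩ h
  exact ⟨hA _ _ h1 h, v, b, h2, h v _ h3⟩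

open Classical in
/-- free on `K ⊆ sup T` and satisfied on the rest of `T`: compare with satisfied on all of `T` -/
theorem free_le {p : ℝ} (hp0 : 0 ≤ p) (hp : p < 1) {A : Rst V → Prop} (hA : Up A) (T : Rst V)
    (K : Finset V) (hK : K ⊆ sup T) :
    Ex (rw1 p) (fun ρ => if A ρ ∧ (∀ v ∈ K, ρ v = none) ∧ (∀ v ∈ sup T, v ∉ K → ρ v = T v)
      then 1 else 0) ≤
      (2 * p / (1 - p)) ^ K.card *
        Ex (rw1 p) (fun ρ => if A ρ ∧ ∀ v ∈ sup T, ρ v = T v then 1 else 0) := by
  obtain ⟨P, hP⟩ : ∃ P : Finset V, P = K.filter (fun v => T v = some true) := ⟨_, rfl⟩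
  have h1 := sum_fill hp K P (fun ρ => A (star ρ K) ∧ ∀ v ∈ sup T, v ∉ K → ρ v = T v)
  refine le_trans (le_of_eq (Eq.trans ?_ h1)) ?_
  · congr 1
    funext ρ
    have h3 : (∀ v ∈ sup T, v ∉ K → fill ρ K P v = T v) ↔ (∀ v ∈ sup T, v ∉ K → ρ v = T v) := by
      apply forall_congr'
      intro v
      apply forall_congr'
      intro _
      apply forall_congr'
      intro hv
      unfold fill
      rw [if_neg hv]
    have hiff : (A ρ ∧ (∀ v ∈ K, ρ v = none) ∧ (∀ v ∈ sup T, v ∉ K → ρ v = T v)) ↔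
        ((∀ v ∈ K, ρ v = none) ∧ (A (star (fill ρ K P) K) ∧
          ∀ v ∈ sup T, v ∉ K → fill ρ K P v = T v)) := by
      rw [h3]
      constructor
      · rintro ⟨a, b, c⟩
        exact ⟨b, by rw [star_fill ρ K P b]; exact a, c⟩
      · rintro ⟨b, a, c⟩
        rw [star_fill ρ K P b] at a
        exact ⟨a, b, c⟩
    by_cases hb : (∀ v ∈ K, ρ v = none) ∧ (A (star (fill ρ K P) K) ∧
          ∀ v ∈ sup T, v ∉ K → fill ρ K P v = T v)
    · rw [if_pos hb, if_pos (hiff.2 hb)]
    · rw [if_neg hb, if_neg (fun h => hb (hiff.1 h))]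
  have hc : 0 ≤ (2 * p / (1 - p)) ^ K.card := by
    apply pow_nonneg
    apply div_nonneg
    · linarith
    · linarith
  apply mul_le_mul_of_nonneg_left _ hc
  apply Ex_mono (rw1_nonneg hp0 hp.le)
  intro ρ
  by_cases h4 : (∀ v ∈ K, ρ v = some (decide (v ∈ P))) ∧ (A (star ρ K) ∧ ∀ v ∈ sup T, v ∉ K → ρ v = T v)
  · have h5 : A ρ ∧ ∀ v ∈ sup T, ρ v = T v := by
      obtain ⟨a, b, c⟩ := h4
      refine ⟨hA _ _ b ?_, ?_⟩
      · intro v b' hv
        unfold star at hv
        by_cases hvK : v ∈ K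
        · rw [if_pos hvK] at hv
          exact absurd hv (by simp)
        · rw [if_neg hvK] at hv
          exact hv
      · intro v hv
        by_cases hvK : v ∈ K
        · rw [a v hvK]
          have h6 : T v ≠ none := (Finset.mem_filter.1 hv).2
          obtain ⟨b', hb⟩ := Option.ne_none_iff_exists'.1 h6
          rw [hb, hP]
          congr 1
          cases b'
          · apply decide_eq_false
            rw [Finset.mem_filter, hb]
            rintro ⟨-, h7⟩
            exact absurd h7 (by simp)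
          · apply decide_eq_true
            rw [Finset.mem_filter]
            exact ⟨hvK, hb⟩
        · exact c v hv hvK
    rw [if_pos h4, if_pos h5]
  · rw [if_neg h4]
    split_ifs <;> norm_num

end

end Pool.Agent.ACL
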